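import Pool.Agent.QUD.Cod
import Pool.Agent.QUE.Dt

/-!
# QUD/Arc: three excluded configurations of rank 3 over the 2-uniform partial field

`L` of rank three, `Φ` a space over `KU` with the same bases and all entries (with respect to all bases) `0` or in the group.  Points `a, b, c, d, e` no three of which are collinear; normalise the matrix of `Φ`
with respect to the basis `{a, b, c}` so that `d = (1, 1, 1)`, `e = (1, u, v)`, i.e. `u = fv b e * fv a d / (fv a e * fv b d)` and similarly `v`.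
`ex_half`: `q` on the lines `ab`, `cd`, `x` on the lines `ac`, `bd`, and `e, q, x` collinear: `q = (1, 1, 0)`, `x = (1, 0, 1)`, so `1 - u - v = 0`; `no_half`.
`ex_ext`: `x` on `ab`, `cd`, `y` on `ac`, `be`, `z` on `ad`, `ce`, `x, y, z` collinear: `x = (1, 1, 0)`, `y = (1, 0, v)`, `z = (1, u, u)`, determinant `- u v - u + v = 0`, so `v = u / (1 - u)`, `1 - v = (1 - 2 u) / (1 - u)`; `no_half`.
`ex_36`: no six points such that no three are collinear (`no36`).
-/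

set_option autoImplicit false

noncomputable section

open scoped Classical

namespace Pool.Agent.QUD

open Pool.Agent.FRM Pool.Agent.QUS Pool.Agent.QUE

variable {E : Type} [Fintype E]

/-- `{e, f, g}` is a basis of `L` with three elements -/
def B3 {K : Type} [Field K] (L : Submodule K (E → K)) (e f g : E) : Prop := e ≠ f ∧ e ≠ g ∧ f ≠ g ∧ IsB L {e, f, g}

section field

variable {K : Type} [Field K] {Φ : Submodule K (E → K)} {a b c p q r : E}

/-- the determinant of three elements -/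
private def D3 (Φ : Submodule K (E → K)) (a b c p q r : E) : K :=
  fv Φ {a, b, c} a p * (fv Φ {a, b, c} b q * fv Φ {a, b, c} c r - fv Φ {a, b, c} c q * fv Φ {a, b, c} b r) -
    fv Φ {a, b, c} b p * (fv Φ {a, b, c} a q * fv Φ {a, b, c} c r - fv Φ {a, b, c} c q * fv Φ {a, b, c} a r) +
    fv Φ {a, b, c} c p * (fv Φ {a, b, c} a q * fv Φ {a, b, c} b r - fv Φ {a, b, c} b q * fv Φ {a, b, c} a r)

omit [Fintype E] in
private theorem b3r {M : Submodule K (E → K)} (h : B3 M p q r) : B3 M q r p := by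
  obtain ⟨h1, h2, h3, h4⟩ := h
  refine ⟨h3, Ne.symm h1, Ne.symm h2, ?_⟩
  have e : ({q, r, p} : Finset E) = {p, q, r} := by
    ext x
    simp only [Finset.mem_insert, Finset.mem_singleton]
    tauto
  rwa [e]

omit [Fintype E] in
private theorem b3s {M : Submodule K (E → K)} (h : B3 M p q r) : B3 M q p r := by
  obtain ⟨h1, h2, h3, h4⟩ := h
  refine ⟨Ne.symm h1, h3, h2, ?_⟩
  have e : ({q, p, r} : Finset E) = {p, q, r} := by
    ext x
    simp only [Finset.mem_insert, Finset.mem_singleton]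
    tauto
  rwa [e]

omit [Fintype E] in
private theorem ma : a ∈ ({a, b, c} : Finset E) := by simp

omit [Fintype E] in
private theorem mb : b ∈ ({a, b, c} : Finset E) := by simp

omit [Fintype E] in
private theorem mc : c ∈ ({a, b, c} : Finset E) := by simp

omit [Fintype E] in
private theorem vals (h : B3 Φ a b c) :
    fv Φ {a, b, c} a a = 1 ∧ fv Φ {a, b, c} a b = 0 ∧ fv Φ {a, b, c} a c = 0 ∧
    fv Φ {a, b, c} b a = 0 ∧ fv Φ {a, b, c} b b = 1 ∧ fv Φ {a, b, c} b c = 0 ∧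
    fv Φ {a, b, c} c a = 0 ∧ fv Φ {a, b, c} c b = 0 ∧ fv Φ {a, b, c} c c = 1 := by
  obtain ⟨h1, h2, h3, h4⟩ := h
  exact ⟨fv_self h4 ma, fv_oth h4 ma mb (Ne.symm h1), fv_oth h4 ma mc (Ne.symm h2),
    fv_oth h4 mb ma h1, fv_self h4 mb, fv_oth h4 mb mc (Ne.symm h3),
    fv_oth h4 mc ma h2, fv_oth h4 mc mb h3, fv_self h4 mc⟩

omit [Fintype E] in
private theorem ex3 (h : B3 Φ a b c) {v : E → K} (hv : v ∈ Φ) (x : E) :
    v x = v a * fv Φ {a, b, c} a x + v b * fv Φ {a, b, c} b x + v c * fv Φ {a, b, c} c x := by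
  obtain ⟨h1, h2, h3, h4⟩ := h
  have h5 := congrFun (expand h4 hv) x
  rw [Finset.sum_insert (by simp [h1, h2]), Finset.sum_insert (by simp [h3]), Finset.sum_singleton] at h5
  rw [h5]
  show v a * _ + (v b * _ + v c * _) = _
  ring

omit [Fintype E] in
private theorem comb (h : B3 Φ a b c) (x y z : K) :
    x • fv Φ {a, b, c} a + y • fv Φ {a, b, c} b + z • fv Φ {a, b, c} c ∈ Φ := by
  have h4 := h.2.2.2
  exact Submodule.add_mem _ (Submodule.add_mem _ (Submodule.smul_mem _ _ (fv_mem h4 ma)) (Submodule.smul_mem _ _ (fv_mem h4 mb)))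
    (Submodule.smul_mem _ _ (fv_mem h4 mc))

omit [Fintype E] in
private theorem dual1 (h : B3 Φ a b c) (hd : D3 Φ a b c p q r ≠ 0) : ∃ x ∈ Φ, x p = 1 ∧ x q = 0 ∧ x r = 0 ∧
    ∀ y, x y = D3 Φ a b c y q r / D3 Φ a b c p q r := by
  refine ⟨_, comb h ((fv Φ {a, b, c} b q * fv Φ {a, b, c} c r - fv Φ {a, b, c} c q * fv Φ {a, b, c} b r) / D3 Φ a b c p q r)
    (-(fv Φ {a, b, c} a q * fv Φ {a, b, c} c r - fv Φ {a, b, c} c q * fv Φ {a, b, c} a r) / D3 Φ a b c p q r)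
    ((fv Φ {a, b, c} a q * fv Φ {a, b, c} b r - fv Φ {a, b, c} b q * fv Φ {a, b, c} a r) / D3 Φ a b c p q r), ?_⟩
  have key : ∀ y, (((fv Φ {a, b, c} b q * fv Φ {a, b, c} c r - fv Φ {a, b, c} c q * fv Φ {a, b, c} b r) / D3 Φ a b c p q r) • fv Φ {a, b, c} a +
    (-(fv Φ {a, b, c} a q * fv Φ {a, b, c} c r - fv Φ {a, b, c} c q * fv Φ {a, b, c} a r) / D3 Φ a b c p q r) • fv Φ {a, b, c} b +
    ((fv Φ {a, b, c} a q * fv Φ {a, b, c} b r - fv Φ {a, b, c} b q * fv Φ {a, b, c} a r) / D3 Φ a b c p q r) • fv Φ {a, b, c} c) y =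
      D3 Φ a b c y q r / D3 Φ a b c p q r := by
    intro y
    show _ / D3 Φ a b c p q r * fv Φ {a, b, c} a y + _ / D3 Φ a b c p q r * fv Φ {a, b, c} b y + _ / D3 Φ a b c p q r * fv Φ {a, b, c} c y = _
    have e : D3 Φ a b c y q r = fv Φ {a, b, c} a y * (fv Φ {a, b, c} b q * fv Φ {a, b, c} c r - fv Φ {a, b, c} c q * fv Φ {a, b, c} b r) -
      fv Φ {a, b, c} b y * (fv Φ {a, b, c} a q * fv Φ {a, b, c} c r - fv Φ {a, b, c} c q * fv Φ {a, b, c} a r) +
      fv Φ {a, b, c} c y * (fv Φ {a, b, c} a q * fv Φ {a, b, c} b r - fv Φ {a, b, c} b q * fv Φ {a, b, c} a r) := rfl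
    rw [e, div_mul_eq_mul_div, div_mul_eq_mul_div, div_mul_eq_mul_div, ← add_div, ← add_div]
    congr 1
    ring
  refine ⟨?_, ?_, ?_, key⟩
  · rw [key, div_self hd]
  · rw [key]
    have e : D3 Φ a b c q q r = 0 := by
      unfold D3
      ring
    rw [e, zero_div]
  · rw [key]
    have e : D3 Φ a b c r q r = 0 := by
      unfold D3
      ring
    rw [e, zero_div]

omit [Fintype E] in
private theorem D3s : D3 Φ a b c q p r = -D3 Φ a b c p q r := by
  unfold D3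
  ring

omit [Fintype E] in
private theorem D3r : D3 Φ a b c q r p = D3 Φ a b c p q r := by
  unfold D3
  ring

omit [Fintype E] in
private theorem det_b3 (h : B3 Φ a b c) (hd : D3 Φ a b c p q r ≠ 0) : B3 Φ p q r := by
  have h1 : p ≠ q := by
    rintro rfl
    refine hd ?_
    unfold D3
    ring
  have h2 : p ≠ r := by
    rintro rfl
    refine hd ?_
    unfold D3
    ring
  have h3 : q ≠ r := by
    rintro rfl
    refine hd ?_
    unfold D3
    ring
  refine ⟨h1, h2, h3, ?_, ?_⟩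
  · intro v hv h0
    have ep := h0 p (by simp)
    have eq := h0 q (by simp)
    have er := h0 r (by simp)
    rw [ex3 h hv] at ep eq er
    have za : v a = 0 := by
      have : v a * D3 Φ a b c p q r = 0 := by
        unfold D3
        linear_combination (fv Φ {a, b, c} b q * fv Φ {a, b, c} c r - fv Φ {a, b, c} c q * fv Φ {a, b, c} b r) * ep -
          (fv Φ {a, b, c} b p * fv Φ {a, b, c} c r - fv Φ {a, b, c} c p * fv Φ {a, b, c} b r) * eq +
          (fv Φ {a, b, c} b p * fv Φ {a, b, c} c q - fv Φ {a, b, c} c p * fv Φ {a, b, c} b q) * er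
      exact (mul_eq_zero.1 this).resolve_right hd
    have zb : v b = 0 := by
      have : v b * D3 Φ a b c p q r = 0 := by
        unfold D3
        linear_combination -(fv Φ {a, b, c} a q * fv Φ {a, b, c} c r - fv Φ {a, b, c} c q * fv Φ {a, b, c} a r) * ep +
          (fv Φ {a, b, c} a p * fv Φ {a, b, c} c r - fv Φ {a, b, c} c p * fv Φ {a, b, c} a r) * eq -
          (fv Φ {a, b, c} a p * fv Φ {a, b, c} c q - fv Φ {a, b, c} c p * fv Φ {a, b, c} a q) * er
      exact (mul_eq_zero.1 this).resolve_right hd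
    have zc : v c = 0 := by
      have : v c * D3 Φ a b c p q r = 0 := by
        unfold D3
        linear_combination (fv Φ {a, b, c} a q * fv Φ {a, b, c} b r - fv Φ {a, b, c} b q * fv Φ {a, b, c} a r) * ep -
          (fv Φ {a, b, c} a p * fv Φ {a, b, c} b r - fv Φ {a, b, c} b p * fv Φ {a, b, c} a r) * eq +
          (fv Φ {a, b, c} a p * fv Φ {a, b, c} b q - fv Φ {a, b, c} b p * fv Φ {a, b, c} a q) * er
      exact (mul_eq_zero.1 this).resolve_right hd
    funext x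
    rw [ex3 h hv, za, zb, zc]
    show 0 * _ + 0 * _ + 0 * _ = (0 : K)
    ring
  · intro t ht
    rw [Finset.mem_insert, Finset.mem_insert, Finset.mem_singleton] at ht
    rcases ht with rfl | rfl | rfl
    · obtain ⟨x, hx, x1, x2, x3, -⟩ := dual1 h hd
      refine ⟨x, hx, x1, ?_⟩
      intro s hs hst
      rw [Finset.mem_insert, Finset.mem_insert, Finset.mem_singleton] at hs
      rcases hs with rfl | rfl | rfl
      · exact absurd rfl hst
      · exact x2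
      · exact x3
    · obtain ⟨x, hx, x1, x2, x3, -⟩ := dual1 (p := t) (q := r) (r := p) h (by rwa [D3r])
      refine ⟨x, hx, x1, ?_⟩
      intro s hs hst
      rw [Finset.mem_insert, Finset.mem_insert, Finset.mem_singleton] at hs
      rcases hs with rfl | rfl | rfl
      · exact x3
      · exact absurd rfl hst
      · exact x2
    · obtain ⟨x, hx, x1, x2, x3, -⟩ := dual1 (p := t) (q := p) (r := q) h (by rwa [D3r, D3r])
      refine ⟨x, hx, x1, ?_⟩
      intro s hs hst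
      rw [Finset.mem_insert, Finset.mem_insert, Finset.mem_singleton] at hs
      rcases hs with rfl | rfl | rfl
      · exact x2
      · exact x3
      · exact absurd rfl hst

omit [Fintype E] in
private theorem b3_det (h : B3 Φ a b c) (h' : B3 Φ p q r) : D3 Φ a b c p q r ≠ 0 := by
  intro h0
  have hm : (!![fv Φ {a, b, c} a p, fv Φ {a, b, c} b p, fv Φ {a, b, c} c p;
      fv Φ {a, b, c} a q, fv Φ {a, b, c} b q, fv Φ {a, b, c} c q;
      fv Φ {a, b, c} a r, fv Φ {a, b, c} b r, fv Φ {a, b, c} c r]).det = 0 := by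
    rw [Matrix.det_fin_three]
    show fv Φ {a, b, c} a p * fv Φ {a, b, c} b q * fv Φ {a, b, c} c r - fv Φ {a, b, c} a p * fv Φ {a, b, c} c q * fv Φ {a, b, c} b r -
      fv Φ {a, b, c} b p * fv Φ {a, b, c} a q * fv Φ {a, b, c} c r + fv Φ {a, b, c} b p * fv Φ {a, b, c} c q * fv Φ {a, b, c} a r +
      fv Φ {a, b, c} c p * fv Φ {a, b, c} a q * fv Φ {a, b, c} b r - fv Φ {a, b, c} c p * fv Φ {a, b, c} b q * fv Φ {a, b, c} a r = 0
    unfold D3 at h0
    linear_combination h0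
  obtain ⟨w, hw, hm⟩ := Matrix.exists_mulVec_eq_zero_iff.2 hm
  have e0 := congrFun hm 0
  have e1 := congrFun hm 1
  have e2 := congrFun hm 2
  simp [Matrix.mulVec, dotProduct, Fin.sum_univ_three] at e0 e1 e2
  have hz := h'.2.2.2.1 _ (comb h (w 0) (w 1) (w 2)) ?_
  · obtain ⟨v1, v2, v3, v4, v5, v6, v7, v8, v9⟩ := vals h
    have za := congrFun hz a
    have zb := congrFun hz b
    have zc := congrFun hz c
    simp [v1, v2, v3, v4, v5, v6, v7, v8, v9] at za zb zc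
    refine hw ?_
    funext i
    fin_cases i
    · exact za
    · exact zb
    · exact zc
  · intro s hs
    rw [Finset.mem_insert, Finset.mem_insert, Finset.mem_singleton] at hs
    rcases hs with rfl | rfl | rfl
    · show w 0 * _ + w 1 * _ + w 2 * _ = 0
      linear_combination e0
    · show w 0 * _ + w 1 * _ + w 2 * _ = 0
      linear_combination e1
    · show w 0 * _ + w 1 * _ + w 2 * _ = 0
      linear_combination e2

omit [Fintype E] in
private theorem fv_det (h : B3 Φ a b c) (h' : B3 Φ p q r) (x : E) :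
    fv Φ {p, q, r} p x = D3 Φ a b c x q r / D3 Φ a b c p q r := by
  obtain ⟨y, hy, y1, y2, y3, y4⟩ := dual1 h (b3_det h h')
  rw [← y4 x]
  refine congrFun (fv_uniq h'.2.2.2 ma hy y1 ?_) x
  intro s hs hsp
  rw [Finset.mem_insert, Finset.mem_insert, Finset.mem_singleton] at hs
  rcases hs with rfl | rfl | rfl
  · exact absurd rfl hsp
  · exact y2
  · exact y3

end field

section eqs

variable {K : Type} [Field K] {Φ : Submodule K (E → K)} {a b c x y : E}

omit [Fintype E] in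
private theorem eA (h : B3 Φ a b c) : D3 Φ a b c b c x = fv Φ {a, b, c} a x := by
  obtain ⟨v1, v2, v3, v4, v5, v6, v7, v8, v9⟩ := vals h
  unfold D3
  rw [v2, v3, v5, v6, v8, v9]
  ring

omit [Fintype E] in
private theorem eB (h : B3 Φ a b c) : D3 Φ a b c a c x = -fv Φ {a, b, c} b x := by
  obtain ⟨v1, v2, v3, v4, v5, v6, v7, v8, v9⟩ := vals h
  unfold D3
  rw [v1, v3, v4, v6, v7, v9]
  ring

omit [Fintype E] in
private theorem eC (h : B3 Φ a b c) : D3 Φ a b c a b x = fv Φ {a, b, c} c x := by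
  obtain ⟨v1, v2, v3, v4, v5, v6, v7, v8, v9⟩ := vals h
  unfold D3
  rw [v1, v2, v4, v5, v7, v8]
  ring

omit [Fintype E] in
private theorem eAB (h : B3 Φ a b c) :
    D3 Φ a b c c x y = fv Φ {a, b, c} a x * fv Φ {a, b, c} b y - fv Φ {a, b, c} b x * fv Φ {a, b, c} a y := by
  obtain ⟨v1, v2, v3, v4, v5, v6, v7, v8, v9⟩ := vals h
  unfold D3
  rw [v3, v6, v9]
  ring

omit [Fintype E] in
private theorem eAC (h : B3 Φ a b c) :
    D3 Φ a b c b x y = -(fv Φ {a, b, c} a x * fv Φ {a, b, c} c y - fv Φ {a, b, c} c x * fv Φ {a, b, c} a y) := by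
  obtain ⟨v1, v2, v3, v4, v5, v6, v7, v8, v9⟩ := vals h
  unfold D3
  rw [v2, v5, v8]
  ring

omit [Fintype E] in
private theorem eBC (h : B3 Φ a b c) :
    D3 Φ a b c a x y = fv Φ {a, b, c} b x * fv Φ {a, b, c} c y - fv Φ {a, b, c} c x * fv Φ {a, b, c} b y := by
  obtain ⟨v1, v2, v3, v4, v5, v6, v7, v8, v9⟩ := vals h
  unfold D3
  rw [v1, v4, v7]
  ring

end eqs

variable {L : Submodule F4 (E → F4)} {Φ : Submodule KU (E → KU)}

private theorem one_G : InG (1 : KU) := ⟨0, ev_zero.symm⟩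

section ku

variable {a b c p q r x : E}

omit [Fintype E] in
private theorem chn
    (hU : ∀ S, IsB Φ S → ∀ b ∈ S, ∀ e, e ∉ S → fv Φ S b e = 0 ∨ InG (fv Φ S b e)) (h : B3 Φ a b c) (h1 : B3 Φ p q r)
    (h2 : B3 Φ x q r) (h3 : InG (D3 Φ a b c p q r)) : InG (D3 Φ a b c x q r) := by
  by_cases hx : x = p
  · rwa [hx]
  have hx' : x ∉ ({p, q, r} : Finset E) := by
    rw [Finset.mem_insert, Finset.mem_insert, Finset.mem_singleton]
    rintro (h4 | h4 | h4)
    · exact hx h4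
    · exact h2.1 h4
    · exact h2.2.1 h4
  have e := fv_det h h1 x
  rcases hU _ h1.2.2.2 p ma x hx' with h4 | h4
  · rw [h4] at e
    exact absurd e.symm (div_ne_zero (b3_det h h2) (b3_det h h1))
  · rw [e] at h4
    have h5 := inG_mul h4 h3
    rwa [div_mul_cancel₀ _ (b3_det h h1)] at h5

omit [Fintype E] in
private theorem st (h : B3 Φ a b c) (h1 : B3 Φ p q r) : ∃ z, (z = a ∨ z = b ∨ z = c) ∧ B3 Φ z q r := by
  by_contra hn
  push Not at hn
  have ha : D3 Φ a b c a q r = 0 := by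
    by_contra h0
    exact hn a (Or.inl rfl) (det_b3 h h0)
  have hb : D3 Φ a b c b q r = 0 := by
    by_contra h0
    exact hn b (Or.inr (Or.inl rfl)) (det_b3 h h0)
  have hc : D3 Φ a b c c q r = 0 := by
    by_contra h0
    exact hn c (Or.inr (Or.inr rfl)) (det_b3 h h0)
  refine b3_det h h1 ?_
  have e : D3 Φ a b c p q r = fv Φ {a, b, c} a p * D3 Φ a b c a q r + fv Φ {a, b, c} b p * D3 Φ a b c b q r +
      fv Φ {a, b, c} c p * D3 Φ a b c c q r := by
    obtain ⟨v1, v2, v3, v4, v5, v6, v7, v8, v9⟩ := vals h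
    unfold D3
    rw [v1, v2, v3, v4, v5, v6, v7, v8, v9]
    ring
  rw [e, ha, hb, hc]
  ring

omit [Fintype E] in
private theorem pm (h : B3 Φ a b c) {z1 z2 z3 : E} (h1 : z1 = a ∨ z1 = b ∨ z1 = c) (h2 : z2 = a ∨ z2 = b ∨ z2 = c)
    (h3 : z3 = a ∨ z3 = b ∨ z3 = c) : D3 Φ a b c z1 z2 z3 = 0 ∨ D3 Φ a b c z1 z2 z3 = 1 ∨ D3 Φ a b c z1 z2 z3 = -1 := by
  obtain ⟨v1, v2, v3, v4, v5, v6, v7, v8, v9⟩ := vals h
  rcases h1 with rfl | rfl | rfl <;> rcases h2 with rfl | rfl | rfl <;> rcases h3 with rfl | rfl | rfl <;>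
    simp [D3, v1, v2, v3, v4, v5, v6, v7, v8, v9]

omit [Fintype E] in
private theorem allN
    (hU : ∀ S, IsB Φ S → ∀ b ∈ S, ∀ e, e ∉ S → fv Φ S b e = 0 ∨ InG (fv Φ S b e)) (h : B3 Φ a b c) (h1 : B3 Φ p q r) :
    InG (D3 Φ a b c p q r) := by
  obtain ⟨z1, e1, k1⟩ := st h h1
  obtain ⟨z2, e2, k2⟩ := st h (b3r k1)
  obtain ⟨z3, e3, k3⟩ := st h (b3r k2)
  have g3 : InG (D3 Φ a b c z3 z1 z2) := by
    rcases pm h e3 e1 e2 with g | g | g
    · exact absurd g (b3_det h k3)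
    · rw [g]
      exact one_G
    · rw [g]
      exact inG_neg one_G
  have g2 := chn hU h k3 (b3r k2) g3
  rw [← D3r, ← D3r] at g2
  have g1 := chn hU h k2 (b3r k1) g2
  rw [← D3r, ← D3r] at g1
  exact chn hU h k1 h1 g1

end ku

omit [Fintype E] in
private theorem cv {Φ : Submodule KU (E → KU)} (hB : ∀ S, IsB Φ S ↔ IsB L S) {x y z : E} (h : B3 L x y z) : B3 Φ x y z :=
  ⟨h.1, h.2.1, h.2.2.1, (hB _).2 h.2.2.2⟩

omit [Fintype E] in
private theorem vc {Φ : Submodule KU (E → KU)} (hB : ∀ S, IsB Φ S ↔ IsB L S) {a b c x y z : E} (h0 : B3 Φ a b c)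
    (h : ¬ B3 L x y z) : D3 Φ a b c x y z = 0 := by
  by_contra h1
  have h2 := det_b3 h0 h1
  exact h ⟨h2.1, h2.2.1, h2.2.2.1, (hB _).1 h2.2.2.2⟩

private theorem alg_half {d1 d2 d3 e1 e2 e3 q1 q2 x1 x3 : KU} (g1 : InG d1) (g2 : InG d2) (g3 : InG d3) (k1 : InG e1) (k2 : InG e2)
    (h12 : InG (d1 * e2 - d2 * e1)) (h23 : InG (d2 * e3 - d3 * e2)) (n1 : q1 ≠ 0) (n2 : x1 ≠ 0)
    (hq : d1 * q2 - d2 * q1 = 0) (hx : x1 * d3 - x3 * d1 = 0) (hd : e1 * (q2 * x3) - e2 * (q1 * x3) + e3 * (-(q2 * x1)) = 0) : False := by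
  have nd1 := inG_ne g1
  have nd2 := inG_ne g2
  have nd3 := inG_ne g3
  have ne1 := inG_ne k1
  have key : e1 * d2 * d3 - e2 * d1 * d3 - e3 * d1 * d2 = 0 := by
    have h1 : q1 * x1 * (e1 * d2 * d3 - e2 * d1 * d3 - e3 * d1 * d2) = 0 := by
      linear_combination d1 ^ 2 * hd - (e1 * d1 * x3 - e3 * d1 * x1) * hq + (e1 * d2 * q1 - e2 * q1 * d1) * hx
    exact (mul_eq_zero.1 h1).resolve_left (mul_ne_zero n1 n2)
  refine no_half (u := e2 * d1 * (e1 * d2)⁻¹) (inG_mul (inG_mul k2 g1) (inG_inv (inG_mul k1 g2))) ?_ ?_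
  · have e : 1 - e2 * d1 * (e1 * d2)⁻¹ = -(d1 * e2 - d2 * e1) * (e1 * d2)⁻¹ := by
      field_simp
      ring
    rw [e]
    exact inG_mul (inG_neg h12) (inG_inv (inG_mul k1 g2))
  · have e : 1 - 2 * (e2 * d1 * (e1 * d2)⁻¹) = (d2 * e3 - d3 * e2) * d1 * (d3 * (e1 * d2))⁻¹ := by
      field_simp
      linear_combination key
    rw [e]
    exact inG_mul (inG_mul h23 g1) (inG_inv (inG_mul g3 (inG_mul k1 g2)))

private theorem alg_ext {d1 d2 d3 e1 e2 e3 x1 x2 y1 y3 z1 z2 z3 : KU} (g1 : InG d1) (g2 : InG d2) (g3 : InG d3) (k1 : InG e1) (k2 : InG e2)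
    (h12 : InG (d1 * e2 - d2 * e1)) (h13 : InG (d1 * e3 - d3 * e1)) (n1 : x1 ≠ 0) (n2 : y1 ≠ 0) (n3 : z1 ≠ 0)
    (hx : d1 * x2 - d2 * x1 = 0) (hy : y1 * e3 - y3 * e1 = 0) (hz : z2 * d3 - z3 * d2 = 0) (hz' : z1 * e2 - z2 * e1 = 0)
    (hd : -(x1 * y3 * z2) - x2 * (y1 * z3 - y3 * z1) = 0) : False := by
  have nd1 := inG_ne g1
  have nd2 := inG_ne g2
  have nd3 := inG_ne g3
  have ne1 := inG_ne k1
  have key : -(d1 * e2 * e3) - e1 * e2 * d3 + d2 * e1 * e3 = 0 := by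
    have h1 : x1 * y1 * z1 * (-(d1 * e2 * e3) - e1 * e2 * d3 + d2 * e1 * e3) = 0 := by
      have a1 : x2 = d2 * x1 / d1 := by
        field_simp
        linear_combination hx
      have a2 : y3 = y1 * e3 / e1 := by
        field_simp
        linear_combination -hy
      have a3 : z2 = z1 * e2 / e1 := by
        field_simp
        linear_combination -hz'
      have a4 : z3 = z2 * d3 / d2 := by
        field_simp
        linear_combination -hz
      rw [a4, a3, a2, a1] at hd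
      field_simp at hd
      linear_combination hd
    exact (mul_eq_zero.1 h1).resolve_left (mul_ne_zero (mul_ne_zero n1 n2) n3)
  refine no_half (u := e2 * d1 * (e1 * d2)⁻¹) (inG_mul (inG_mul k2 g1) (inG_inv (inG_mul k1 g2))) ?_ ?_
  · have e : 1 - e2 * d1 * (e1 * d2)⁻¹ = -(d1 * e2 - d2 * e1) * (e1 * d2)⁻¹ := by
      field_simp
      ring
    rw [e]
    exact inG_mul (inG_neg h12) (inG_inv (inG_mul k1 g2))
  · have e : 1 - 2 * (e2 * d1 * (e1 * d2)⁻¹) = (d1 * e2 - d2 * e1) * (d1 * e3 - d3 * e1) * (e1 * d2 * (e1 * d3))⁻¹ := by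
      field_simp
      linear_combination d1 * key
    rw [e]
    exact inG_mul (inG_mul h12 h13) (inG_inv (inG_mul (inG_mul k1 g2) (inG_mul k1 g3)))

private theorem alg_36 {d1 d2 d3 e1 e2 e3 f1 f2 f3 : KU} (g1 : InG d1) (g2 : InG d2) (g3 : InG d3) (k1 : InG e1) (k2 : InG e2)
    (k3 : InG e3) (l1 : InG f1) (l2 : InG f2) (l3 : InG f3)
    (h12 : InG (d1 * e2 - d2 * e1)) (h13 : InG (d1 * e3 - d3 * e1)) (h23 : InG (d2 * e3 - d3 * e2))
    (i12 : InG (d1 * f2 - d2 * f1)) (i13 : InG (d1 * f3 - d3 * f1)) (i23 : InG (d2 * f3 - d3 * f2))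
    (j12 : InG (e1 * f2 - e2 * f1)) (j13 : InG (e1 * f3 - e3 * f1)) (j23 : InG (e2 * f3 - e3 * f2))
    (hd : InG (d1 * (e2 * f3 - e3 * f2) - d2 * (e1 * f3 - e3 * f1) + d3 * (e1 * f2 - e2 * f1))) : False := by
  have nd1 := inG_ne g1
  have nd2 := inG_ne g2
  have nd3 := inG_ne g3
  have ne1 := inG_ne k1
  have nf1 := inG_ne l1
  refine no36 (u := e2 * d1 * (e1 * d2)⁻¹) (v := e3 * d1 * (e1 * d3)⁻¹) (s := f2 * d1 * (f1 * d2)⁻¹) (t := f3 * d1 * (f1 * d3)⁻¹)
    (inG_mul (inG_mul k2 g1) (inG_inv (inG_mul k1 g2))) (inG_mul (inG_mul k3 g1) (inG_inv (inG_mul k1 g3)))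
    (inG_mul (inG_mul l2 g1) (inG_inv (inG_mul l1 g2))) (inG_mul (inG_mul l3 g1) (inG_inv (inG_mul l1 g3))) ?_ ?_ ?_ ?_ ?_ ?_ ?_ ?_ ?_ ?_
  · have e : 1 - e2 * d1 * (e1 * d2)⁻¹ = -(d1 * e2 - d2 * e1) * (e1 * d2)⁻¹ := by
      field_simp
      ring
    rw [e]
    exact inG_mul (inG_neg h12) (inG_inv (inG_mul k1 g2))
  · have e : 1 - e3 * d1 * (e1 * d3)⁻¹ = -(d1 * e3 - d3 * e1) * (e1 * d3)⁻¹ := by
      field_simp
      ring
    rw [e]
    exact inG_mul (inG_neg h13) (inG_inv (inG_mul k1 g3))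
  · have e : 1 - f2 * d1 * (f1 * d2)⁻¹ = -(d1 * f2 - d2 * f1) * (f1 * d2)⁻¹ := by
      field_simp
      ring
    rw [e]
    exact inG_mul (inG_neg i12) (inG_inv (inG_mul l1 g2))
  · have e : 1 - f3 * d1 * (f1 * d3)⁻¹ = -(d1 * f3 - d3 * f1) * (f1 * d3)⁻¹ := by
      field_simp
      ring
    rw [e]
    exact inG_mul (inG_neg i13) (inG_inv (inG_mul l1 g3))
  · have e : e2 * d1 * (e1 * d2)⁻¹ - e3 * d1 * (e1 * d3)⁻¹ = -(d2 * e3 - d3 * e2) * d1 * (e1 * (d2 * d3))⁻¹ := by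
      field_simp
      ring
    rw [e]
    exact inG_mul (inG_mul (inG_neg h23) g1) (inG_inv (inG_mul k1 (inG_mul g2 g3)))
  · have e : e2 * d1 * (e1 * d2)⁻¹ - f2 * d1 * (f1 * d2)⁻¹ = -(e1 * f2 - e2 * f1) * d1 * (d2 * (e1 * f1))⁻¹ := by
      field_simp
      ring
    rw [e]
    exact inG_mul (inG_mul (inG_neg j12) g1) (inG_inv (inG_mul g2 (inG_mul k1 l1)))
  · have e : e3 * d1 * (e1 * d3)⁻¹ - f3 * d1 * (f1 * d3)⁻¹ = -(e1 * f3 - e3 * f1) * d1 * (d3 * (e1 * f1))⁻¹ := by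
      field_simp
      ring
    rw [e]
    exact inG_mul (inG_mul (inG_neg j13) g1) (inG_inv (inG_mul g3 (inG_mul k1 l1)))
  · have e : f2 * d1 * (f1 * d2)⁻¹ - f3 * d1 * (f1 * d3)⁻¹ = -(d2 * f3 - d3 * f2) * d1 * (f1 * (d2 * d3))⁻¹ := by
      field_simp
      ring
    rw [e]
    exact inG_mul (inG_mul (inG_neg i23) g1) (inG_inv (inG_mul l1 (inG_mul g2 g3)))
  · have e : e2 * d1 * (e1 * d2)⁻¹ * (f3 * d1 * (f1 * d3)⁻¹) - e3 * d1 * (e1 * d3)⁻¹ * (f2 * d1 * (f1 * d2)⁻¹) =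
        (e2 * f3 - e3 * f2) * (d1 * d1) * (e1 * f1 * (d2 * d3))⁻¹ := by
      field_simp
    rw [e]
    exact inG_mul (inG_mul j23 (inG_mul g1 g1)) (inG_inv (inG_mul (inG_mul k1 l1) (inG_mul g2 g3)))
  · have e : (1 - e2 * d1 * (e1 * d2)⁻¹) * (1 - f3 * d1 * (f1 * d3)⁻¹) - (1 - e3 * d1 * (e1 * d3)⁻¹) * (1 - f2 * d1 * (f1 * d2)⁻¹) =
        (d1 * (e2 * f3 - e3 * f2) - d2 * (e1 * f3 - e3 * f1) + d3 * (e1 * f2 - e2 * f1)) * d1 * (e1 * f1 * (d2 * d3))⁻¹ := by
      field_simp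
      ring
    rw [e]
    exact inG_mul (inG_mul hd g1) (inG_inv (inG_mul (inG_mul k1 l1) (inG_mul g2 g3)))

theorem ex_half (hB : ∀ S, IsB Φ S ↔ IsB L S)
    (hU : ∀ S, IsB Φ S → ∀ b ∈ S, ∀ e, e ∉ S → fv Φ S b e = 0 ∨ InG (fv Φ S b e)) {a b c d e q x : E}
    (abc : B3 L a b c) (abd : B3 L a b d) (acd : B3 L a c d) (bcd : B3 L b c d) (abe : B3 L a b e) (ace : B3 L a c e)
    (bce : B3 L b c e) (ade : B3 L a d e) (bde : B3 L b d e) (cde : B3 L c d e)
    (q1 : ¬ B3 L a b q) (q2 : ¬ B3 L c d q) (q3 : B3 L a c q) (q4 : B3 L b c q)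
    (x1 : ¬ B3 L a c x) (x2 : ¬ B3 L b d x) (x3 : B3 L a b x) (x4 : B3 L b c x) (eqx : ¬ B3 L e q x) : False := by
  have h0 := cv hB abc
  have dA := allN hU h0 (cv hB bcd)
  rw [eA h0] at dA
  have dB := allN hU h0 (cv hB acd)
  rw [eB h0] at dB
  replace dB := inG_neg dB
  rw [neg_neg] at dB
  have dC := allN hU h0 (cv hB abd)
  rw [eC h0] at dC
  have fA := allN hU h0 (cv hB bce)
  rw [eA h0] at fA
  have fB := allN hU h0 (cv hB ace)
  rw [eB h0] at fB
  replace fB := inG_neg fB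
  rw [neg_neg] at fB
  have m1 := allN hU h0 (cv hB cde)
  rw [eAB h0] at m1
  have m2 := allN hU h0 (cv hB ade)
  rw [eBC h0] at m2
  have n1 := b3_det h0 (cv hB q4)
  rw [eA h0] at n1
  have n2 := b3_det h0 (cv hB x4)
  rw [eA h0] at n2
  have z1 := vc hB h0 q1
  rw [eC h0] at z1
  have z2 := vc hB h0 q2
  rw [eAB h0] at z2
  have z3 := vc hB h0 x1
  rw [eB h0] at z3
  replace z3 := neg_eq_zero.1 z3
  have z4 := vc hB h0 x2
  rw [eAC h0] at z4
  replace z4 := neg_eq_zero.1 z4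
  have z5 := vc hB h0 eqx
  unfold D3 at z5
  rw [z1, z3] at z5
  refine alg_half dA dB dC fA fB m1 m2 n1 n2 z2 (x1 := fv Φ {a, b, c} a x) (x3 := fv Φ {a, b, c} c x) ?_ ?_
  · linear_combination -z4
  · linear_combination z5

theorem ex_ext (hB : ∀ S, IsB Φ S ↔ IsB L S)
    (hU : ∀ S, IsB Φ S → ∀ b ∈ S, ∀ e, e ∉ S → fv Φ S b e = 0 ∨ InG (fv Φ S b e)) {a b c d e x y z : E}
    (abc : B3 L a b c) (abd : B3 L a b d) (acd : B3 L a c d) (bcd : B3 L b c d) (abe : B3 L a b e) (ace : B3 L a c e)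
    (bce : B3 L b c e) (ade : B3 L a d e) (bde : B3 L b d e) (cde : B3 L c d e)
    (x1 : ¬ B3 L a b x) (x2 : ¬ B3 L c d x) (x3 : B3 L a c x) (x4 : B3 L b c x)
    (y1 : ¬ B3 L a c y) (y2 : ¬ B3 L b e y) (y3 : B3 L a b y) (y4 : B3 L b c y)
    (z1 : ¬ B3 L a d z) (z2 : ¬ B3 L c e z) (z3 : B3 L a b z) (z4 : B3 L a c z) (z5 : B3 L b c z)
    (xyz : ¬ B3 L x y z) : False := by
  have h0 := cv hB abc
  have dA := allN hU h0 (cv hB bcd)
  rw [eA h0] at dA
  have dB := allN hU h0 (cv hB acd)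
  rw [eB h0] at dB
  replace dB := inG_neg dB
  rw [neg_neg] at dB
  have dC := allN hU h0 (cv hB abd)
  rw [eC h0] at dC
  have fA := allN hU h0 (cv hB bce)
  rw [eA h0] at fA
  have fB := allN hU h0 (cv hB ace)
  rw [eB h0] at fB
  replace fB := inG_neg fB
  rw [neg_neg] at fB
  have m1 := allN hU h0 (cv hB cde)
  rw [eAB h0] at m1
  have m2 := allN hU h0 (cv hB bde)
  rw [eAC h0] at m2
  replace m2 := inG_neg m2
  rw [neg_neg] at m2
  have n1 := b3_det h0 (cv hB x4)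
  rw [eA h0] at n1
  have n2 := b3_det h0 (cv hB y4)
  rw [eA h0] at n2
  have n3 := b3_det h0 (cv hB z5)
  rw [eA h0] at n3
  have w1 := vc hB h0 x1
  rw [eC h0] at w1
  have w2 := vc hB h0 x2
  rw [eAB h0] at w2
  have w3 := vc hB h0 y1
  rw [eB h0] at w3
  replace w3 := neg_eq_zero.1 w3
  have w4 := vc hB h0 y2
  rw [eAC h0] at w4
  replace w4 := neg_eq_zero.1 w4
  have w5 := vc hB h0 z1
  rw [eBC h0] at w5
  have w6 := vc hB h0 z2
  rw [eAB h0] at w6
  have w7 := vc hB h0 xyz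
  unfold D3 at w7
  rw [w1, w3] at w7
  refine alg_ext dA dB dC fA fB m1 m2 n1 n2 n3 w2 (y3 := fv Φ {a, b, c} c y) (z2 := fv Φ {a, b, c} b z) (z3 := fv Φ {a, b, c} c z) ?_ ?_ ?_ ?_
  · linear_combination -w4
  · linear_combination -w5
  · linear_combination -w6
  · linear_combination w7

theorem ex_36 (hB : ∀ S, IsB Φ S ↔ IsB L S)
    (hU : ∀ S, IsB Φ S → ∀ b ∈ S, ∀ e, e ∉ S → fv Φ S b e = 0 ∨ InG (fv Φ S b e)) {a b c d e f : E}
    (abc : B3 L a b c) (abd : B3 L a b d) (acd : B3 L a c d) (bcd : B3 L b c d) (abe : B3 L a b e) (ace : B3 L a c e)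
    (bce : B3 L b c e) (abf : B3 L a b f) (acf : B3 L a c f) (bcf : B3 L b c f)
    (ade : B3 L a d e) (bde : B3 L b d e) (cde : B3 L c d e) (adf : B3 L a d f) (bdf : B3 L b d f) (cdf : B3 L c d f)
    (aef : B3 L a e f) (bef : B3 L b e f) (cef : B3 L c e f) (dff : B3 L d e f) : False := by
  have h0 := cv hB abc
  have dA := allN hU h0 (cv hB bcd)
  rw [eA h0] at dA
  have dB := allN hU h0 (cv hB acd)
  rw [eB h0] at dB
  replace dB := inG_neg dB
  rw [neg_neg] at dB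
  have dC := allN hU h0 (cv hB abd)
  rw [eC h0] at dC
  have fA := allN hU h0 (cv hB bce)
  rw [eA h0] at fA
  have fB := allN hU h0 (cv hB ace)
  rw [eB h0] at fB
  replace fB := inG_neg fB
  rw [neg_neg] at fB
  have fC := allN hU h0 (cv hB abe)
  rw [eC h0] at fC
  have gA := allN hU h0 (cv hB bcf)
  rw [eA h0] at gA
  have gB := allN hU h0 (cv hB acf)
  rw [eB h0] at gB
  replace gB := inG_neg gB
  rw [neg_neg] at gB
  have gC := allN hU h0 (cv hB abf)
  rw [eC h0] at gC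
  have m1 := allN hU h0 (cv hB cde)
  rw [eAB h0] at m1
  have m2 := allN hU h0 (cv hB bde)
  rw [eAC h0] at m2
  replace m2 := inG_neg m2
  rw [neg_neg] at m2
  have m3 := allN hU h0 (cv hB ade)
  rw [eBC h0] at m3
  have m4 := allN hU h0 (cv hB cdf)
  rw [eAB h0] at m4
  have m5 := allN hU h0 (cv hB bdf)
  rw [eAC h0] at m5
  replace m5 := inG_neg m5
  rw [neg_neg] at m5
  have m6 := allN hU h0 (cv hB adf)
  rw [eBC h0] at m6
  have m7 := allN hU h0 (cv hB cef)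
  rw [eAB h0] at m7
  have m8 := allN hU h0 (cv hB bef)
  rw [eAC h0] at m8
  replace m8 := inG_neg m8
  rw [neg_neg] at m8
  have m9 := allN hU h0 (cv hB aef)
  rw [eBC h0] at m9
  have mm := allN hU h0 (cv hB dff)
  unfold D3 at mm
  exact alg_36 dA dB dC fA fB fC gA gB gC m1 m2 m3 m4 m5 m6 m7 m8 m9 mm

end Pool.Agent.QUD
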