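import Pool.Agent.FRM.Une2

/-!
# QUD/Cod: three facts on the 2-uniform partial field

`no_half`: there is no `u` with `u`, `1 - u`, `1 - 2 u` in the group (this excludes `F₇⁼`).  `no36`: no matrix of `U_{3,6}`.
-/

set_option autoImplicit false

namespace Pool.Agent.QUD

open Pool.Agent.FRM

/-- the fundamental elements `u`, with `1 - u` -/
def OM : List (XG × XG) :=
  [((-1, 0, 0, -1, 1, 0), (-1, 1, 1, -1, 0, 0)), ((-1, 0, 0, 0, 0, 0), (-1, 0, 1, 0, 0, 1)),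
   ((-1, 0, 0, 0, 1, 0), (-1, 1, 0, 0, 0, 0)), ((-1, 0, 1, 0, 0, 1), (-1, 0, 0, 0, 0, 0)),
   ((-1, 1, 0, 0, 0, 0), (-1, 0, 0, 0, 1, 0)), ((-1, 1, 1, -1, 0, 0), (-1, 0, 0, -1, 1, 0)),
   ((0, -1, -1, 0, 1, 1), (1, -1, -1, 1, 0, 0)), ((0, -1, 0, 0, 0, 0), (0, -1, 0, 1, 0, 1)),
   ((0, -1, 0, 0, 1, 1), (1, -1, 0, 0, 0, 0)), ((0, -1, 0, 1, 0, 1), (0, -1, 0, 0, 0, 0)),
   ((0, 0, -1, 0, 0, 0), (1, 0, -1, 0, 0, 1)), ((0, 0, -1, 0, 1, 1), (0, 0, -1, 1, 0, 0)),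
   ((0, 0, -1, 1, 0, 0), (0, 0, -1, 0, 1, 1)), ((0, 0, 0, -1, 0, 0), (0, 1, 0, -1, 0, 1)),
   ((0, 0, 0, -1, 1, 0), (0, 0, 1, -1, 0, 0)), ((0, 0, 0, 1, -1, 0), (0, 0, 1, 0, -1, 1)),
   ((0, 0, 0, 1, 0, 0), (0, 1, 0, 0, 0, 0)), ((0, 0, 1, -1, 0, 0), (0, 0, 0, -1, 1, 0)),
   ((0, 0, 1, 0, -1, 1), (0, 0, 0, 1, -1, 0)), ((0, 0, 1, 0, 0, 0), (1, 0, 0, 0, 0, 0)),
   ((0, 1, 0, -1, 0, 1), (0, 0, 0, -1, 0, 0)), ((0, 1, 0, 0, -1, 1), (1, 0, 0, 0, -1, 0)),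
   ((0, 1, 0, 0, 0, 0), (0, 0, 0, 1, 0, 0)), ((0, 1, 1, 0, -1, 1), (1, 0, 0, 1, -1, 0)),
   ((1, -1, -1, 1, 0, 0), (0, -1, -1, 0, 1, 1)), ((1, -1, 0, 0, 0, 0), (0, -1, 0, 0, 1, 1)),
   ((1, 0, -1, 0, 0, 1), (0, 0, -1, 0, 0, 0)), ((1, 0, 0, 0, -1, 0), (0, 1, 0, 0, -1, 1)),
   ((1, 0, 0, 0, 0, 0), (0, 0, 1, 0, 0, 0)), ((1, 0, 0, 1, -1, 0), (0, 1, 1, 0, -1, 1))]

/-- the list of the fundamental elements -/
def FL : List XG := OM.map Prod.fst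

theorem mem_FL (x : XG) : x ∈ FU ↔ x ∈ FL := by
  simp only [FU, FL, OM, Finset.mem_insert, Finset.mem_singleton, List.mem_cons, List.not_mem_nil, or_false, List.map_cons, List.map_nil]

theorem fu_om {x : XG} (h : x ∈ FU) : ∃ y, (x, y) ∈ OM := by
  rw [mem_FL, FL, List.mem_map] at h
  obtain ⟨⟨a, b⟩, h, rfl⟩ := h
  exact ⟨b, h⟩

theorem om_ev : ∀ p ∈ OM, ev p.1 + ev p.2 = 1 := by
  have h1 := al_ne
  have h2 := be_ne
  have h3 := al_ne_one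
  have h4 := be_ne_one
  have h5 := al_ne_be
  simp only [OM, List.forall_mem_cons, List.not_mem_nil, false_imp_iff, implies_true, and_true]
  refine ⟨?_, ?_, ?_, ?_, ?_, ?_, ?_, ?_, ?_, ?_, ?_, ?_, ?_, ?_, ?_, ?_, ?_, ?_, ?_, ?_, ?_, ?_, ?_, ?_, ?_, ?_, ?_, ?_, ?_, ?_⟩
  all_goals
    simp only [ev, zpow_zero, zpow_one, zpow_neg, mul_one, one_mul, ZMod.val_zero, ZMod.val_one, pow_zero, pow_one]
    field_simp
    ring

theorem fu_of_one {a : XG} (h : InG (1 - ev a)) : a ∈ FU := by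
  rcases unit_eq' (Or.inr h) with h1 | h1
  · rw [h1, ev_zero, sub_self] at h
    exact absurd rfl (inG_ne h)
  · exact h1

theorem fu_of_sub {a b : XG} (h : InG (ev a - ev b)) : b - a ∈ FU := by
  refine fu_of_one ?_
  have h1 : 1 - ev (b - a) = (ev a - ev b) * (ev a)⁻¹ := by
    rw [sub_eq_add_neg b a, ev_add, ev_neg, sub_mul, mul_inv_cancel₀ (ev_ne_zero a)]
  rw [h1]
  exact inG_mul h (inG_inv ⟨a, rfl⟩)

/-- codes of `u` and `1 - u` -/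
theorem code_pair {u : KU} (h : InG u) (h' : InG (1 - u)) : ∃ p ∈ OM, u = ev p.1 ∧ 1 - u = ev p.2 := by
  obtain ⟨a, rfl⟩ := h
  obtain ⟨b, hb⟩ := fu_om (fu_of_one h')
  exact ⟨(a, b), hb, rfl, by rw [← om_ev _ hb, add_sub_cancel_left]⟩

private theorem nc {x : XG} (h : x ∈ FL) (h' : FL.contains x = false) : False := by
  rw [List.contains_eq_mem, decide_eq_true h] at h'
  exact Bool.noConfusion h'

private theorem ch1 : (OM.all fun p => !(FL.contains (p.1 - p.2))) = true := by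
  decide +kernel

theorem no_half {u : KU} (h1 : InG u) (h2 : InG (1 - u)) (h3 : InG (1 - 2 * u)) : False := by
  obtain ⟨p, hp, e1, e2⟩ := code_pair h1 h2
  have h4 : p.1 - p.2 ∈ FU := by
    refine fu_of_sub ?_
    rw [← e1, ← e2]
    have h5 : 1 - u - u = 1 - 2 * u := by ring
    rwa [h5]
  rw [mem_FL] at h4
  have h5 := List.all_eq_true.1 ch1 p hp
  rw [Bool.not_eq_true'] at h5
  exact nc h4 h5

private def N36 : Bool :=
  OM.all fun p => OM.all fun q => !(FL.contains (q.1 - p.1)) || (OM.all fun r => !(FL.contains (r.1 - p.1)) ||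
    (OM.all fun t => !(FL.contains (t.1 - q.1)) || (!(FL.contains (t.1 - r.1)) ||
      (!(FL.contains (q.1 + r.1 - (p.1 + t.1))) || !(FL.contains (q.2 + r.2 - (p.2 + t.2)))))))

private theorem ch2 : N36 = true := by
  decide +kernel

theorem no36 {u v s t : KU} (hu : InG u) (hv : InG v) (hs : InG s) (ht : InG t) (hu' : InG (1 - u)) (hv' : InG (1 - v))
    (hs' : InG (1 - s)) (ht' : InG (1 - t)) (h1 : InG (u - v)) (h2 : InG (u - s)) (h3 : InG (v - t)) (h4 : InG (s - t))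
    (h5 : InG (u * t - v * s)) (h6 : InG ((1 - u) * (1 - t) - (1 - v) * (1 - s))) : False := by
  obtain ⟨p, hp, p1, p2⟩ := code_pair hu hu'
  obtain ⟨q, hq, q1, q2⟩ := code_pair hv hv'
  obtain ⟨r, hr, r1, r2⟩ := code_pair hs hs'
  obtain ⟨w, hw, w1, w2⟩ := code_pair ht ht'
  rw [p1, q1] at h1
  rw [p1, r1] at h2
  rw [q1, w1] at h3
  rw [r1, w1] at h4
  rw [p1, q1, r1, w1, ← ev_add, ← ev_add] at h5
  rw [p2, q2, r2, w2, ← ev_add, ← ev_add] at h6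
  have e1 := (mem_FL _).1 (fu_of_sub h1)
  have e2 := (mem_FL _).1 (fu_of_sub h2)
  have e3 := (mem_FL _).1 (fu_of_sub h3)
  have e4 := (mem_FL _).1 (fu_of_sub h4)
  have e5 := (mem_FL _).1 (fu_of_sub h5)
  have e6 := (mem_FL _).1 (fu_of_sub h6)
  have k := List.all_eq_true.1 (List.all_eq_true.1 ch2 p hp) q hq
  simp only [Bool.or_eq_true, Bool.not_eq_true', List.all_eq_true] at k
  rcases k with k | k
  · exact nc e1 k
  rcases k r hr with k | k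
  · exact nc e2 k
  rcases k w hw with k | k | k | k
  · exact nc e3 k
  · exact nc e4 k
  · exact nc e5 k
  · exact nc e6 k

end Pool.Agent.QUD
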