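import Pool.Agent.QUD.Fr
import Pool.Agent.QUD.Arc

/-!
# QUD/Fb: frames of spaces of rank three

`Fr.Full F`: `c₁, c₂, c₃` is a basis of `L` (`ξ(cx x) = x`).  Then `{e, f, g}` is a basis of the matroid iff the determinant of the three points is not zero.
`exists_full`: the frame in which three given elements are the unit vectors; `scale`: scaling of the coordinates.
-/

set_option autoImplicit false

noncomputable section

open scoped Classical

namespace Pool.Agent.QUD

open Pool.Agent.FRM Pool.Agent.QUS Pool.Agent.QUE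

variable {E : Type} [Fintype E] {L : Submodule F4 (E → F4)}

/-- `c₁, c₂, c₃` is a basis of `L` -/
def Fr.Full (F : Fr L) : Prop := ∀ x, F.xi (F.cx x) = x


private theorem fb_two : (2 : F4) = 0 := by decide

private theorem fb_crs_l (u v : V3) : dot (crs u v) u = 0 := by
  unfold dot crs
  linear_combination (u.1 * u.2.1 * v.2.2 + u.1 * u.2.2 * v.2.1 + u.2.1 * u.2.2 * v.1) * fb_two

private theorem fb_crs_r (u v : V3) : dot (crs u v) v = 0 := by
  unfold dot crs
  linear_combination (v.1 * u.2.1 * v.2.2 + v.1 * u.2.2 * v.2.1 + u.1 * v.2.1 * v.2.2) * fb_two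

private theorem fb_crs_w (u v w : V3) : dot (crs u v) w = dt u v w := by
  unfold dt dot crs
  ring

private theorem fb_crs_u (u v w : V3) : dot (crs v w) u = dt u v w := by
  unfold dt dot crs
  ring

private theorem fb_crs_v (u v w : V3) : dot (crs u w) v = dt u v w := by
  unfold dt dot crs
  ring

private theorem fb_par : ∀ u v : V3, u ≠ 0 → crs u v = 0 → ∃ k, v = sm k u := by
  decide +kernel

private theorem fb_ex : ∀ u : V3, ∃ x : V3, x ≠ 0 ∧ dot x u = 0 := by
  decide +kernel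

private theorem fb_sm (x u : V3) (k : F4) : dot x (sm k u) = k * dot x u := by
  simp only [dot, sm]
  ring

private theorem fb_cs (u v : V3) : crs u v = crs v u := by
  unfold crs
  refine Prod.ext ?_ (Prod.ext ?_ ?_)
  · show u.2.1 * v.2.2 + u.2.2 * v.2.1 = v.2.1 * u.2.2 + v.2.2 * u.2.1
    ring
  · show u.2.2 * v.1 + u.1 * v.2.2 = v.2.2 * u.1 + v.1 * u.2.2
    ring
  · show u.1 * v.2.1 + u.2.1 * v.1 = v.1 * u.2.1 + v.2.1 * u.1
    ring

private theorem fb_line {u v w : V3} (hu : u ≠ 0) (h1 : crs u v = 0) (h2 : crs u w = 0) :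
    ∃ x : V3, x ≠ 0 ∧ dot x u = 0 ∧ dot x v = 0 ∧ dot x w = 0 := by
  obtain ⟨x, hx, hxu⟩ := fb_ex u
  obtain ⟨k, rfl⟩ := fb_par u v hu h1
  obtain ⟨l, rfl⟩ := fb_par u w hu h2
  exact ⟨x, hx, hxu, by rw [fb_sm, hxu, mul_zero], by rw [fb_sm, hxu, mul_zero]⟩

private theorem fb_zero (x : V3) : dot x 0 = 0 := by
  show x.1 * 0 + x.2.1 * 0 + x.2.2 * 0 = 0
  ring

private theorem fb_cr1 (u v w x : V3) : dt u v w * x.1 =
    dot x u * (crs v w).1 + dot x v * (crs w u).1 + dot x w * (crs u v).1 := by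
  obtain ⟨u1, u2, u3⟩ := u
  obtain ⟨v1, v2, v3⟩ := v
  obtain ⟨w1, w2, w3⟩ := w
  obtain ⟨x1, x2, x3⟩ := x
  simp only [dt, dot, crs]
  linear_combination (-(x2 * (u2 * v2 * w3 + u2 * v3 * w2 + u3 * v2 * w2)) - x3 * (u3 * v2 * w3 + u3 * v3 * w2 + u2 * v3 * w3)) * fb_two

private theorem fb_cr2 (u v w x : V3) : dt u v w * x.2.1 =
    dot x u * (crs v w).2.1 + dot x v * (crs w u).2.1 + dot x w * (crs u v).2.1 := by
  obtain ⟨u1, u2, u3⟩ := u
  obtain ⟨v1, v2, v3⟩ := v
  obtain ⟨w1, w2, w3⟩ := w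
  obtain ⟨x1, x2, x3⟩ := x
  simp only [dt, dot, crs]
  linear_combination (-(x1 * (u1 * v1 * w3 + u1 * v3 * w1 + u3 * v1 * w1)) - x3 * (u3 * v1 * w3 + u3 * v3 * w1 + u1 * v3 * w3)) * fb_two

private theorem fb_cr3 (u v w x : V3) : dt u v w * x.2.2 =
    dot x u * (crs v w).2.2 + dot x v * (crs w u).2.2 + dot x w * (crs u v).2.2 := by
  obtain ⟨u1, u2, u3⟩ := u
  obtain ⟨v1, v2, v3⟩ := v
  obtain ⟨w1, w2, w3⟩ := w
  obtain ⟨x1, x2, x3⟩ := x
  simp only [dt, dot, crs]
  linear_combination (-(x1 * (u1 * v1 * w2 + u1 * v2 * w1 + u2 * v1 * w1)) - x2 * (u2 * v1 * w2 + u2 * v2 * w1 + u1 * v2 * w2)) * fb_two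

/-- `D (x · p) = (x · v × w) (u · p) + (x · w × u) (v · p) + (x · u × v) (w · p)` -/
private theorem fb_exp (u v w x p : V3) : dt u v w * dot x p =
    dot x (crs v w) * dot u p + dot x (crs w u) * dot v p + dot x (crs u v) * dot w p := by
  obtain ⟨u1, u2, u3⟩ := u
  obtain ⟨v1, v2, v3⟩ := v
  obtain ⟨w1, w2, w3⟩ := w
  obtain ⟨x1, x2, x3⟩ := x
  obtain ⟨p1, p2, p3⟩ := p
  simp only [dt, dot, crs]
  linear_combination (-(p1 * (x2 * (u1 * v1 * w3 + u1 * v3 * w1 + u3 * v1 * w1) + x3 * (u1 * v1 * w2 + u1 * v2 * w1 + u2 * v1 * w1)))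
    - p2 * (x1 * (u2 * v2 * w3 + u2 * v3 * w2 + u3 * v2 * w2) + x3 * (u2 * v1 * w2 + u2 * v2 * w1 + u1 * v2 * w2))
    - p3 * (x1 * (u3 * v2 * w3 + u3 * v3 * w2 + u2 * v3 * w3) + x2 * (u3 * v1 * w3 + u3 * v3 * w1 + u1 * v3 * w3))) * fb_two

theorem crs_ne {u v : V3} (h : crs u v ≠ 0) (w : V3) (hw : dt u v w = 0) : ∃ x : V3, x ≠ 0 ∧ dot x u = 0 ∧ dot x v = 0 ∧ dot x w = 0 := by
  exact ⟨crs u v, h, fb_crs_l u v, fb_crs_r u v, by rw [fb_crs_w, hw]⟩

theorem dt_zero {u v w : V3} (h : dt u v w = 0) : ∃ x : V3, x ≠ 0 ∧ dot x u = 0 ∧ dot x v = 0 ∧ dot x w = 0 := by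
  by_cases h1 : crs u v = 0
  · by_cases h2 : crs u w = 0
    · by_cases h3 : crs v w = 0
      · by_cases hu : u = 0
        · by_cases hv : v = 0
          · obtain ⟨x, hx, hxw⟩ := fb_ex w
            exact ⟨x, hx, by rw [hu, fb_zero], by rw [hv, fb_zero], hxw⟩
          · obtain ⟨x, hx, a, b, c⟩ := fb_line hv (by rw [fb_cs, h1] : crs v u = 0) h3
            exact ⟨x, hx, b, a, c⟩
        · exact fb_line hu h1 h2
      · exact ⟨crs v w, h3, by rw [fb_crs_u, h], fb_crs_l v w, fb_crs_r v w⟩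
    · exact ⟨crs u w, h2, fb_crs_l u w, by rw [fb_crs_v, h], fb_crs_r u w⟩
  · exact crs_ne h1 w h

theorem dt_ne {u v w : V3} (h : dt u v w ≠ 0) {x : V3} (h1 : dot x u = 0) (h2 : dot x v = 0) (h3 : dot x w = 0) : x = 0 := by
  have e1 := fb_cr1 u v w x
  have e2 := fb_cr2 u v w x
  have e3 := fb_cr3 u v w x
  rw [h1, h2, h3, zero_mul, zero_mul, zero_mul, add_zero, add_zero] at e1 e2 e3
  exact Prod.ext ((mul_eq_zero.1 e1).resolve_left h)
    (Prod.ext ((mul_eq_zero.1 e2).resolve_left h) ((mul_eq_zero.1 e3).resolve_left h))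

omit [Fintype E] in
private theorem fb_on (F : Fr L) {v : E → F4} (hv : v ∈ L) (h : F.xi v = 0) : v = 0 := by
  funext e
  rw [F.ev hv e, h]
  show (0 : F4) * _ + 0 * _ + 0 * _ = 0
  ring

omit [Fintype E] in
private theorem fb_xi0 (F : Fr L) : F.xi 0 = 0 := by
  unfold Fr.xi
  rw [map_zero, map_zero, map_zero]
  rfl

private theorem fb_du (u w : V3) : dt u u w = 0 := by
  rw [← fb_crs_w]
  have h : crs u u = 0 := by
    unfold crs
    refine Prod.ext ?_ (Prod.ext ?_ ?_)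
    · show u.2.1 * u.2.2 + u.2.2 * u.2.1 = 0
      linear_combination (u.2.1 * u.2.2) * fb_two
    · show u.2.2 * u.1 + u.1 * u.2.2 = 0
      linear_combination (u.1 * u.2.2) * fb_two
    · show u.1 * u.2.1 + u.2.1 * u.1 = 0
      linear_combination (u.1 * u.2.1) * fb_two
  rw [h]
  show (0 : F4) * _ + 0 * _ + 0 * _ = 0
  ring

private theorem fb_dr (u v : V3) : dt v u v = 0 := by
  rw [← fb_crs_u]
  exact fb_crs_r u v

private theorem fb_dv (u v : V3) : dt u v v = 0 := by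
  rw [← fb_crs_w]
  exact fb_crs_r u v

theorem Fr.b3_iff {F : Fr L} (hF : F.Full) {e f g : E} : B3 L e f g ↔ dt (F.vv e) (F.vv f) (F.vv g) ≠ 0 := by
  constructor
  · rintro ⟨h1, h2, h3, hB⟩ h0
    obtain ⟨x, hx, a, b, c⟩ := dt_zero h0
    apply hx
    have h4 : F.cx x = 0 := by
      refine hB.1 _ (F.cx_mem x) ?_
      intro s hs
      simp only [Finset.mem_insert, Finset.mem_singleton] at hs
      rcases hs with rfl | rfl | rfl
      · exact a
      · exact b
      · exact c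
    rw [← hF x, h4]
    exact fb_xi0 F
  · intro hD
    have hne1 : e ≠ f := by
      rintro rfl
      exact hD (fb_du _ _)
    have hne2 : e ≠ g := by
      rintro rfl
      exact hD (fb_dr _ _)
    have hne3 : f ≠ g := by
      rintro rfl
      exact hD (fb_dv _ _)
    have hinv : (dt (F.vv e) (F.vv f) (F.vv g))⁻¹ * dt (F.vv e) (F.vv f) (F.vv g) = 1 := inv_mul_cancel₀ hD
    have hd : ∀ (k : F4) (x p : V3), dot (sm k x) p = k * dot x p := by
      intro k x p
      simp only [dot, sm]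
      ring
    refine ⟨hne1, hne2, hne3, ?_, ?_⟩
    · intro v hv h0
      apply fb_on F hv
      refine dt_ne hD ?_ ?_ ?_
      · rw [← F.ev hv]
        exact h0 e (by simp)
      · rw [← F.ev hv]
        exact h0 f (by simp)
      · rw [← F.ev hv]
        exact h0 g (by simp)
    · intro b hb
      simp only [Finset.mem_insert, Finset.mem_singleton] at hb
      rcases hb with rfl | rfl | rfl
      · refine ⟨F.cx (sm (dt (F.vv b) (F.vv f) (F.vv g))⁻¹ (crs (F.vv f) (F.vv g))), F.cx_mem _, ?_, ?_⟩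
        · show dot _ (F.vv b) = 1
          rw [hd, fb_crs_u, hinv]
        · intro s hs hsb
          simp only [Finset.mem_insert, Finset.mem_singleton] at hs
          rcases hs with rfl | rfl | rfl
          · exact absurd rfl hsb
          · show dot _ (F.vv s) = 0
            rw [hd, fb_crs_l, mul_zero]
          · show dot _ (F.vv s) = 0
            rw [hd, fb_crs_r, mul_zero]
      · refine ⟨F.cx (sm (dt (F.vv e) (F.vv b) (F.vv g))⁻¹ (crs (F.vv e) (F.vv g))), F.cx_mem _, ?_, ?_⟩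
        · show dot _ (F.vv b) = 1
          rw [hd, fb_crs_v, hinv]
        · intro s hs hsb
          simp only [Finset.mem_insert, Finset.mem_singleton] at hs
          rcases hs with rfl | rfl | rfl
          · show dot _ (F.vv s) = 0
            rw [hd, fb_crs_l, mul_zero]
          · exact absurd rfl hsb
          · show dot _ (F.vv s) = 0
            rw [hd, fb_crs_r, mul_zero]
      · refine ⟨F.cx (sm (dt (F.vv e) (F.vv f) (F.vv b))⁻¹ (crs (F.vv e) (F.vv f))), F.cx_mem _, ?_, ?_⟩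
        · show dot _ (F.vv b) = 1
          rw [hd, fb_crs_w, hinv]
        · intro s hs hsb
          simp only [Finset.mem_insert, Finset.mem_singleton] at hs
          rcases hs with rfl | rfl | rfl
          · show dot _ (F.vv s) = 0
            rw [hd, fb_crs_l, mul_zero]
          · show dot _ (F.vv s) = 0
            rw [hd, fb_crs_r, mul_zero]
          · exact absurd rfl hsb

theorem exists_full {a b c : E} (h : B3 L a b c) : ∃ F : Fr L, F.Full ∧ F.vv a = (1, 0, 0) ∧ F.vv b = (0, 1, 0) ∧ F.vv c = (0, 0, 1) := by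
  obtain ⟨hab, hac, hbc, hB⟩ := h
  have ha : a ∈ ({a, b, c} : Finset E) := by simp
  have hb : b ∈ ({a, b, c} : Finset E) := by simp
  have hc : c ∈ ({a, b, c} : Finset E) := by simp
  let F : Fr L :=
    { c := ![fv L {a, b, c} a, fv L {a, b, c} b, fv L {a, b, c} c]
      hc := by
        intro i
        fin_cases i
        · exact fv_mem hB ha
        · exact fv_mem hB hb
        · exact fv_mem hB hc
      x := ![LinearMap.proj a, LinearMap.proj b, LinearMap.proj c]
      hx := by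
        intro v hv e
        have h1 := congrFun (expand hB hv) e
        rw [Finset.sum_apply, Finset.sum_insert (by simp [hab, hac]), Finset.sum_insert (by simp [hbc]),
          Finset.sum_singleton] at h1
        rw [Fin.sum_univ_three, h1, add_assoc]
        rfl }
  have hva : F.vv a = (1, 0, 0) := by
    refine Prod.ext (fv_self hB ha) (Prod.ext ?_ ?_)
    · exact fv_oth hB hb ha hab
    · exact fv_oth hB hc ha hac
  have hvb : F.vv b = (0, 1, 0) := by
    refine Prod.ext (fv_oth hB ha hb hab.symm) (Prod.ext ?_ ?_)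
    · exact fv_self hB hb
    · exact fv_oth hB hc hb hbc
  have hvc : F.vv c = (0, 0, 1) := by
    refine Prod.ext (fv_oth hB ha hc hac.symm) (Prod.ext ?_ ?_)
    · exact fv_oth hB hb hc hbc.symm
    · exact fv_self hB hc
  refine ⟨F, ?_, hva, hvb, hvc⟩
  intro x
  refine Prod.ext ?_ (Prod.ext ?_ ?_)
  · show dot x (F.vv a) = x.1
    rw [hva]
    show x.1 * 1 + x.2.1 * 0 + x.2.2 * 0 = x.1
    ring
  · show dot x (F.vv b) = x.2.1
    rw [hvb]
    show x.1 * 0 + x.2.1 * 1 + x.2.2 * 0 = x.2.1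
    ring
  · show dot x (F.vv c) = x.2.2
    rw [hvc]
    show x.1 * 0 + x.2.1 * 0 + x.2.2 * 1 = x.2.2
    ring

private theorem fb_change {F : Fr L} (hF : F.Full) {u v w : V3} (h : dt u v w ≠ 0) :
    ∃ F' : Fr L, F'.Full ∧ ∀ e, F'.vv e = (dot u (F.vv e), dot v (F.vv e), dot w (F.vv e)) := by
  have hinv : (dt u v w)⁻¹ * dt u v w = 1 := inv_mul_cancel₀ h
  let y : V3 → (E → F4) →ₗ[F4] F4 := fun k =>
    (dt u v w)⁻¹ • (k.1 • F.x 0 + k.2.1 • F.x 1 + k.2.2 • F.x 2)
  have hy : ∀ (k : V3) (z : E → F4), y k z = (dt u v w)⁻¹ * dot (F.xi z) k := by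
    intro k z
    show (dt u v w)⁻¹ * (k.1 * F.x 0 z + k.2.1 * F.x 1 z + k.2.2 * F.x 2 z) =
      (dt u v w)⁻¹ * (F.x 0 z * k.1 + F.x 1 z * k.2.1 + F.x 2 z * k.2.2)
    ring
  let F' : Fr L :=
    { c := ![F.cx u, F.cx v, F.cx w]
      hc := by
        intro i
        fin_cases i
        · exact F.cx_mem u
        · exact F.cx_mem v
        · exact F.cx_mem w
      x := ![y (crs v w), y (crs w u), y (crs u v)]
      hx := by
        intro z hz e
        rw [Fin.sum_univ_three]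
        show z e = y (crs v w) z * dot u (F.vv e) + y (crs w u) z * dot v (F.vv e) + y (crs u v) z * dot w (F.vv e)
        rw [hy, hy, hy, F.ev hz e]
        have h1 := fb_exp u v w (F.xi z) (F.vv e)
        linear_combination (dt u v w)⁻¹ * h1 - dot (F.xi z) (F.vv e) * hinv }
  refine ⟨F', ?_, fun e => rfl⟩
  intro x
  obtain ⟨x1, x2, x3⟩ := x
  let q : V3 := (x1 * u.1 + x2 * v.1 + x3 * w.1, x1 * u.2.1 + x2 * v.2.1 + x3 * w.2.1, x1 * u.2.2 + x2 * v.2.2 + x3 * w.2.2)
  have hq : ∀ p : V3, dot q p = x1 * dot u p + x2 * dot v p + x3 * dot w p := by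
    intro p
    simp only [dot, q]
    ring
  have h1 : F'.cx (x1, x2, x3) = F.cx q := by
    funext e
    show dot (x1, x2, x3) (dot u (F.vv e), dot v (F.vv e), dot w (F.vv e)) = dot q (F.vv e)
    rw [hq]
    rfl
  have hc : ∀ a b : V3, dot a b = dot b a := by
    intro a b
    simp only [dot]
    ring
  rw [h1]
  have e1 : dot u (crs v w) = dt u v w := rfl
  have e2 : dot v (crs v w) = 0 := by rw [hc, fb_crs_l]
  have e3 : dot w (crs v w) = 0 := by rw [hc, fb_crs_r]
  have e4 : dot u (crs w u) = 0 := by rw [hc, fb_crs_r]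
  have e5 : dot v (crs w u) = dt u v w := by rw [hc, fb_cs w u, fb_crs_v]
  have e6 : dot w (crs w u) = 0 := by rw [hc, fb_crs_l]
  have e7 : dot u (crs u v) = 0 := by rw [hc, fb_crs_l]
  have e8 : dot v (crs u v) = 0 := by rw [hc, fb_crs_r]
  have e9 : dot w (crs u v) = dt u v w := by rw [hc, fb_crs_w]
  refine Prod.ext ?_ (Prod.ext ?_ ?_)
  · show y (crs v w) (F.cx q) = x1
    rw [hy, hF q, hq, e1, e2, e3]
    linear_combination x1 * hinv
  · show y (crs w u) (F.cx q) = x2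
    rw [hy, hF q, hq, e4, e5, e6]
    linear_combination x2 * hinv
  · show y (crs u v) (F.cx q) = x3
    rw [hy, hF q, hq, e7, e8, e9]
    linear_combination x3 * hinv

/-- scaling of the coordinates of a frame -/
theorem Fr.scale {F : Fr L} (hF : F.Full) {k : V3} (h1 : k.1 ≠ 0) (h2 : k.2.1 ≠ 0) (h3 : k.2.2 ≠ 0) :
    ∃ F' : Fr L, F'.Full ∧ ∀ e, F'.vv e = (k.1 * (F.vv e).1, k.2.1 * (F.vv e).2.1, k.2.2 * (F.vv e).2.2) := by
  have hd : dt ((k.1, 0, 0) : V3) (0, k.2.1, 0) (0, 0, k.2.2) ≠ 0 := by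
    have h4 : dt ((k.1, 0, 0) : V3) (0, k.2.1, 0) (0, 0, k.2.2) = k.1 * (k.2.1 * k.2.2) := by
      simp only [dt, dot, crs]
      ring
    rw [h4]
    exact mul_ne_zero h1 (mul_ne_zero h2 h3)
  obtain ⟨F', h5, h6⟩ := fb_change hF hd
  refine ⟨F', h5, fun e => ?_⟩
  rw [h6]
  refine Prod.ext ?_ (Prod.ext ?_ ?_)
  · show k.1 * (F.vv e).1 + 0 * (F.vv e).2.1 + 0 * (F.vv e).2.2 = k.1 * (F.vv e).1
    ring
  · show 0 * (F.vv e).1 + k.2.1 * (F.vv e).2.1 + 0 * (F.vv e).2.2 = k.2.1 * (F.vv e).2.1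
    ring
  · show 0 * (F.vv e).1 + 0 * (F.vv e).2.1 + k.2.2 * (F.vv e).2.2 = k.2.2 * (F.vv e).2.2
    ring

/-- change of the frame -/
theorem Fr.change {F : Fr L} (hF : F.Full) {u v w : V3} (h : dt u v w ≠ 0) :
    ∃ F' : Fr L, F'.Full ∧ ∀ e, F'.vv e = (dot u (F.vv e), dot v (F.vv e), dot w (F.vv e)) :=
  fb_change hF h

end Pool.Agent.QUD
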