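import Pool.Agent.QUD.K44

/-!
# QUD/M44: the 4 x 4 matrix of the configuration is not a matrix over the 2-uniform partial field
-/

set_option autoImplicit false

noncomputable section

open scoped Classical

namespace Pool.Agent.QUD

open Pool.Agent.FRM

private theorem det2 (N : Matrix (Fin 4) (Fin 4) KU) (h : IsU2 N) (i j k l : Fin 4) :
    N i k * N j l - N i l * N j k = 0 ∨ InG (N i k * N j l - N i l * N j k) := by
  have h1 := h 2 ![i, j] ![k, l]
  rw [Matrix.det_fin_two] at h1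
  simpa using h1

private theorem det1 (N : Matrix (Fin 4) (Fin 4) KU) (h : IsU2 N) (i j : Fin 4) : N i j = 0 ∨ InG (N i j) := by
  have h1 := h 1 (fun _ => i) (fun _ => j)
  rw [Matrix.det_fin_one] at h1
  exact h1

private theorem det3' (N : Matrix (Fin 4) (Fin 4) KU) (h : IsU2 N) (i j k a b c : Fin 4) {x : KU}
    (hx : x = N i a * N j b * N k c - N i a * N j c * N k b - N i b * N j a * N k c + N i b * N j c * N k a + N i c * N j a * N k b -
      N i c * N j b * N k a) : x = 0 ∨ InG x := by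
  have h1 := h 3 ![i, j, k] ![a, b, c]
  rw [Matrix.det_fin_three] at h1
  rw [hx]
  simpa using h1

private theorem ing_neg {x y : KU} (h : x = 0 ∨ InG x) (e : y = -x) : y = 0 ∨ InG y := by
  rw [e]
  rcases h with h | h
  · left
    rw [h, neg_zero]
  · exact Or.inr (inG_neg h)

private theorem ing_eq {x y : KU} (h : x = 0 ∨ InG x) (e : y = x) : y = 0 ∨ InG y := by
  rw [e]
  exact h

theorem no44m {s t B C F : KU} (h : IsU2 !![1, 1, 1, 1; 0, 1, s, 1; 1, 0, 1, t; 1, B, C, F]) (s0 : s ≠ 0) (s1 : s ≠ 1)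
    (t0 : t ≠ 0) (t1 : t ≠ 1) (st : s * t ≠ 1) (B0 : B ≠ 0) (C1 : C ≠ 1) (FB : F ≠ B) : False := by
  set N : Matrix (Fin 4) (Fin 4) KU := !![1, 1, 1, 1; 0, 1, s, 1; 1, 0, 1, t; 1, B, C, F] with hN
  have d1 : ∀ i j, N i j = 0 ∨ InG (N i j) := det1 N h
  have d2 := det2 N h
  have hs : InG s := (d1 1 2).resolve_left s0
  have ht : InG t := (d1 2 3).resolve_left t0
  have hB : InG B := (d1 3 1).resolve_left B0
  have g : ∀ {x : KU}, x ≠ 0 → (x = 0 ∨ InG x) → InG x := fun h1 h2 => h2.resolve_left h1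
  have e1 : (1 : KU) - s = 0 ∨ InG (1 - s) := ing_neg (d2 0 1 1 2) (by simp [hN])
  have e2 : (1 : KU) - t = 0 ∨ InG (1 - t) := ing_neg (d2 0 2 0 3) (by simp [hN])
  have e3 : (1 : KU) - s * t = 0 ∨ InG (1 - s * t) := ing_neg (d2 1 2 2 3) (by simp [hN])
  have e4 : B - 1 = 0 ∨ InG (B - 1) := ing_eq (d2 0 3 0 1) (by simp [hN])
  have e5 : C - 1 = 0 ∨ InG (C - 1) := ing_eq (d2 0 3 0 2) (by simp [hN])
  have e6 : F - B = 0 ∨ InG (F - B) := ing_eq (d2 0 3 1 3) (by simp [hN])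
  have e7 : (C - 1) - s * (B - 1) = 0 ∨ InG ((C - 1) - s * (B - 1)) := by
    refine det3' N h 0 1 3 0 1 2 ?_
    simp [hN]
    ring
  have e8 : C - s * B = 0 ∨ InG (C - s * B) := ing_eq (d2 1 3 1 2) (by simp [hN])
  have e9 : C - B = 0 ∨ InG (C - B) := ing_eq (d2 0 3 1 2) (by simp [hN])
  have e10 : F - 1 = 0 ∨ InG (F - 1) := ing_eq (d2 0 3 0 3) (by simp [hN])
  have e11 : F - t = 0 ∨ InG (F - t) := ing_eq (d2 2 3 0 3) (by simp [hN])
  have e12 : F - C = 0 ∨ InG (F - C) := ing_eq (d2 0 3 2 3) (by simp [hN])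
  have e13 : s * F - C = 0 ∨ InG (s * F - C) := ing_eq (d2 1 3 2 3) (by simp [hN])
  have e14 : F - t * C = 0 ∨ InG (F - t * C) := ing_eq (d2 2 3 2 3) (by simp [hN])
  have e15 : (F - B) - t * (B - 1) * (-1) = 0 ∨ InG ((F - B) - t * (B - 1) * (-1)) := by
    refine ing_neg (det3' N h 0 2 3 0 1 3 rfl) ?_
    simp [hN]
    ring
  have e16 : (C - 1) - s * (F - t) = 0 ∨ InG ((C - 1) - s * (F - t)) := by
    refine det3' N h 1 2 3 0 2 3 ?_
    simp [hN]
    ring
  have e17 : s * (F - B) - t * ((C - 1) - s * (B - 1)) = 0 ∨ InG (s * (F - B) - t * ((C - 1) - s * (B - 1))) := by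
    have h1 := h 4 id id
    have h2 : (N.submatrix id id).det = s * (F - B) - t * ((C - 1) - s * (B - 1)) := by
      rw [Matrix.submatrix_id_id, hN]
      simp [Matrix.det_succ_row_zero, Fin.sum_univ_succ, Fin.succAbove]
      ring
    rwa [h2] at h1
  exact no44 hs (g (sub_ne_zero.2 (Ne.symm s1)) e1) ht (g (sub_ne_zero.2 (Ne.symm t1)) e2) (g (sub_ne_zero.2 (Ne.symm st)) e3)
    hB e4 (d1 3 2) (g (sub_ne_zero.2 C1) e5) (d1 3 3) (g (sub_ne_zero.2 FB) e6) e7 e8 e9 e10 e17 e11 e12 e13 e14 e15 e16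

end Pool.Agent.QUD
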