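import Pool.Agent.QUD.Mn
import Pool.Agent.QUD.M44

/-!
# QUD/Pth: the configuration of type (4,4) does not exist, in terms of the entries of a space over `KU`

Rows `p3, x, y, z`, columns `p2, p4, p1, p5`.
-/

set_option autoImplicit false

noncomputable section

open scoped Classical

namespace Pool.Agent.QUD

open Pool.Agent.FRM Pool.Agent.QUS Pool.Agent.QUE

variable {E : Type} [Fintype E] {Φ : Submodule KU (E → KU)}

private theorem inG_prod {ι : Type} (s : Finset ι) (F : ι → KU) (h : ∀ i ∈ s, InG (F i)) : InG (∏ i ∈ s, F i) := by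
  induction s using Finset.induction_on with
  | empty =>
    rw [Finset.prod_empty]
    exact inG_one
  | insert a s ha ih =>
    rw [Finset.prod_insert ha]
    exact inG_mul (h a (Finset.mem_insert_self a s)) (ih fun i hi => h i (Finset.mem_insert_of_mem hi))

private theorem isU2_scale {A : Fin 4 → Fin 4 → KU} (hA : ∀ (m : ℕ) (f g : Fin m → Fin 4), (Matrix.of fun k l => A (f k) (g l)).det = 0 ∨
      InG (Matrix.of fun k l => A (f k) (g l)).det) {r c : Fin 4 → KU} (hr : ∀ i, InG (r i)) (hc : ∀ i, InG (c i)) :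
    IsU2 (Matrix.of fun i j => r i * (c j * A i j)) := by
  intro m f g
  have h1 : (Matrix.of fun i j => r i * (c j * A i j)).submatrix f g =
      Matrix.of fun i j => r (f i) * (Matrix.of fun i j => c (g j) * (Matrix.of fun k l => A (f k) (g l)) i j) i j := by
    ext i j
    rfl
  rw [h1, Matrix.det_mul_column, Matrix.det_mul_row]
  rcases hA m f g with h2 | h2
  · left
    rw [h2, mul_zero, mul_zero]
  · right
    exact inG_mul (inG_prod _ _ fun i _ => hr _) (inG_mul (inG_prod _ _ fun i _ => hc _) h2)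

theorem path44 (hU : ∀ S, IsB Φ S → ∀ b ∈ S, ∀ e, e ∉ S → fv Φ S b e = 0 ∨ InG (fv Φ S b e)) {S : Finset E} (hS : IsB Φ S)
    {p1 p2 p3 p4 p5 x y z : E} (m3 : p3 ∈ S) (mx : x ∈ S) (my : y ∈ S) (mz : z ∈ S) (n2 : p2 ∉ S) (n4 : p4 ∉ S) (n1 : p1 ∉ S)
    (n5 : p5 ∉ S) (zx2 : fv Φ S x p2 = 0) (zy4 : fv Φ S y p4 = 0)
    (a32 : fv Φ S p3 p2 ≠ 0) (ay2 : fv Φ S y p2 ≠ 0) (az2 : fv Φ S z p2 ≠ 0) (a34 : fv Φ S p3 p4 ≠ 0) (ax4 : fv Φ S x p4 ≠ 0)
    (az4 : fv Φ S z p4 ≠ 0) (a31 : fv Φ S p3 p1 ≠ 0) (ax1 : fv Φ S x p1 ≠ 0) (a35 : fv Φ S p3 p5 ≠ 0) (ay5 : fv Φ S y p5 ≠ 0)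
    (e1 : fv Φ S p3 p2 * fv Φ S y p1 = fv Φ S p3 p1 * fv Φ S y p2)
    (e2 : fv Φ S p3 p4 * fv Φ S x p5 = fv Φ S p3 p5 * fv Φ S x p4)
    (s1 : fv Φ S p3 p4 * fv Φ S x p1 ≠ fv Φ S p3 p1 * fv Φ S x p4)
    (t1 : fv Φ S p3 p2 * fv Φ S y p5 ≠ fv Φ S p3 p5 * fv Φ S y p2)
    (st : fv Φ S x p1 * fv Φ S y p5 ≠ fv Φ S x p5 * fv Φ S y p1)
    (c1 : fv Φ S p3 p2 * fv Φ S z p1 ≠ fv Φ S p3 p1 * fv Φ S z p2)
    (fb : fv Φ S p3 p4 * fv Φ S z p5 ≠ fv Φ S p3 p5 * fv Φ S z p4) : False := by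
  set f : Fin 4 → E := ![p3, x, y, z] with hf
  set g : Fin 4 → E := ![p2, p4, p1, p5] with hg
  have hfS : ∀ i, f i ∈ S := by
    intro i
    fin_cases i
    · exact m3
    · exact mx
    · exact my
    · exact mz
  have hgS : ∀ i, g i ∉ S := by
    intro i
    fin_cases i
    · exact n2
    · exact n4
    · exact n1
    · exact n5
  have hA : ∀ (m : ℕ) (f' g' : Fin m → Fin 4), (Matrix.of fun k l => (fun i j => fv Φ S (f i) (g j)) (f' k) (g' l)).det = 0 ∨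
      InG (Matrix.of fun k l => (fun i j => fv Φ S (f i) (g j)) (f' k) (g' l)).det := by
    intro m f' g'
    exact minors hU m S hS (fun k => f (f' k)) (fun k => g (g' k)) (fun k => hfS _) fun k => hgS _
  have hG : ∀ {a b : E}, a ∈ S → b ∉ S → fv Φ S a b ≠ 0 → InG (fv Φ S a b) := fun {a b} ha hb h => (hU S hS a ha b hb).resolve_left h
  have g32 := hG m3 n2 a32
  have gy2 := hG my n2 ay2
  have gz2 := hG mz n2 az2
  have g34 := hG m3 n4 a34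
  have gx4 := hG mx n4 ax4
  have g31 := hG m3 n1 a31
  have g35 := hG m3 n5 a35
  have h := isU2_scale (A := fun i j => fv Φ S (f i) (g j)) hA
    (r := ![1, fv Φ S p3 p4 * (fv Φ S x p4)⁻¹, fv Φ S p3 p2 * (fv Φ S y p2)⁻¹, fv Φ S p3 p2 * (fv Φ S z p2)⁻¹])
    (c := ![(fv Φ S p3 p2)⁻¹, (fv Φ S p3 p4)⁻¹, (fv Φ S p3 p1)⁻¹, (fv Φ S p3 p5)⁻¹])
    (by
      intro i
      fin_cases i
      · exact inG_one
      · exact inG_mul g34 (inG_inv gx4)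
      · exact inG_mul g32 (inG_inv gy2)
      · exact inG_mul g32 (inG_inv gz2))
    (by
      intro i
      fin_cases i
      · exact inG_inv g32
      · exact inG_inv g34
      · exact inG_inv g31
      · exact inG_inv g35)
  set s := fv Φ S p3 p4 * (fv Φ S x p4)⁻¹ * ((fv Φ S p3 p1)⁻¹ * fv Φ S x p1) with hs
  set t := fv Φ S p3 p2 * (fv Φ S y p2)⁻¹ * ((fv Φ S p3 p5)⁻¹ * fv Φ S y p5) with ht
  set B := fv Φ S p3 p2 * (fv Φ S z p2)⁻¹ * ((fv Φ S p3 p4)⁻¹ * fv Φ S z p4) with hB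
  set C := fv Φ S p3 p2 * (fv Φ S z p2)⁻¹ * ((fv Φ S p3 p1)⁻¹ * fv Φ S z p1) with hC
  set F := fv Φ S p3 p2 * (fv Φ S z p2)⁻¹ * ((fv Φ S p3 p5)⁻¹ * fv Φ S z p5) with hF
  have hN : (Matrix.of fun i j => ![1, fv Φ S p3 p4 * (fv Φ S x p4)⁻¹, fv Φ S p3 p2 * (fv Φ S y p2)⁻¹, fv Φ S p3 p2 * (fv Φ S z p2)⁻¹] i *
      (![(fv Φ S p3 p2)⁻¹, (fv Φ S p3 p4)⁻¹, (fv Φ S p3 p1)⁻¹, (fv Φ S p3 p5)⁻¹] j * fv Φ S (f i) (g j))) =
      !![1, 1, 1, 1; 0, 1, s, 1; 1, 0, 1, t; 1, B, C, F] := by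
    ext i j
    fin_cases i <;> fin_cases j
    · show 1 * ((fv Φ S p3 p2)⁻¹ * fv Φ S p3 p2) = 1
      rw [inv_mul_cancel₀ a32, one_mul]
    · show 1 * ((fv Φ S p3 p4)⁻¹ * fv Φ S p3 p4) = 1
      rw [inv_mul_cancel₀ a34, one_mul]
    · show 1 * ((fv Φ S p3 p1)⁻¹ * fv Φ S p3 p1) = 1
      rw [inv_mul_cancel₀ a31, one_mul]
    · show 1 * ((fv Φ S p3 p5)⁻¹ * fv Φ S p3 p5) = 1
      rw [inv_mul_cancel₀ a35, one_mul]
    · show fv Φ S p3 p4 * (fv Φ S x p4)⁻¹ * ((fv Φ S p3 p2)⁻¹ * fv Φ S x p2) = 0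
      rw [zx2, mul_zero, mul_zero]
    · show fv Φ S p3 p4 * (fv Φ S x p4)⁻¹ * ((fv Φ S p3 p4)⁻¹ * fv Φ S x p4) = 1
      field_simp
    · rfl
    · show fv Φ S p3 p4 * (fv Φ S x p4)⁻¹ * ((fv Φ S p3 p5)⁻¹ * fv Φ S x p5) = 1
      have h1 : fv Φ S x p5 = fv Φ S p3 p5 * fv Φ S x p4 * (fv Φ S p3 p4)⁻¹ := by
        rw [← e2]
        field_simp
      rw [h1]
      field_simp
    · show fv Φ S p3 p2 * (fv Φ S y p2)⁻¹ * ((fv Φ S p3 p2)⁻¹ * fv Φ S y p2) = 1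
      field_simp
    · show fv Φ S p3 p2 * (fv Φ S y p2)⁻¹ * ((fv Φ S p3 p4)⁻¹ * fv Φ S y p4) = 0
      rw [zy4, mul_zero, mul_zero]
    · show fv Φ S p3 p2 * (fv Φ S y p2)⁻¹ * ((fv Φ S p3 p1)⁻¹ * fv Φ S y p1) = 1
      have h1 : fv Φ S y p1 = fv Φ S p3 p1 * fv Φ S y p2 * (fv Φ S p3 p2)⁻¹ := by
        rw [← e1]
        field_simp
      rw [h1]
      field_simp
    · rfl
    · show fv Φ S p3 p2 * (fv Φ S z p2)⁻¹ * ((fv Φ S p3 p2)⁻¹ * fv Φ S z p2) = 1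
      field_simp
    · rfl
    · rfl
    · rfl
  rw [hN] at h
  refine no44m h ?_ ?_ ?_ ?_ ?_ ?_ ?_ ?_
  · rw [hs]
    exact mul_ne_zero (mul_ne_zero a34 (inv_ne_zero ax4)) (mul_ne_zero (inv_ne_zero a31) ax1)
  · intro h0
    apply s1
    rw [hs] at h0
    field_simp at h0
    linear_combination h0
  · rw [ht]
    exact mul_ne_zero (mul_ne_zero a32 (inv_ne_zero ay2)) (mul_ne_zero (inv_ne_zero a35) ay5)
  · intro h0
    apply t1
    rw [ht] at h0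
    field_simp at h0
    linear_combination h0
  · intro h0
    apply st
    rw [hs, ht] at h0
    field_simp at h0
    have h1 : fv Φ S x p5 = fv Φ S p3 p5 * fv Φ S x p4 * (fv Φ S p3 p4)⁻¹ := by
      rw [← e2]
      field_simp
    have h2 : fv Φ S y p1 = fv Φ S p3 p1 * fv Φ S y p2 * (fv Φ S p3 p2)⁻¹ := by
      rw [← e1]
      field_simp
    rw [h1, h2]
    field_simp
    linear_combination h0
  · rw [hB]
    exact mul_ne_zero (mul_ne_zero a32 (inv_ne_zero az2)) (mul_ne_zero (inv_ne_zero a34) az4)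
  · intro h0
    apply c1
    rw [hC] at h0
    field_simp at h0
    linear_combination h0
  · intro h0
    apply fb
    rw [hF, hB] at h0
    field_simp at h0
    linear_combination h0

end Pool.Agent.QUD
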