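import Pool.Agent.QUD.RC
import Pool.Agent.QUD.Pth
import Pool.Agent.QUY.Min

/-!
# QUD/Four: no 2-uniform space of rank four on eight elements without triangles and triads has a minor `U_{3,5}`

`z` is the element which is contracted.  In the plane `L' = L / z`: five points in general position and two further elements `x, y`.
-/

set_option autoImplicit false

noncomputable section

open scoped Classical

namespace Pool.Agent.QUD

open Pool.Agent.FRM Pool.Agent.QUS Pool.Agent.QUE Pool.Agent.QUY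

def patS (p q : V3) : Bool :=
  arA.any fun a => arA.any fun b => decide (a ≠ b) && (Z a b p && Z a b q)

def patPh (x y : V3) : Bool :=
  arA.any fun a => arA.any fun b => Z b a x && (arA.any fun c => Z b c y && (arA.any fun d => Z d c x &&
    (arA.any fun e => Z d e y && ((!(Z c x y) && (!(Z b x y) && !(Z b c x))) && ((!(Z d x y) && (!(Z d c y) && !(Z a x y))) &&
      ((!(Z a c y) && (!(Z e x y) && !(Z e c x))) && (!(Z d a y) && (!(Z b e x) && !(Z a e c)))))))))

theorem ck44 : (ptsA.all fun p => ptsA.all fun q => (arA.contains p.1 || (arA.contains q.1 || decide (p = q))) || (!(Q2A p q) ||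
    (patS p.1 q.1 || (patPh p.1 q.1 || patPh q.1 p.1)))) = true := by
  decide +kernel

variable {E : Type} [Fintype E]

section

variable {L L' : Submodule F4 (E → F4)} {Φ : Submodule KU (E → KU)} {z : E}

/-- bases of the contraction -/
theorem b3_contr (hu : rk L Finset.univ = 4) (hu' : rk L' Finset.univ = 3) (hr : ∀ A, rk L' A = rk L (insert z A) - 1) {i j k : E} (hi : i ≠ z)
    (hj : j ≠ z) (hk : k ≠ z) : B3 L' i j k ↔ i ≠ j ∧ i ≠ k ∧ j ≠ k ∧ IsB L (insert z {i, j, k}) := by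
  have hc : ∀ (h1 : i ≠ j) (h2 : i ≠ k) (h3 : j ≠ k), ({i, j, k} : Finset E).card = 3 := fun h1 h2 h3 =>
    Finset.card_eq_three.2 ⟨i, j, k, h1, h2, h3, rfl⟩
  have hz : z ∉ ({i, j, k} : Finset E) := by
    simp only [Finset.mem_insert, Finset.mem_singleton, not_or]
    exact ⟨hi.symm, hj.symm, hk.symm⟩
  constructor
  · rintro ⟨h1, h2, h3, h4⟩
    refine ⟨h1, h2, h3, ?_⟩
    rw [isB_iff] at h4 ⊢
    rw [Finset.card_insert_of_notMem hz, hc h1 h2 h3] at *
    have h5 := hr {i, j, k}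
    constructor
    · push_cast at h4 ⊢
      omega
    · rw [hu]
      norm_num
  · rintro ⟨h1, h2, h3, h4⟩
    refine ⟨h1, h2, h3, ?_⟩
    rw [isB_iff] at h4 ⊢
    rw [Finset.card_insert_of_notMem hz] at h4
    rw [hc h1 h2 h3] at *
    have h5 := hr {i, j, k}
    constructor
    · push_cast at h4 ⊢
      omega
    · rw [hu']
      norm_num

/-- one exchange -/
theorem ent1 {S : Finset E} {k : E} (hB : ∀ S, IsB Φ S ↔ IsB L S)
    (hu : rk L Finset.univ = 4) (hu' : rk L' Finset.univ = 3) (hr : ∀ A, rk L' A = rk L (insert z A) - 1)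
    {i j q : E} (hS : IsB L S) (hSe : S = insert z {i, j, k}) (hi : i ≠ z) (hj : j ≠ z) (hk : k ≠ z) (hij : i ≠ j) (hik : i ≠ k) (hjk : j ≠ k)
    (hq : q ∉ S) : fv Φ S i q ≠ 0 ↔ B3 L' q j k := by
  have hiS : i ∈ S := by
    rw [hSe]
    simp
  have hq' : q ≠ z ∧ q ≠ i ∧ q ≠ j ∧ q ≠ k := by
    rw [hSe] at hq
    simpa only [Finset.mem_insert, Finset.mem_singleton, not_or] using hq
  rw [← isB_pv ((hB S).2 hS) hiS hq, hB, b3_contr hu hu' hr hq'.1 hj hk]
  have h1 : pv S i q = insert z {q, j, k} := by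
    ext t
    rw [mem_pv, hSe]
    simp only [Finset.mem_insert, Finset.mem_singleton]
    constructor
    · rintro (h | ⟨h1, h2 | h2 | h2 | h2⟩)
      · exact Or.inr (Or.inl h)
      · exact Or.inl h2
      · exact absurd h2 h1
      · exact Or.inr (Or.inr (Or.inl h2))
      · exact Or.inr (Or.inr (Or.inr h2))
    · rintro (h | h | h | h)
      · exact Or.inr ⟨fun h1 => hi (h1.symm.trans h), Or.inl h⟩
      · exact Or.inl h
      · exact Or.inr ⟨fun h1 => hij (h1.symm.trans h), Or.inr (Or.inr (Or.inl h))⟩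
      · exact Or.inr ⟨fun h1 => hik (h1.symm.trans h), Or.inr (Or.inr (Or.inr h))⟩
  rw [h1]
  exact ⟨fun h => ⟨hq'.2.2.1, hq'.2.2.2, hjk, h⟩, fun h => h.2.2.2⟩

/-- two exchanges -/
theorem ent2 {S : Finset E} {k : E} (hB : ∀ S, IsB Φ S ↔ IsB L S)
    (hu : rk L Finset.univ = 4) (hu' : rk L' Finset.univ = 3) (hr : ∀ A, rk L' A = rk L (insert z A) - 1)
    {i j q r : E} (hS : IsB L S) (hSe : S = insert z {i, j, k}) (hi : i ≠ z) (hj : j ≠ z) (hk : k ≠ z) (hij : i ≠ j) (hik : i ≠ k) (hjk : j ≠ k)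
    (hq : q ∉ S) (hr' : r ∉ S) (hqr : q ≠ r) : fv Φ S i q * fv Φ S j r ≠ fv Φ S i r * fv Φ S j q ↔ B3 L' q r k := by
  have hiS : i ∈ S := by
    rw [hSe]
    simp
  have hjS : j ∈ S := by
    rw [hSe]
    simp
  have hq' : q ≠ z ∧ q ≠ i ∧ q ≠ j ∧ q ≠ k := by
    rw [hSe] at hq
    simpa only [Finset.mem_insert, Finset.mem_singleton, not_or] using hq
  have hr'' : r ≠ z ∧ r ≠ i ∧ r ≠ j ∧ r ≠ k := by
    rw [hSe] at hr'
    simpa only [Finset.mem_insert, Finset.mem_singleton, not_or] using hr'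
  have h0 := det_ne_iff (R := S) (fun i j => fv Φ S i j) (m := 2) (f := ![i, j]) (g := ![q, r])
    (by intro t; fin_cases t <;> assumption) (by intro t; fin_cases t <;> assumption)
  rw [rowL_fv ((hB S).2 hS), hB] at h0
  have h1 : (Matrix.of fun k l : Fin 2 => fv Φ S (![i, j] k) (![q, r] l)).det = fv Φ S i q * fv Φ S j r - fv Φ S i r * fv Φ S j q := by
    rw [Matrix.det_fin_two]
    simp
  have h2 : (S \ Finset.univ.image ![i, j]) ∪ Finset.univ.image ![q, r] = insert z {q, r, k} := by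
    ext t
    simp only [Finset.mem_union, Finset.mem_sdiff, Finset.mem_image, Finset.mem_univ, true_and, Fin.exists_fin_two,
      Matrix.cons_val_zero, Matrix.cons_val_one, hSe, Finset.mem_insert, Finset.mem_singleton, not_or]
    constructor
    · rintro (⟨h1 | h1 | h1 | h1, h2, h3⟩ | h | h)
      · exact Or.inl h1
      · exact absurd h1.symm h2
      · exact absurd h1.symm h3
      · exact Or.inr (Or.inr (Or.inr h1))
      · exact Or.inr (Or.inl h.symm)
      · exact Or.inr (Or.inr (Or.inl h.symm))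
    · rintro (h | h | h | h)
      · exact Or.inl ⟨Or.inl h, fun h1 => hi (h1.trans h), fun h1 => hj (h1.trans h)⟩
      · exact Or.inr (Or.inl h.symm)
      · exact Or.inr (Or.inr h.symm)
      · exact Or.inl ⟨Or.inr (Or.inr (Or.inr h)), fun h1 => hik (h1.trans h), fun h1 => hjk (h1.trans h)⟩
  rw [h1, h2] at h0
  rw [← sub_ne_zero, h0, b3_contr hu hu' hr hq'.1 hr''.1 hk]
  have f1 : Function.Injective ![i, j] := by
    intro s t h
    fin_cases s <;> fin_cases t <;> first | rfl | exact absurd h hij | exact absurd h.symm hij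
  have f2 : Function.Injective ![q, r] := by
    intro s t h
    fin_cases s <;> fin_cases t <;> first | rfl | exact absurd h hqr | exact absurd h.symm hqr
  exact ⟨fun h => ⟨hqr, hq'.2.2.2, hr''.2.2.2, h.2.2⟩, fun h => ⟨f1, f2, h.2.2.2⟩⟩

/-- no triangles -/
theorem no_tri (hB : ∀ S, IsB Φ S ↔ IsB L S) {q i j : E} (h2 : rk L {i, j} = 2) (h3 : rk L {q, i, j} = 3)
    (h : ∀ v ∈ Φ, v i = 0 → v j = 0 → v q = 0) : False := by
  have h4 := rk_congr hB
  rw [← h4] at h2 h3
  have h5 : rk Φ (insert q {i, j}) = rk Φ {i, j} := by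
    unfold rk
    have h6 : Pool.Agent.QU.van Φ (insert q ({i, j} : Finset E)) = Pool.Agent.QU.van Φ {i, j} := by
      refine le_antisymm (fun v hv => ⟨hv.1, fun x hx => hv.2 x (Finset.mem_insert_of_mem hx)⟩) fun v hv => ⟨hv.1, fun x hx => ?_⟩
      rcases Finset.mem_insert.1 hx with rfl | hx
      · exact h v hv.1 (hv.2 i (by simp)) (hv.2 j (by simp))
      · exact hv.2 x hx
    rw [h6]
  omega

/-- expansion -/
theorem exp4 {S : Finset E} (hS : IsB Φ S) {i j k : E} (hSe : S = insert z {i, j, k}) (hi : i ≠ z) (hj : j ≠ z) (hk : k ≠ z) (hij : i ≠ j)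
    (hik : i ≠ k) (hjk : j ≠ k) {v : E → KU} (hv : v ∈ Φ) (q : E) :
    v q = v z * fv Φ S z q + v i * fv Φ S i q + v j * fv Φ S j q + v k * fv Φ S k q := by
  have h1 := congrFun (expand hS hv) q
  rw [Finset.sum_apply] at h1
  rw [h1]
  conv_lhs => rw [hSe]
  rw [Finset.sum_insert (by simp [hi.symm, hj.symm, hk.symm]), Finset.sum_insert (by simp [hij, hik]), Finset.sum_pair hjk, ← hSe]
  simp only [Pi.smul_apply, smul_eq_mul]
  ring

theorem b3_swap {K : Type} [Field K] {L : Submodule K (E → K)} {i j k : E} (h : B3 L i j k) : B3 L j i k :=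
  ⟨h.1.symm, h.2.2.1, h.2.1, by
    rw [Finset.insert_comm]
    exact h.2.2.2⟩

theorem b3_rot {K : Type} [Field K] {L : Submodule K (E → K)} {i j k : E} (h : B3 L i j k) : B3 L i k j :=
  ⟨h.2.1, h.1, h.2.2.1.symm, by
    rw [Finset.pair_comm]
    exact h.2.2.2⟩

theorem four_path (hB : ∀ S, IsB Φ S ↔ IsB L S)
    (hU : ∀ S, IsB Φ S → ∀ b ∈ S, ∀ e, e ∉ S → fv Φ S b e = 0 ∨ InG (fv Φ S b e))
    (hu : rk L Finset.univ = 4) (hu' : rk L' Finset.univ = 3) (hr : ∀ A, rk L' A = rk L (insert z A) - 1)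
    {G : Finset E} (h2 : ∀ x ∈ G, ∀ y ∈ G, x ≠ y → rk L {x, y} = 2)
    (h3 : ∀ x ∈ G, ∀ y ∈ G, ∀ w ∈ G, x ≠ y → x ≠ w → y ≠ w → rk L {x, y, w} = 3)
    {p1 p2 p3 p4 p5 x y : E} (g1 : p1 ∈ G) (g2 : p2 ∈ G) (g3 : p3 ∈ G) (g4 : p4 ∈ G) (g5 : p5 ∈ G) (gx : x ∈ G) (gy : y ∈ G)
    (z1 : p1 ≠ z) (z2 : p2 ≠ z) (z3 : p3 ≠ z) (z4 : p4 ≠ z) (z5 : p5 ≠ z) (zx : x ≠ z) (zy : y ≠ z)
    (k3xy : B3 L' p3 x y) (n23y : ¬ B3 L' p2 p3 y) (n43x : ¬ B3 L' p4 p3 x) (k2xy : B3 L' p2 x y) (k23x : B3 L' p2 p3 x)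
    (k4xy : B3 L' p4 x y) (k43y : B3 L' p4 p3 y) (k1xy : B3 L' p1 x y) (k13y : B3 L' p1 p3 y) (k5xy : B3 L' p5 x y)
    (k53x : B3 L' p5 p3 x) (n21x : ¬ B3 L' p2 p1 x) (n45y : ¬ B3 L' p4 p5 y) (k41y : B3 L' p4 p1 y) (k25x : B3 L' p2 p5 x)
    (k153 : B3 L' p1 p5 p3) : False := by
  obtain ⟨h3x, h3y, hxy, hSb⟩ := (b3_contr hu hu' hr z3 zx zy).1 k3xy
  set S : Finset E := insert z {p3, x, y} with hS
  have hSx : S = insert z {x, p3, y} := by
    rw [hS, Finset.insert_comm p3 x]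
  have hSy : S = insert z {y, p3, x} := by
    rw [hS, Finset.pair_comm x y, Finset.insert_comm p3 y]
  have out : ∀ {q : E}, q ≠ z → q ≠ p3 → q ≠ x → q ≠ y → q ∉ S := by
    intro q a b c d h
    rw [hS] at h
    simp only [Finset.mem_insert, Finset.mem_singleton] at h
    tauto
  have o2 : p2 ∉ S := out z2 k23x.1 k2xy.1 k2xy.2.1
  have o4 : p4 ∉ S := out z4 k43y.1 k4xy.1 k4xy.2.1
  have o1 : p1 ∉ S := out z1 k13y.1 k1xy.1 k1xy.2.1
  have o5 : p5 ∉ S := out z5 k53x.1 k5xy.1 k5xy.2.1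
  have m3 : p3 ∈ S := by
    rw [hS]
    simp
  have mx : x ∈ S := by
    rw [hS]
    simp
  have my : y ∈ S := by
    rw [hS]
    simp
  have mz : z ∈ S := by
    rw [hS]
    simp
  have r3 : ∀ {q : E}, q ∉ S → (fv Φ S p3 q ≠ 0 ↔ B3 L' q x y) := fun {q} hq => ent1 hB hu hu' hr hSb hS z3 zx zy h3x h3y hxy hq
  have rx : ∀ {q : E}, q ∉ S → (fv Φ S x q ≠ 0 ↔ B3 L' q p3 y) := fun {q} hq =>
    ent1 hB hu hu' hr hSb hSx zx z3 zy h3x.symm hxy h3y hq
  have ry : ∀ {q : E}, q ∉ S → (fv Φ S y q ≠ 0 ↔ B3 L' q p3 x) := fun {q} hq =>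
    ent1 hB hu hu' hr hSb hSy zy z3 zx h3y.symm hxy.symm h3x hq
  have r3y : ∀ {q r : E}, q ∉ S → r ∉ S → q ≠ r → (fv Φ S p3 q * fv Φ S y r ≠ fv Φ S p3 r * fv Φ S y q ↔ B3 L' q r x) :=
    fun {q r} hq hr' hqr => ent2 hB hu hu' hr hSb (by rw [hSy, Finset.insert_comm y p3]) z3 zy zx h3y h3x hxy.symm hq hr' hqr
  have r3x : ∀ {q r : E}, q ∉ S → r ∉ S → q ≠ r → (fv Φ S p3 q * fv Φ S x r ≠ fv Φ S p3 r * fv Φ S x q ↔ B3 L' q r y) :=
    fun {q r} hq hr' hqr => ent2 hB hu hu' hr hSb hS z3 zx zy h3x h3y hxy hq hr' hqr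
  have rxy : ∀ {q r : E}, q ∉ S → r ∉ S → q ≠ r → (fv Φ S x q * fv Φ S y r ≠ fv Φ S x r * fv Φ S y q ↔ B3 L' q r p3) :=
    fun {q r} hq hr' hqr => ent2 hB hu hu' hr hSb (by rw [hSx, Finset.pair_comm p3 y]) zx zy z3 hxy h3x.symm h3y.symm hq hr' hqr
  have zx2 : fv Φ S x p2 = 0 := by
    by_contra h
    exact n23y ((rx o2).1 h)
  have zy4 : fv Φ S y p4 = 0 := by
    by_contra h
    exact n43x ((ry o4).1 h)
  have hSΦ := (hB S).2 hSb
  have ex : ∀ {v : E → KU}, v ∈ Φ → ∀ q, v q = v z * fv Φ S z q + v p3 * fv Φ S p3 q + v x * fv Φ S x q + v y * fv Φ S y q :=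
    fun {v} hv q => exp4 hSΦ hS z3 zx zy h3x h3y hxy hv q
  have n21 : p2 ≠ p1 := by
    rintro rfl
    exact n23y (b3_swap (b3_swap k13y))
  have n45 : p4 ≠ p5 := by
    rintro rfl
    exact n43x k53x
  have e1 : fv Φ S p3 p2 * fv Φ S y p1 = fv Φ S p3 p1 * fv Φ S y p2 := by
    by_contra h
    exact n21x ((r3y o2 o1 n21).1 h)
  have e2 : fv Φ S p3 p4 * fv Φ S x p5 = fv Φ S p3 p5 * fv Φ S x p4 := by
    by_contra h
    exact n45y ((r3x o4 o5 n45).1 h)
  have a32 := (r3 o2).2 k2xy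
  have ay2 := (ry o2).2 k23x
  have a34 := (r3 o4).2 k4xy
  have ax4 := (rx o4).2 k43y
  have a31 := (r3 o1).2 k1xy
  have ax1 := (rx o1).2 k13y
  have a35 := (r3 o5).2 k5xy
  have ay5 := (ry o5).2 k53x
  have az2 : fv Φ S z p2 ≠ 0 := by
    intro h
    refine no_tri hB (h2 p3 g3 y gy h3y) (h3 p2 g2 p3 g3 y gy k23x.1 k2xy.2.1 h3y) fun v hv v3 vy => ?_
    rw [ex hv p2, h, v3, vy, zx2]
    ring
  have az4 : fv Φ S z p4 ≠ 0 := by
    intro h
    refine no_tri hB (h2 p3 g3 x gx h3x) (h3 p4 g4 p3 g3 x gx k43y.1 k4xy.1 h3x) fun v hv v3 vx => ?_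
    rw [ex hv p4, h, v3, vx, zy4]
    ring
  have c1 : fv Φ S p3 p2 * fv Φ S z p1 ≠ fv Φ S p3 p1 * fv Φ S z p2 := by
    intro h
    refine no_tri hB (h2 p2 g2 x gx k2xy.1) (h3 p1 g1 p2 g2 x gx n21.symm k1xy.1 k2xy.1) fun v hv v2 vx => ?_
    have w2 := ex hv p2
    have w1 := ex hv p1
    rw [v2, vx] at w2
    rw [vx] at w1
    have h4 : fv Φ S p3 p2 * v p1 = 0 := by
      rw [w1]
      linear_combination (v z) * h + (v y) * e1 - (fv Φ S p3 p1) * w2
    exact (mul_eq_zero.1 h4).resolve_left a32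
  have fb : fv Φ S p3 p4 * fv Φ S z p5 ≠ fv Φ S p3 p5 * fv Φ S z p4 := by
    intro h
    refine no_tri hB (h2 p4 g4 y gy k4xy.2.1) (h3 p5 g5 p4 g4 y gy n45.symm k5xy.2.1 k4xy.2.1) fun v hv v4 vy => ?_
    have w4 := ex hv p4
    have w5 := ex hv p5
    rw [v4, vy] at w4
    rw [vy] at w5
    have h4 : fv Φ S p3 p4 * v p5 = 0 := by
      rw [w5]
      linear_combination (v z) * h + (v x) * e2 - (fv Φ S p3 p5) * w4
    exact (mul_eq_zero.1 h4).resolve_left a34
  exact path44 hU hSΦ m3 mx my mz o2 o4 o1 o5 zx2 zy4 a32 ay2 az2 a34 ax4 az4 a31 ax1 a35 ay5 e1 e2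
    ((r3x o4 o1 k41y.1).2 k41y) ((r3y o2 o5 k25x.1).2 k25x) ((rxy o1 o5 k153.1).2 k153) c1 fb

end

private theorem arA_inj : (arA.all fun P => arA.all fun Q => f4L.all fun m => f4L.all fun n => decide (P = Q) || (decide (m = 0) ||
    !(decide (sm m P = sm n Q)))) = true := by
  decide +kernel

private theorem ptsA_ne : (ptsA.all fun p => decide (p.1 ≠ 0)) = true := by
  decide +kernel

private theorem arA_crs : (arA.all fun P => arA.all fun Q => decide (P = Q) || decide (crs P Q ≠ 0)) = true := by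
  decide +kernel

private theorem mem_f4L (x : F4) : x ∈ f4L := by
  cases x <;> decide

private theorem dt_crs (a b x : V3) : dot (crs a b) x = dt a b x := by
  simp only [dt, dot, crs]
  ring

private theorem dt_crs_l (a b : V3) : dot (crs a b) a = 0 := by
  have h : ∀ x : F4, x + x = 0 := by decide
  simp only [dot, crs]
  linear_combination (h (a.1 * (a.2.1 * b.2.2))) + (h (a.1 * (a.2.2 * b.2.1))) + (h (a.2.1 * (a.2.2 * b.1)))

private theorem dt_crs_r (a b : V3) : dot (crs a b) b = 0 := by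
  have h : ∀ x : F4, x + x = 0 := by decide
  simp only [dot, crs]
  linear_combination (h (b.1 * (a.2.1 * b.2.2))) + (h (b.1 * (a.2.2 * b.2.1))) + (h (b.2.1 * (b.2.2 * a.1)))

theorem four {L : Submodule F4 (E → F4)} (hL : Cls L) {z : E} {G : Finset E} (hG : G.card = 8) (hz : z ∈ G)
    (hu : rk L Finset.univ = 4) (hout : ∀ e, e ∉ G → rk L {e} = 0)
    (h2 : ∀ x ∈ G, ∀ y ∈ G, x ≠ y → rk L {x, y} = 2)
    (h3 : ∀ x ∈ G, ∀ y ∈ G, ∀ w ∈ G, x ≠ y → x ≠ w → y ≠ w → rk L {x, y, w} = 3)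
    (h5 : ∀ x ∈ G, ∀ y ∈ G, ∀ w ∈ G, x ≠ y → x ≠ w → y ≠ w → rk L (G \ {x, y, w}) = 4)
    {a b c d e : E} (az : a ≠ z) (bz : b ≠ z) (cz : c ≠ z) (dz : d ≠ z) (ez : e ≠ z)
    (ab : a ≠ b) (ac : a ≠ c) (ad : a ≠ d) (ae : a ≠ e) (bc : b ≠ c) (bd : b ≠ d) (be : b ≠ e) (cd : c ≠ d) (ce : c ≠ e) (de : d ≠ e)
    (hac : ∀ i ∈ ({a, b, c, d, e} : Finset E), ∀ j ∈ ({a, b, c, d, e} : Finset E), ∀ k ∈ ({a, b, c, d, e} : Finset E),
      i ≠ j → i ≠ k → j ≠ k → IsB L (insert z {i, j, k})) : False := by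
  have hz1 : rk L {z} = 1 := by
    obtain ⟨w, hw, hwz⟩ : ∃ w ∈ G, w ≠ z := Finset.exists_mem_ne (by omega) z
    have e1 := h2 w hw z hz hwz
    have e2 := (isRk L).unit {z} w
    have e3 := (isRk L).unit ∅ z
    have e4 := (isRk L).empty
    have e5 : insert z (∅ : Finset E) = {z} := rfl
    have e6 : insert w ({z} : Finset E) = {w, z} := rfl
    rw [e5] at e3
    rw [e6] at e2
    omega
  obtain ⟨L', hL', hr0, -⟩ := minor hL (p := (({z} : Finset E), Finset.univ)) (Finset.subset_univ _)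
  have hr : ∀ A, rk L' A = rk L (insert z A) - 1 := by
    intro A
    have h := hr0 A
    rw [Finset.inter_univ, hz1] at h
    rw [h, Finset.union_comm]
    rfl
  have hu' : rk L' Finset.univ = 3 := by
    rw [hr, Finset.insert_eq_of_mem (Finset.mem_univ z), hu]
    rfl
  obtain ⟨Φ, hB, hU⟩ := hL
  obtain ⟨Φ', hB', hU'⟩ := hL'
  have hb3 : ∀ {i j k : E}, i ∈ ({a, b, c, d, e} : Finset E) → j ∈ ({a, b, c, d, e} : Finset E) → k ∈ ({a, b, c, d, e} : Finset E) →
      i ≠ z → j ≠ z → k ≠ z → i ≠ j → i ≠ k → j ≠ k → B3 L' i j k := by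
    intro i j k hi hj hk iz jz kz ij ik jk
    exact (b3_contr hu hu' hr iz jz kz).2 ⟨ij, ik, jk, hac i hi j hj k hk ij ik jk⟩
  have ma : a ∈ ({a, b, c, d, e} : Finset E) := by simp
  have mb : b ∈ ({a, b, c, d, e} : Finset E) := by simp
  have mc : c ∈ ({a, b, c, d, e} : Finset E) := by simp
  have md : d ∈ ({a, b, c, d, e} : Finset E) := by simp
  have me : e ∈ ({a, b, c, d, e} : Finset E) := by simp
  have hAc : Ac L' a b c d e := ⟨hb3 ma mb mc az bz cz ab ac bc, hb3 ma mb md az bz dz ab ad bd, hb3 ma mc md az cz dz ac ad cd,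
    hb3 mb mc md bz cz dz bc bd cd, hb3 ma mb me az bz ez ab ae be, hb3 ma mc me az cz ez ac ae ce,
    hb3 mb mc me bz cz ez bc be ce, hb3 ma md me az dz ez ad ae de, hb3 mb md me bz dz ez bd be de,
    hb3 mc md me cz dz ez cd ce de⟩
  obtain ⟨F, hF, har⟩ := frame_of_ac hAc
  -- loops
  have hloop : ∀ i, rk L' {i} = 0 → F.vv i = 0 := by
    intro i hi
    have h : ∀ v ∈ L', v i = 0 := by
      intro v hv
      refine van_of_rk (A := ∅) (B := {i}) (Finset.empty_subset _) ?_ hv (fun e he => absurd he (Finset.notMem_empty e)) i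
        (Finset.mem_singleton_self i)
      rw [hi, (isRk L').empty]
    exact Prod.ext (h _ (F.hc 0)) (Prod.ext (h _ (F.hc 1)) (h _ (F.hc 2)))
  have hAtne : ∀ {i : E} {P : V3}, P ≠ 0 → At F i P → F.vv i ≠ 0 := by
    rintro i P hP ⟨m, hm, h⟩ h0
    rw [h] at h0
    apply hP
    have h1 : ∀ x : F4, m * x = 0 → x = 0 := fun x hx => (mul_eq_zero.1 hx).resolve_left hm
    have h2 := congrArg Prod.fst h0
    have h3 := congrArg (fun v : V3 => v.2.1) h0
    have h4 := congrArg (fun v : V3 => v.2.2) h0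
    exact Prod.ext (h1 _ h2) (Prod.ext (h1 _ h3) (h1 _ h4))
  have hzl : F.vv z = 0 := by
    refine hloop z ?_
    rw [hr, Finset.insert_eq_of_mem (Finset.mem_singleton_self z), hz1]
    rfl
  have hol : ∀ i, i ∉ G → F.vv i = 0 := by
    intro i hi
    refine hloop i ?_
    rw [hr]
    have e1 := (isRk L).unit {i} z
    have e2 := hout i hi
    have e3 := (isRk L).mono {z} (insert z {i}) (by simp)
    omega
  have har0 : ∀ P ∈ arA, P ≠ 0 := by decide
  have hAt : ∀ {i : E} {P : V3}, P ≠ 0 → At F i P → i ∈ G ∧ i ≠ z := by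
    intro i P hP h
    refine ⟨by_contra fun h1 => hAtne hP h (hol i h1), ?_⟩
    rintro rfl
    exact hAtne hP h hzl
  -- parallel elements
  have hpar : ∀ {i j : E} {P : V3}, P ≠ 0 → At F i P → At F j P → i = j := by
    rintro i j P hP hi hj
    by_contra hij
    obtain ⟨gi, iz⟩ := hAt hP hi
    obtain ⟨gj, jz⟩ := hAt hP hj
    have e1 := h3 z hz i gi j gj iz.symm jz.symm hij
    have e2 := h2 z hz i gi iz.symm
    have e3 := hr {i, j}
    have e4 := hr {i}
    have e5 : rk L' {i, j} = rk L' {i} := by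
      unfold rk
      have e6 : Pool.Agent.QU.van L' ({i, j} : Finset E) = Pool.Agent.QU.van L' {i} := by
        refine le_antisymm (fun v hv => ⟨hv.1, fun x hx => hv.2 x (by
          rw [Finset.mem_singleton.1 hx]
          exact Finset.mem_insert_self _ _)⟩) fun v hv => ⟨hv.1, fun x hx => ?_⟩
        rcases Finset.mem_insert.1 hx with rfl | hx
        · exact hv.2 x (Finset.mem_singleton_self x)
        · rw [Finset.mem_singleton.1 hx]
          have e7 := hv.2 i (Finset.mem_singleton_self i)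
          obtain ⟨m, hm, h⟩ := hi
          obtain ⟨n, hn, h'⟩ := hj
          rw [F.ev hv.1, h] at e7
          rw [F.ev hv.1, h']
          have e8 : ∀ (x v : V3) (a : F4), dot x (sm a v) = a * dot x v := by
            intro x v a
            simp only [dot, sm]
            ring
          rw [e8] at e7 ⊢
          rw [(mul_eq_zero.1 e7).resolve_left hm, mul_zero]
      rw [e6]
    have e9 : insert z ({i, j} : Finset E) = {z, i, j} := rfl
    have e10 : insert z ({i} : Finset E) = {z, i} := rfl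
    rw [e9, e1] at e3
    rw [e10, e2] at e4
    omega
  -- the five elements of the frame
  have : Nonempty E := ⟨z⟩
  have har' : ∀ P ∈ arA, ∃ x, At F x P := har
  choose! u hu5' using har'
  have uinj : ∀ P ∈ arA, ∀ Q ∈ arA, u P = u Q → P = Q := by
    intro P hP Q hQ h
    obtain ⟨m, hm, h1⟩ := hu5' P hP
    obtain ⟨n, hn, h2⟩ := hu5' Q hQ
    have h3 := List.all_eq_true.1 (List.all_eq_true.1 (List.all_eq_true.1 (List.all_eq_true.1 arA_inj P hP) Q hQ) m (mem_f4L m)) n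
      (mem_f4L n)
    rw [h, h2] at h1
    by_contra hne
    rw [decide_eq_false hne, decide_eq_false hm, decide_eq_true h1.symm] at h3
    exact Bool.noConfusion h3
  set U : Finset E := arA.toFinset.image u with hUd
  have hUc : U.card = 5 := by
    rw [hUd, Finset.card_image_of_injOn]
    · decide
    · intro P hP Q hQ h
      exact uinj P (List.mem_toFinset.1 hP) Q (List.mem_toFinset.1 hQ) h
  have hUm : ∀ {w : E}, w ∈ U ↔ ∃ P ∈ arA, u P = w := by
    intro w
    rw [hUd, Finset.mem_image]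
    simp only [List.mem_toFinset]
  have hUG : insert z U ⊆ G := by
    intro w hw
    rcases Finset.mem_insert.1 hw with rfl | hw
    · exact hz
    · obtain ⟨P, hP, rfl⟩ := hUm.1 hw
      exact (hAt (har0 P hP) (hu5' P hP)).1
  have hzU : z ∉ U := by
    intro h
    obtain ⟨P, hP, h1⟩ := hUm.1 h
    exact (hAt (har0 P hP) (hu5' P hP)).2 h1
  have hW : (G \ insert z U).card = 2 := by
    rw [Finset.card_sdiff_of_subset hUG, hG, Finset.card_insert_of_notMem hzU, hUc]
  obtain ⟨x, y, hxy, hWe⟩ := Finset.card_eq_two.1 hW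
  have hxW : x ∈ G \ insert z U := by
    rw [hWe]
    simp
  have hyW : y ∈ G \ insert z U := by
    rw [hWe]
    simp
  have hpt : ∀ i ∈ G \ insert z U, ∃ p ∈ ptsA, At F i p.1 ∧ p.1 ∉ arA ∧ i ∈ G ∧ i ≠ z := by
    intro i hi
    obtain ⟨hiG, hi2⟩ := Finset.mem_sdiff.1 hi
    rw [Finset.mem_insert, not_or] at hi2
    have hne : F.vv i ≠ 0 := by
      intro h0
      have e1 := hr {i}
      have e2 := h2 z hz i hiG (Ne.symm hi2.1)
      have e3 : insert z ({i} : Finset E) = {z, i} := rfl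
      rw [e3, e2] at e1
      have e4 : rk L' {i} = rk L' ∅ := by
        unfold rk
        have e6 : Pool.Agent.QU.van L' ({i} : Finset E) = Pool.Agent.QU.van L' ∅ := by
          refine le_antisymm (fun v hv => ⟨hv.1, fun x hx => absurd hx (Finset.notMem_empty x)⟩) fun v hv => ⟨hv.1, fun x hx => ?_⟩
          rw [Finset.mem_singleton.1 hx, F.ev hv.1, h0]
          simp [dot]
        rw [e6]
      rw [(isRk L').empty] at e4
      omega
    have h := List.all_eq_true.1 normA (F.vv i) (mem_allV _)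
    simp only [Bool.or_eq_true, decide_eq_true_eq, List.any_eq_true, Bool.and_eq_true] at h
    rcases h with h | ⟨m, -, hm, h⟩ | ⟨p, hp, m, -, hm, h⟩
    · exact absurd h hne
    · exact (no_hA hB' hU' hF har ⟨m, hm, h⟩).elim
    · refine ⟨p, hp, ⟨m, hm, h⟩, fun hpa => ?_, hiG, hi2.1⟩
      have h1 := hpar (har0 _ hpa) ⟨m, hm, h⟩ (hu5' _ hpa)
      exact hi2.2 (hUm.2 ⟨p.1, hpa, h1.symm⟩)
  obtain ⟨p, hp, hxp, hpa, gx, xz⟩ := hpt x hxW
  obtain ⟨q, hq, hyq, hqa, gy, yz⟩ := hpt y hyW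
  have hp0 : ∀ p ∈ ptsA, p.1 ≠ 0 := fun p hp => of_decide_eq_true (List.all_eq_true.1 ptsA_ne p hp)
  have hpq : p ≠ q := by
    intro h
    rw [← h] at hyq
    exact hxy (hpar (hp0 p hp) hxp hyq)
  have hQ : Q2A p q = true := by
    by_contra hno
    rw [Bool.not_eq_true] at hno
    have h := List.all_eq_true.1 (List.all_eq_true.1 ckH p hp) q hq
    rw [hno, decide_eq_false hpq, Bool.false_or, Bool.false_or] at h
    exact no_patH hB' hU' hF har hxp hyq h
  have hck := List.all_eq_true.1 (List.all_eq_true.1 ck44 p hp) q hq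
  have c1 : arA.contains p.1 = false := by
    rw [List.contains_eq_mem, decide_eq_false hpa]
  have c2 : arA.contains q.1 = false := by
    rw [List.contains_eq_mem, decide_eq_false hqa]
  rw [c1, c2, decide_eq_false hpq, hQ, Bool.false_or, Bool.false_or, Bool.not_true, Bool.false_or, Bool.false_or, Bool.or_eq_true,
    Bool.or_eq_true] at hck
  have hfin : ∀ {x y : E} {X Y : V3}, At F x X → At F y Y → x ∈ G → y ∈ G → x ≠ z → y ≠ z → patPh X Y = true → False := by
    intro x y X Y hx hy gx gy xz yz h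
    simp only [patPh, List.any_eq_true, Bool.and_eq_true, Bool.not_eq_true', Z_of, Z_of'] at h
    obtain ⟨a, ha, b, hb, w1, c, hc, w2, d, hd, w3, e, he, w4, ⟨n1, n2, n3⟩, ⟨n4, n5, n6⟩, ⟨n7, n8, n9⟩, n10, n11, n12⟩ := h
    have A := fun {x y z : E} {P Q R : V3} (hx : At F x P) (hy : At F y Q) (hz : At F z R) => b3_at hF hx hy hz
    have Ga := hAt (har0 a ha) (hu5' a ha)
    have Gb := hAt (har0 b hb) (hu5' b hb)
    have Gc := hAt (har0 c hc) (hu5' c hc)
    have Gd := hAt (har0 d hd) (hu5' d hd)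
    have Ge := hAt (har0 e he) (hu5' e he)
    have ta := hu5' a ha
    have tb := hu5' b hb
    have tc := hu5' c hc
    have td := hu5' d hd
    have te := hu5' e he
    exact four_path hB hU hu hu' hr h2 h3 Ga.1 Gb.1 Gc.1 Gd.1 Ge.1 gx gy Ga.2 Gb.2 Gc.2 Gd.2 Ge.2 xz yz
      ((A tc hx hy).2 n1) (fun h => (A tb tc hy).1 h w2) (fun h => (A td tc hx).1 h w3) ((A tb hx hy).2 n2)
      ((A tb tc hx).2 n3) ((A td hx hy).2 n4) ((A td tc hy).2 n5) ((A ta hx hy).2 n6) ((A ta tc hy).2 n7) ((A te hx hy).2 n8)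
      ((A te tc hx).2 n9) (fun h => (A tb ta hx).1 h w1) (fun h => (A td te hy).1 h w4) ((A td ta hy).2 n10) ((A tb te hx).2 n11)
      ((A ta te tc).2 n12)
  rcases hck with h | h | h
  · unfold patS at h
    rw [List.any_eq_true] at h
    obtain ⟨P, hP, h⟩ := h
    rw [List.any_eq_true] at h
    obtain ⟨Q, hQ, h⟩ := h
    rw [Bool.and_eq_true, Bool.and_eq_true, decide_eq_true_eq, Z_of', Z_of'] at h
    obtain ⟨hPQ, hPx, hPy⟩ := h
    have hcr : crs P Q ≠ 0 := by
      have h1 := List.all_eq_true.1 (List.all_eq_true.1 arA_crs P hP) Q hQ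
      rw [decide_eq_false hPQ, Bool.false_or, decide_eq_true_eq] at h1
      exact h1
    have hT : (U \ {u P, u Q}).card = 3 := by
      rw [Finset.card_sdiff_of_subset (by
        intro w hw
        rcases Finset.mem_insert.1 hw with rfl | hw
        · exact hUm.2 ⟨P, hP, rfl⟩
        · rw [Finset.mem_singleton.1 hw]
          exact hUm.2 ⟨Q, hQ, rfl⟩), hUc, Finset.card_pair fun h => hPQ (uinj P hP Q hQ h)]
    obtain ⟨i, j, k, hij, hik, hjk, hTe⟩ := Finset.card_eq_three.1 hT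
    have hin : ∀ w ∈ ({i, j, k} : Finset E), w ∈ G := by
      intro w hw
      rw [← hTe] at hw
      exact hUG (Finset.mem_insert_of_mem (Finset.mem_sdiff.1 hw).1)
    have h6 := h5 i (hin i (by simp)) j (hin j (by simp)) k (hin k (by simp)) hij hik hjk
    rw [← hTe] at h6
    have hzA : z ∈ G \ (U \ {u P, u Q}) := Finset.mem_sdiff.2 ⟨hz, fun h => hzU (Finset.mem_sdiff.1 h).1⟩
    have h7 := hr (G \ (U \ {u P, u Q}))
    rw [Finset.insert_eq_of_mem hzA, h6] at h7
    -- the vector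
    have hdot : ∀ {w : E} {R : V3}, At F w R → dot (crs P Q) R = 0 → F.cx (crs P Q) w = 0 := by
      rintro w R ⟨m, hm, h⟩ h0
      show dot (crs P Q) (F.vv w) = 0
      rw [h]
      have e8 : dot (crs P Q) (sm m R) = m * dot (crs P Q) R := by
        simp only [dot, sm]
        ring
      rw [e8, h0, mul_zero]
    have hv : F.cx (crs P Q) ∈ Pool.Agent.QU.van L' (G \ (U \ {u P, u Q})) := by
      refine ⟨F.cx_mem _, fun w hw => ?_⟩
      obtain ⟨hwG, hwT⟩ := Finset.mem_sdiff.1 hw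
      by_cases hwz : w = z
      · show dot (crs P Q) (F.vv w) = 0
        rw [hwz, hzl]
        simp [dot]
      · by_cases hwU : w ∈ U
        · have h8 : w ∈ ({u P, u Q} : Finset E) := by
            by_contra h8
            exact hwT (Finset.mem_sdiff.2 ⟨hwU, h8⟩)
          rcases Finset.mem_insert.1 h8 with rfl | h8
          · exact hdot (hu5' P hP) (dt_crs_l P Q)
          · rw [Finset.mem_singleton.1 h8]
            exact hdot (hu5' Q hQ) (dt_crs_r P Q)
        · have h8 : w ∈ G \ insert z U := Finset.mem_sdiff.2 ⟨hwG, fun h => by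
            rcases Finset.mem_insert.1 h with h | h
            · exact hwz h
            · exact hwU h⟩
          rw [hWe] at h8
          rcases Finset.mem_insert.1 h8 with rfl | h8
          · exact hdot hxp (by rw [dt_crs]; exact hPx)
          · rw [Finset.mem_singleton.1 h8]
            exact hdot hyq (by rw [dt_crs]; exact hPy)
    have hv0 : F.cx (crs P Q) ≠ 0 := fun h => hcr (Fr.eq_zero hF h)
    have h9 : 0 < Module.finrank F4 (Pool.Agent.QU.van L' (G \ (U \ {u P, u Q}))) := by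
      rw [Module.finrank_pos_iff]
      exact ⟨⟨⟨_, hv⟩, 0, fun h => hv0 (congrArg Subtype.val h)⟩⟩
    have h10 := rk_univ L'
    unfold rk at h7 hu' h10
    have h11 : Module.finrank F4 (Pool.Agent.QU.van L' (Finset.univ : Finset E)) = 0 := by omega
    omega
  · exact hfin hxp hyq gx gy xz yz h
  · exact hfin hyq hxp gy gx yz xz h

end Pool.Agent.QUD
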