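import Pool.Agent.QUE.Tp

/-!
# QUD/Fr: explicit forms on spaces of rank at most three

A frame of `L`: three vectors `c₁, c₂, c₃` of `L` and linear functionals `ξ₁, ξ₂, ξ₃` with `v = ∑ ξᵢ(v) cᵢ` on `L`.  The element `e` has the point `vv e = (c₁ e, c₂ e, c₃ e)`.
For `τ : E → V3` the form `T(c, d) = ∑ d e * (ξ(c) · τ e)`.  `T_inV`: `T` is in `V`.  `T_nd`: `T` is not diagonal on a box.
-/

set_option autoImplicit false

noncomputable section

open scoped Classical

namespace Pool.Agent.QUD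

open Pool.Agent.FRM Pool.Agent.QUE
open Pool.Agent.QU (Fm van spt dg EqOn EqD InV Itv)

abbrev V3 := F4 × F4 × F4

def dot (x v : V3) : F4 := x.1 * v.1 + x.2.1 * v.2.1 + x.2.2 * v.2.2

def sqv (v : V3) : V3 := (v.1 * v.1, v.2.1 * v.2.1, v.2.2 * v.2.2)

def sm (l : F4) (v : V3) : V3 := (l * v.1, l * v.2.1, l * v.2.2)

def crs (u v : V3) : V3 := (u.2.1 * v.2.2 + u.2.2 * v.2.1, u.2.2 * v.1 + u.1 * v.2.2, u.1 * v.2.1 + u.2.1 * v.1)

/-- the determinant -/
def dt (u v w : V3) : F4 := dot u (crs v w)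

def cp : Fin 3 → V3 → F4
  | 0, v => v.1
  | 1, v => v.2.1
  | 2, v => v.2.2

theorem dot_cp (x v : V3) : dot x v = ∑ i, cp i x * cp i v := by
  rw [Fin.sum_univ_three]
  rfl

theorem V3_ext {x y : V3} (h : ∀ i, cp i x = cp i y) : x = y :=
  Prod.ext (h 0) (Prod.ext (h 1) (h 2))

/-- vectors which span `z ^ ⊥` -/
def xb (z : V3) : Fin 3 → V3
  | 0 => if z.1 = 0 then (1, 0, 0) else (0, 0, 0)
  | 1 => if z.1 = 0 then (if z.2.1 = 0 then (0, 1, 0) else (0, 0, 0)) else (z.2.1 * z.1 ^ 2, 1, 0)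
  | 2 => if z.1 = 0 then (if z.2.1 = 0 then (if z.2.2 = 0 then (0, 0, 1) else (0, 0, 0)) else (0, z.2.2 * z.2.1 ^ 2, 1)) else
      (z.2.2 * z.1 ^ 2, 0, 1)

private theorem f3 : ∀ x : F4, x ≠ 0 → x ^ 3 = 1 := by decide

private theorem f2 : ∀ x : F4, x + x = 0 := by decide

theorem xb_z (z : V3) (j : Fin 3) : dot (xb z j) z = 0 := by
  obtain ⟨a, b, c⟩ := z
  fin_cases j <;> simp only [xb, dot] <;> split_ifs <;> simp_all <;>
  · have h : ∀ x y : F4, x ≠ 0 → y * x ^ 2 * x + y = 0 := by decide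
    exact h _ _ (by assumption)

theorem xb_span (z : V3) {x : V3} (h : dot x z = 0) (v : V3) : dot x v = ∑ j, cp j x * dot (xb z j) v := by
  obtain ⟨a, b, c⟩ := z
  obtain ⟨x, y, t⟩ := x
  obtain ⟨p, q, r⟩ := v
  rw [Fin.sum_univ_three]
  simp only [xb, dot, cp] at *
  have k : ∀ a b c x y t : F4, a ≠ 0 → x * a + y * b + t * c = 0 → x = y * (b * a ^ 2) + t * (c * a ^ 2) := by decide
  have k2 : ∀ b c y t : F4, b ≠ 0 → y * b + t * c = 0 → y = t * (c * b ^ 2) := by decide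
  have k3 : ∀ c t : F4, c ≠ 0 → t * c = 0 → t = 0 := by decide
  split_ifs with h1 h2 h3
  · subst h1 h2 h3
    ring
  · subst h1 h2
    have := k3 c t h3 (by simpa using h)
    subst this
    ring
  · subst h1
    have := k2 b c y t h2 (by simpa using h)
    rw [this]
    ring
  · have := k a b c x y t h1 h
    rw [this]
    ring

variable {E : Type} [Fintype E]

structure Fr (L : Submodule F4 (E → F4)) where
  c : Fin 3 → E → F4
  hc : ∀ i, c i ∈ L
  x : Fin 3 → (E → F4) →ₗ[F4] F4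
  hx : ∀ v ∈ L, ∀ e, v e = ∑ i, x i v * c i e

variable {L : Submodule F4 (E → F4)}

namespace Fr

variable (F : Fr L)

/-- the point of `e` -/
def vv (e : E) : V3 := (F.c 0 e, F.c 1 e, F.c 2 e)

/-- the coordinates of a vector -/
def xi (v : E → F4) : V3 := (F.x 0 v, F.x 1 v, F.x 2 v)

def cx (x : V3) : E → F4 := fun e => dot x (F.vv e)

omit [Fintype E] in
theorem cp_vv (i : Fin 3) (e : E) : cp i (F.vv e) = F.c i e := by
  fin_cases i <;> rfl

omit [Fintype E] in
theorem cp_xi (i : Fin 3) (v : E → F4) : cp i (F.xi v) = F.x i v := by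
  fin_cases i <;> rfl

omit [Fintype E] in
theorem ev {v : E → F4} (hv : v ∈ L) (e : E) : v e = dot (F.xi v) (F.vv e) := by
  rw [F.hx v hv e, dot_cp]
  exact Finset.sum_congr rfl fun i _ => by rw [cp_vv, cp_xi]

omit [Fintype E] in
theorem cx_mem (x : V3) : F.cx x ∈ L := by
  have h : F.cx x = ∑ i, cp i x • F.c i := by
    funext e
    rw [Finset.sum_apply, cx, dot_cp]
    exact Finset.sum_congr rfl fun i _ => by rw [cp_vv, Pi.smul_apply, smul_eq_mul]
  rw [h]
  exact L.sum_mem fun i _ => L.smul_mem _ (F.hc i)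

/-- the form -/
def T (τ : E → V3) : Fm F4 E :=
  LinearMap.mk₂ F4 (fun c d => ∑ e, d e * ∑ i, F.x i c * cp i (τ e))
    (fun c c' d => by
      rw [← Finset.sum_add_distrib]
      refine Finset.sum_congr rfl fun e _ => ?_
      rw [← mul_add, ← Finset.sum_add_distrib]
      congr 1
      exact Finset.sum_congr rfl fun i _ => by rw [map_add, add_mul])
    (fun k c d => by
      rw [smul_eq_mul, Finset.mul_sum]
      refine Finset.sum_congr rfl fun e _ => ?_
      have h : ∑ i, F.x i (k • c) * cp i (τ e) = k * ∑ i, F.x i c * cp i (τ e) := by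
        rw [Finset.mul_sum]
        exact Finset.sum_congr rfl fun i _ => by rw [map_smul, smul_eq_mul, mul_assoc]
      rw [h, mul_left_comm])
    (fun c d d' => by
      rw [← Finset.sum_add_distrib]
      exact Finset.sum_congr rfl fun e _ => by rw [Pi.add_apply, add_mul])
    (fun k c d => by
      rw [smul_eq_mul, Finset.mul_sum]
      exact Finset.sum_congr rfl fun e _ => by rw [Pi.smul_apply, smul_eq_mul, mul_assoc])

theorem T_apply (τ : E → V3) (c d : E → F4) : F.T τ c d = ∑ e, d e * dot (F.xi c) (τ e) := by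
  show ∑ e, d e * ∑ i, F.x i c * cp i (τ e) = _
  refine Finset.sum_congr rfl fun e _ => ?_
  rw [dot_cp]
  congr 1

theorem T_inV {τ : E → V3} (h : ∀ x : V3, ∃ w : V3, ∀ e, dot x (F.vv e) = 0 → dot x (τ e) = dot w (sqv (F.vv e)))
    (p : Itv E) : InV L (WW L) p (F.T τ) := by
  intro c hc d hd h0
  obtain ⟨w, hw⟩ := h (F.xi c)
  rw [T_apply]
  have h1 : ∀ e, d e * dot (F.xi c) (τ e) = ∑ i, cp i w * ((F.c i e) ^ 2 * d e) := by
    intro e
    by_cases hce : c e = 0
    · rw [hw e (by rw [← F.ev hc.1 e, hce]), dot_cp, Finset.mul_sum]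
      refine Finset.sum_congr rfl fun i _ => ?_
      have h2 : cp i (sqv (F.vv e)) = F.c i e ^ 2 := by
        fin_cases i <;> exact (sq _).symm
      rw [h2]
      ring
    · have h2 : d e = 0 := (mul_eq_zero.1 (h0 e)).resolve_left hce
      rw [h2, zero_mul]
      exact (Finset.sum_eq_zero fun i _ => by rw [mul_zero, mul_zero]).symm
  rw [Finset.sum_congr rfl fun e _ => h1 e, Finset.sum_comm]
  refine Finset.sum_eq_zero fun i _ => ?_
  rw [← Finset.mul_sum, hd.1 (fun e => F.c i e ^ 2) ⟨F.c i, F.hc i, fun _ => rfl⟩, mul_zero]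

theorem T_nd {τ : E → V3} (hτ : ∀ x e, dot (F.xi (F.cx x)) (τ e) = dot x (τ e)) {q : Itv E} {z : V3}
    (hz : ∀ e ∈ q.1, ∃ μ, F.vv e = sm μ z) {φ : E → V3} (h1 : ∀ e, e ∉ q.2 → φ e = 0) (h2 : ∀ e, dot (φ e) z = 0)
    (h3 : ∀ e, dot (φ e) (F.vv e) = 0) (h4 : ∀ i j, ∑ e, cp i (φ e) * cp j (sqv (F.vv e)) = 0)
    (h5 : ∑ e, dot (φ e) (τ e) ≠ 0) : ¬ EqD L (WW L) q (F.T τ) 0 := by
  rintro ⟨l, hl⟩
  apply h5
  have hsm : ∀ (x v : V3) (μ : F4), dot x (sm μ v) = μ * dot x v := by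
    intro x v μ
    simp only [dot, sm]
    ring
  have hc : ∀ j, F.cx (xb z j) ∈ van L q.1 := by
    intro j
    refine ⟨F.cx_mem _, fun e he => ?_⟩
    obtain ⟨μ, hμ⟩ := hz e he
    show dot (xb z j) (F.vv e) = 0
    rw [hμ, hsm, xb_z, mul_zero]
  have hd : ∀ j, (fun e => cp j (φ e)) ∈ spt (WW L) q.2 := by
    intro j
    refine ⟨?_, fun e he => ?_⟩
    · rintro u ⟨v, hv, hu⟩
      have e1 : ∀ e, u e * cp j (φ e) = ∑ i, cp i (F.xi v) ^ 2 * (cp j (φ e) * cp i (sqv (F.vv e))) := by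
        intro e
        have e2 : u e = ∑ i, cp i (F.xi v) ^ 2 * cp i (sqv (F.vv e)) := by
          rw [hu e, F.ev hv e, Fin.sum_univ_three]
          simp only [dot, sqv, cp]
          rw [F4.add_sq, F4.add_sq]
          ring
        rw [e2, Finset.sum_mul]
        exact Finset.sum_congr rfl fun i _ => by ring
      rw [Finset.sum_congr rfl fun e _ => e1 e, Finset.sum_comm]
      exact Finset.sum_eq_zero fun i _ => by rw [← Finset.mul_sum, h4 j i, mul_zero]
    · show cp j (φ e) = 0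
      rw [h1 e he]
      fin_cases j <;> rfl
  have h6 : ∀ j, ∑ e, cp j (φ e) * dot (xb z j) (τ e) = ∑ e, l e * (dot (xb z j) (F.vv e) * cp j (φ e)) := by
    intro j
    have h7 := hl _ (hc j) _ (hd j)
    rw [T_apply, LinearMap.add_apply, LinearMap.add_apply, LinearMap.zero_apply, LinearMap.zero_apply, zero_add,
      Pool.Agent.QU.dg_apply] at h7
    rw [← show ∑ x, l x * (F.cx (xb z j) x * cp j (φ x)) = ∑ e, l e * (dot (xb z j) (F.vv e) * cp j (φ e)) from rfl, ← h7]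
    exact Finset.sum_congr rfl fun e _ => by rw [hτ]
  have h8 : ∀ e, dot (φ e) (τ e) = ∑ j, cp j (φ e) * dot (xb z j) (τ e) := fun e => xb_span z (h2 e) _
  have h9 : ∀ e, dot (φ e) (F.vv e) = ∑ j, cp j (φ e) * dot (xb z j) (F.vv e) := fun e => xb_span z (h2 e) _
  rw [Finset.sum_congr rfl fun e _ => h8 e, Finset.sum_comm, Finset.sum_congr rfl fun j _ => h6 j, Finset.sum_comm]
  refine Finset.sum_eq_zero fun e _ => ?_
  have h10 : ∑ j, l e * (dot (xb z j) (F.vv e) * cp j (φ e)) = l e * dot (φ e) (F.vv e) := by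
    rw [h9, Finset.mul_sum]
    exact Finset.sum_congr rfl fun j _ => by ring
  rw [h10, h3, mul_zero]

end Fr

end Pool.Agent.QUD
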