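import Pool.Agent.QUD.Fb
import Pool.Agent.QUE.Rc

/-!
# QUD/Geo: rich spaces of rank three without five points in general position are covered by two lines

Points `vv e` of `PG(2, 4)` (frames of `Fb`, `Fr.b3_iff`).  `block_of_rich`: the second case gives five points in general position, excluded by `hno`; so there is a basis
`{z, a, b}` and `c, e, f` such that the lines from `z` to `a, b, c, e, f` are different: `z = (0,0,1)`, `a = (1,0,0)`, `b = (0,1,0)` and three points `(1,1,t₃)`, `(1,w,t₄)`, `(1,w²,t₅)`.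
Finite checks: `geoA` (64 configurations: five points in general position among the six, or all the `t` are zero, or there are two lines such that every further point is on one of
them or produces five points in general position), `geoB` (all the `t` are zero: every point off the line `v₃ = 0` is on the line `z n`, `n` another point off this line).
-/

set_option autoImplicit false

noncomputable section

open scoped Classical

namespace Pool.Agent.QUD

open Pool.Agent.FRM Pool.Agent.QUS Pool.Agent.QUE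
open Pool.Agent.QU (Rich)

variable {E : Type} [Fintype E] {L : Submodule F4 (E → F4)}

/-- no three of the five points are collinear -/
def Ac (L : Submodule F4 (E → F4)) (a b c d e : E) : Prop :=
  B3 L a b c ∧ B3 L a b d ∧ B3 L a c d ∧ B3 L b c d ∧ B3 L a b e ∧ B3 L a c e ∧ B3 L b c e ∧ B3 L a d e ∧ B3 L b d e ∧ B3 L c d e

/-! ### the search for five points in general position -/

private def geoNz : F4 → Bool
  | F4.o => false
  | F4.i => true
  | F4.w => true
  | F4.u => true

private theorem geoNz_iff : ∀ x : F4, geoNz x = true ↔ x ≠ 0 := by decide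

private def geoOk1 (x u : V3) (m : List V3) : Bool := m.all fun v => geoNz (dt x u v)

private def geoOk (x : V3) : List V3 → Bool
  | [] => true
  | u :: m => geoOk1 x u m && geoOk x m

private def geoExt : ℕ → List V3 → List V3 → Bool
  | 0, _, _ => true
  | _ + 1, _, [] => false
  | n + 1, acc, x :: xs => (geoOk x acc && geoExt n (x :: acc) xs) || geoExt (n + 1) acc xs

private def geoT : List V3 → Prop
  | [] => True
  | x :: m => geoOk x m = true ∧ geoT m

private theorem geoExt_sound (P : V3 → Prop) (n : ℕ) (acc xs : List V3) (h : geoExt n acc xs = true) (hT : geoT acc)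
    (ha : ∀ p ∈ acc, P p) (hx : ∀ p ∈ xs, P p) : ∃ m : List V3, m.length = acc.length + n ∧ geoT m ∧ ∀ p ∈ m, P p := by
  induction xs generalizing n acc with
  | nil =>
    cases n with
    | zero => exact ⟨acc, rfl, hT, ha⟩
    | succ n => exact absurd h Bool.false_ne_true
  | cons x xs ih =>
    cases n with
    | zero => exact ⟨acc, rfl, hT, ha⟩
    | succ n =>
      rw [geoExt, Bool.or_eq_true, Bool.and_eq_true] at h
      rcases h with ⟨h1, h2⟩ | h
      · obtain ⟨m, hm1, hm2, hm3⟩ := ih n (x :: acc) h2 ⟨h1, hT⟩ (by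
          intro p hp
          rcases List.mem_cons.1 hp with rfl | hp
          · exact hx _ (List.mem_cons_self ..)
          · exact ha p hp) fun p hp => hx p (List.mem_cons_of_mem _ hp)
        refine ⟨m, ?_, hm2, hm3⟩
        rw [hm1, List.length_cons]
        omega
      · exact ih (n + 1) acc h hT ha fun p hp => hx p (List.mem_cons_of_mem _ hp)

private def geoAll (f : F4 → Bool) : Bool := f F4.o && (f F4.i && (f F4.w && f F4.u))

private theorem geoAll_iff {f : F4 → Bool} (h : geoAll f = true) (x : F4) : f x = true := by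
  unfold geoAll at h
  rw [Bool.and_eq_true, Bool.and_eq_true, Bool.and_eq_true] at h
  cases x
  · exact h.1
  · exact h.2.1
  · exact h.2.2.1
  · exact h.2.2.2

private def geoBase (r s t : F4) : List V3 :=
  [(F4.o, F4.o, F4.i), (F4.i, F4.o, F4.o), (F4.o, F4.i, F4.o), (F4.i, F4.i, r), (F4.i, F4.w, s), (F4.i, F4.u, t)]

private def geoLines : List V3 :=
  [(F4.o, F4.o, F4.i), (F4.o, F4.i, F4.i), (F4.o, F4.w, F4.i), (F4.o, F4.u, F4.i), (F4.i, F4.o, F4.i), (F4.w, F4.o, F4.i),
    (F4.u, F4.o, F4.i)]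

private def geoChk (u v : V3) (B : List V3) : Bool :=
  geoAll fun a => geoAll fun b => geoAll fun c =>
    !geoNz (dot u (a, b, c)) || (!geoNz (dot v (a, b, c)) || geoExt 5 [] ((a, b, c) :: B))

private def geoInd (u v : V3) : Bool := geoNz (crs u v).1 || (geoNz (crs u v).2.1 || geoNz (crs u v).2.2)

private def geoCfg (r s t : F4) : Bool :=
  geoExt 5 [] (geoBase r s t) || ((!geoNz r && (!geoNz s && !geoNz t)) ||
    (geoLines.any fun u => (geoBase r s t).any fun n => geoInd u (crs (F4.o, F4.o, F4.i) n) &&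
      geoChk u (crs (F4.o, F4.o, F4.i) n) (geoBase r s t)))

private theorem geoA : (geoAll fun r => geoAll fun s => geoAll fun t => geoCfg r s t) = true := by
  decide +kernel

private theorem geoB : (geoAll fun x => geoAll fun y => !(geoNz x || geoNz y) || (geoAll fun a => geoAll fun b => geoAll fun c =>
    !geoNz c || (!geoNz (dot (y, x, F4.o) (a, b, c)) ||
      geoExt 5 [] ((x, y, F4.i) :: (a, b, c) :: geoBase F4.o F4.o F4.o)))) = true := by
  decide +kernel

/-! ### points of the space -/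

private def geoP (F : Fr L) (p : V3) : Prop := ∃ x : E, ∃ l : F4, l ≠ 0 ∧ F.vv x = sm l p

omit [Fintype E] in
private theorem geoP_vv (F : Fr L) (x : E) : geoP F (F.vv x) := by
  refine ⟨x, 1, one_ne_zero, ?_⟩
  simp [sm]

omit [Fintype E] in
private theorem geoP_sm {F : Fr L} {p : V3} (h : geoP F p) {k : F4} (hk : k ≠ 0) : geoP F (sm k p) := by
  obtain ⟨x, l, hl, hx⟩ := h
  refine ⟨x, l * k⁻¹, mul_ne_zero hl (inv_ne_zero hk), ?_⟩
  rw [hx]
  have h1 : ∀ y : F4, l * k⁻¹ * (k * y) = l * y := by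
    intro y
    rw [mul_assoc, inv_mul_cancel_left₀ hk]
  simp only [sm, h1]

private theorem geo_dt (l m n : F4) (p q r : V3) : dt (sm l p) (sm m q) (sm n r) = l * m * n * dt p q r := by
  simp only [dt, dot, crs, sm]
  ring

private theorem geo_no {F : Fr L} (hF : F.Full) (hno : ¬ ∃ a b c d e, Ac L a b c d e) {B : List V3} (hB : ∀ p ∈ B, geoP F p)
    (h : geoExt 5 [] B = true) : False := by
  obtain ⟨m, hm, hT, hP⟩ := geoExt_sound (geoP F) 5 [] B h trivial (by simp) hB
  have hm' : m.length = 5 := by simpa using hm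
  obtain ⟨a, b, c, d, e, rfl⟩ : ∃ a b c d e, m = [a, b, c, d, e] := by
    rcases m with _ | ⟨a, _ | ⟨b, _ | ⟨c, _ | ⟨d, _ | ⟨e, _ | ⟨f, m⟩⟩⟩⟩⟩⟩
    all_goals first
      | exact ⟨a, b, c, d, e, rfl⟩
      | (simp only [List.length_cons, List.length_nil] at hm'; omega)
  simp only [geoT, geoOk, geoOk1, List.all_cons, List.all_nil, Bool.and_eq_true, Bool.and_true, geoNz_iff, and_true] at hT
  obtain ⟨⟨⟨h1, h2, h3⟩, ⟨h4, h5⟩, h6⟩, ⟨⟨h7, h8⟩, h9⟩, h10⟩ := hT
  obtain ⟨xa, la, na, ea⟩ := hP a (by simp)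
  obtain ⟨xb, lb, nb, eb⟩ := hP b (by simp)
  obtain ⟨xc, lc, nc, ec⟩ := hP c (by simp)
  obtain ⟨xd, ld, nd, ed⟩ := hP d (by simp)
  obtain ⟨xe, le, ne, ee⟩ := hP e (by simp)
  have key : ∀ {x y z : E} {l m n : F4} {p q r : V3}, l ≠ 0 → m ≠ 0 → n ≠ 0 → F.vv x = sm l p → F.vv y = sm m q →
      F.vv z = sm n r → dt p q r ≠ 0 → B3 L x y z := by
    intro x y z l m n p q r hl hm hn h1 h2 h3 h4
    rw [Fr.b3_iff hF, h1, h2, h3, geo_dt]
    exact mul_ne_zero (mul_ne_zero (mul_ne_zero hl hm) hn) h4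
  exact hno ⟨xa, xb, xc, xd, xe, key na nb nc ea eb ec h1, key na nb nd ea eb ed h2, key na nc nd ea ec ed h4,
    key nb nc nd eb ec ed h7, key na nb ne ea eb ee h3, key na nc ne ea ec ee h5, key nb nc ne eb ec ee h8,
    key na nd ne ea ed ee h6, key nb nd ne eb ed ee h9, key nc nd ne ec ed ee h10⟩

/-- two lines -/
private theorem geo_lines {F : Fr L} (hF : F.Full) {u v : V3} (h : geoInd u v = true)
    (hc : ∀ e, dot u (F.vv e) = 0 ∨ dot v (F.vv e) = 0) : ∃ F' : Fr L, F'.Full ∧ ∀ e, F'.c 1 e = 0 ∨ F'.c 2 e = 0 := by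
  have h1 : ∃ w : V3, dt w u v ≠ 0 := by
    unfold geoInd at h
    rw [Bool.or_eq_true, Bool.or_eq_true, geoNz_iff, geoNz_iff, geoNz_iff] at h
    rcases h with h | h | h
    · exact ⟨(1, 0, 0), by simpa [dt, dot] using h⟩
    · exact ⟨(0, 1, 0), by simpa [dt, dot] using h⟩
    · exact ⟨(0, 0, 1), by simpa [dt, dot] using h⟩
  obtain ⟨w, hw⟩ := h1
  obtain ⟨F', hF', hv⟩ := Fr.change hF hw
  refine ⟨F', hF', fun e => ?_⟩
  have h2 := hv e
  have h3 : F'.c 1 e = dot u (F.vv e) := congrArg (fun x : V3 => x.2.1) h2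
  have h4 : F'.c 2 e = dot v (F.vv e) := congrArg (fun x : V3 => x.2.2) h2
  rw [h3, h4]
  exact hc e

private theorem geo_core {F : Fr L} (hF : F.Full) (hno : ¬ ∃ a b c d e, Ac L a b c d e) (hz : geoP F (0, 0, 1))
    (ha : geoP F (1, 0, 0)) (hb : geoP F (0, 1, 0)) {r s t : F4} (hr : geoP F (F4.i, F4.i, r)) (hs : geoP F (F4.i, F4.w, s))
    (ht : geoP F (F4.i, F4.u, t)) : ∃ F' : Fr L, F'.Full ∧ ∀ e, F'.c 1 e = 0 ∨ F'.c 2 e = 0 := by
  have hB : ∀ p ∈ geoBase r s t, geoP F p := by
    intro p hp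
    simp only [geoBase, List.mem_cons, List.not_mem_nil, or_false] at hp
    rcases hp with rfl | rfl | rfl | rfl | rfl | rfl
    · exact hz
    · exact ha
    · exact hb
    · exact hr
    · exact hs
    · exact ht
  have h1 := geoAll_iff (geoAll_iff (geoAll_iff geoA r) s) t
  unfold geoCfg at h1
  rw [Bool.or_eq_true, Bool.or_eq_true] at h1
  rcases h1 with h1 | h1 | h1
  · exact (geo_no hF hno hB h1).elim
  · have hn : ∀ x : F4, (!geoNz x) = true → x = F4.o := by decide
    rw [Bool.and_eq_true, Bool.and_eq_true] at h1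
    obtain rfl := hn r h1.1
    obtain rfl := hn s h1.2.1
    obtain rfl := hn t h1.2.2
    by_cases hoff : ∃ e : E, (F.vv e).2.2 ≠ 0 ∧ ((F.vv e).1 ≠ 0 ∨ (F.vv e).2.1 ≠ 0)
    · obtain ⟨e, he, he'⟩ := hoff
      obtain ⟨x, y, hxy, hP⟩ : ∃ x y : F4, (x ≠ 0 ∨ y ≠ 0) ∧ geoP F (x, y, F4.i) := by
        refine ⟨(F.vv e).2.2⁻¹ * (F.vv e).1, (F.vv e).2.2⁻¹ * (F.vv e).2.1, ?_, ?_⟩
        · rcases he' with h | h
          · exact Or.inl (mul_ne_zero (inv_ne_zero he) h)
          · exact Or.inr (mul_ne_zero (inv_ne_zero he) h)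
        · have h2 := geoP_sm (geoP_vv F e) (inv_ne_zero he)
          have h3 : (F.vv e).2.2⁻¹ * (F.vv e).2.2 = F4.i := inv_mul_cancel₀ he
          have h4 : sm (F.vv e).2.2⁻¹ (F.vv e) = ((F.vv e).2.2⁻¹ * (F.vv e).1, (F.vv e).2.2⁻¹ * (F.vv e).2.1, F4.i) := by
            rw [← h3]
            rfl
          rwa [h4] at h2
      have h2 := geoAll_iff (geoAll_iff geoB x) y
      rw [Bool.or_eq_true] at h2
      have h3 : ¬ (!(geoNz x || geoNz y)) = true := by
        rw [Bool.not_eq_true', Bool.or_eq_false_iff, not_and_or]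
        rcases hxy with h | h
        · left
          rw [(geoNz_iff x).2 h]
          decide
        · right
          rw [(geoNz_iff y).2 h]
          decide
      have h4 := h2.resolve_left h3
      refine geo_lines hF (u := (0, 0, 1)) (v := (y, x, F4.o)) ?_ fun g => ?_
      · have h5 : ∀ x y : F4, (x ≠ 0 ∨ y ≠ 0) → geoInd (0, 0, 1) (y, x, F4.o) = true := by decide
        exact h5 x y hxy
      · have h5 := geoAll_iff (geoAll_iff (geoAll_iff h4 (F.vv g).1) (F.vv g).2.1) (F.vv g).2.2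
        rw [Bool.or_eq_true, Bool.or_eq_true] at h5
        have hn' : ∀ x : F4, (!geoNz x) = true → x = 0 := by decide
        rcases h5 with h5 | h5 | h5
        · left
          have h6 := hn' _ h5
          simp only [dot]
          rw [h6]
          ring
        · right
          exact hn' _ h5
        · refine (geo_no hF hno ?_ h5).elim
          intro p hp
          rcases List.mem_cons.1 hp with rfl | hp
          · exact hP
          · rcases List.mem_cons.1 hp with rfl | hp
            · exact geoP_vv F g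
            · exact hB p hp
    · refine geo_lines hF (u := (0, 0, 1)) (v := (1, 0, 0)) (by decide) fun g => ?_
      by_cases h2 : (F.vv g).2.2 = 0
      · left
        simp only [dot]
        rw [h2]
        ring
      · right
        have h3 : (F.vv g).1 = 0 := by
          by_contra h3
          exact hoff ⟨g, h2, Or.inl h3⟩
        simp only [dot]
        rw [h3]
        ring
  · rw [List.any_eq_true] at h1
    obtain ⟨u, -, h1⟩ := h1
    rw [List.any_eq_true] at h1
    obtain ⟨n, -, h1⟩ := h1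
    rw [Bool.and_eq_true] at h1
    refine geo_lines hF h1.1 fun g => ?_
    have h5 := geoAll_iff (geoAll_iff (geoAll_iff h1.2 (F.vv g).1) (F.vv g).2.1) (F.vv g).2.2
    rw [Bool.or_eq_true, Bool.or_eq_true] at h5
    have hn' : ∀ x : F4, (!geoNz x) = true → x = 0 := by decide
    rcases h5 with h5 | h5 | h5
    · left
      exact hn' _ h5
    · right
      exact hn' _ h5
    · refine (geo_no hF hno ?_ h5).elim
      intro p hp
      rcases List.mem_cons.1 hp with rfl | hp
      · exact geoP_vv F g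
      · exact hB p hp

omit [Fintype E] in
private theorem geo_fv {a b c : E} (h : B3 L a b c) {F : Fr L} (ha : F.vv a = (1, 0, 0)) (hb : F.vv b = (0, 1, 0))
    (hc : F.vv c = (0, 0, 1)) (e : E) :
    F.vv e = (fv L {a, b, c} a e, fv L {a, b, c} b e, fv L {a, b, c} c e) := by
  obtain ⟨hab, hac, hbc, hS⟩ := h
  have ma : a ∈ ({a, b, c} : Finset E) := by simp
  have mb : b ∈ ({a, b, c} : Finset E) := by simp
  have mc : c ∈ ({a, b, c} : Finset E) := by simp
  have key : ∀ v ∈ L, F.xi v = (v a, v b, v c) := by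
    intro v hv
    have h1 := F.ev hv a
    have h2 := F.ev hv b
    have h3 := F.ev hv c
    rw [ha] at h1
    rw [hb] at h2
    rw [hc] at h3
    simp only [dot, mul_one, mul_zero, add_zero, zero_add] at h1 h2 h3
    rw [h1, h2, h3]
  have k1 := F.ev (fv_mem hS ma) e
  have k2 := F.ev (fv_mem hS mb) e
  have k3 := F.ev (fv_mem hS mc) e
  rw [key _ (fv_mem hS ma), fv_self hS ma, fv_oth hS ma mb hab.symm, fv_oth hS ma mc hac.symm] at k1
  rw [key _ (fv_mem hS mb), fv_self hS mb, fv_oth hS mb ma hab, fv_oth hS mb mc hbc.symm] at k2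
  rw [key _ (fv_mem hS mc), fv_self hS mc, fv_oth hS mc ma hac, fv_oth hS mc mb hbc] at k3
  simp only [dot, one_mul, zero_mul, add_zero, zero_add] at k1 k2 k3
  rw [k1, k2, k3]

omit [Fintype E] in
private theorem geo_third {S : Finset E} (hS : S.card = 3) {a b : E} (ha : a ∈ S) (hb : b ∈ S) (hab : a ≠ b) :
    ∃ z, a ≠ z ∧ b ≠ z ∧ S = {a, b, z} := by
  have h1 : ((S.erase a).erase b).card = 1 := by
    rw [Finset.card_erase_of_mem (Finset.mem_erase.2 ⟨hab.symm, hb⟩), Finset.card_erase_of_mem ha, hS]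
  obtain ⟨z, hz⟩ := Finset.card_eq_one.1 h1
  have h2 : z ∈ (S.erase a).erase b := by
    rw [hz]
    exact Finset.mem_singleton_self z
  rw [Finset.mem_erase, Finset.mem_erase] at h2
  refine ⟨z, h2.2.1.symm, h2.1.symm, ?_⟩
  rw [← Finset.insert_erase ha, ← Finset.insert_erase (Finset.mem_erase.2 ⟨hab.symm, hb⟩), hz]

theorem geo (hr : ∃ q, Rich (rk L) q) (hS : ∀ S, IsB L S → S.card = 3) (hno : ¬ ∃ a b c d e, Ac L a b c d e) :
    ∃ F : Fr L, F.Full ∧ ∀ e, F.c 1 e = 0 ∨ F.c 2 e = 0 := by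
  obtain ⟨q, hq⟩ := hr
  obtain ⟨S, hSB, hcase⟩ := block_of_rich hq
  have hS3 := hS S hSB
  rcases hcase with ⟨a, ha, b, hb, hab, c, hc, e, he, f, hf, n1, n2, n3, n4, n5, n6, d1, d2, d3, -⟩ |
    ⟨a, ha, b, hb, c, hc, hab, hac, hbc, e, he, f, hf, n1, n2, n3, n4, n5, n6, d1, d2, d3, -⟩
  · obtain ⟨z, haz, hbz, rfl⟩ := geo_third hS3 ha hb hab
    have hB3 : B3 L a b z := ⟨hab, haz, hbz, hSB⟩
    obtain ⟨F, hF, va, vb, vz⟩ := exists_full hB3
    have hvv := geo_fv hB3 va vb vz
    have hPz : geoP F (0, 0, 1) := by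
      rw [← vz]
      exact geoP_vv F z
    have hPa : geoP F (1, 0, 0) := by
      rw [← va]
      exact geoP_vv F a
    have hPb : geoP F (0, 1, 0) := by
      rw [← vb]
      exact geoP_vv F b
    -- points with the first coordinate one
    have hrat : ∀ g : E, fv L {a, b, z} a g ≠ 0 →
        ∃ t, geoP F (F4.i, fv L {a, b, z} b g * (fv L {a, b, z} a g) ^ 2, t) := by
      intro g hg
      refine ⟨fv L {a, b, z} z g * (fv L {a, b, z} a g) ^ 2, g, fv L {a, b, z} a g, hg, ?_⟩
      rw [hvv g]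
      have h1 : ∀ x y : F4, x ≠ 0 → x * (y * x ^ 2) = y := by decide
      have h2 : ∀ x : F4, x * F4.i = x := by decide
      simp only [sm, h1 _ _ hg, h2]
    have hdist : ∀ x y x' y' : F4, x ≠ 0 → x' ≠ 0 → x * y' ≠ x' * y → y * x ^ 2 ≠ y' * x' ^ 2 := by decide
    have hne : ∀ x y : F4, x ≠ 0 → y ≠ 0 → y * x ^ 2 ≠ 0 := by decide
    have hcov : ∀ r s t x : F4, r ≠ 0 → s ≠ 0 → t ≠ 0 → r ≠ s → r ≠ t → s ≠ t → x ≠ 0 → r = x ∨ s = x ∨ t = x := by decide
    have hall : ∀ x : F4, x ≠ 0 → ∃ t, geoP F (F4.i, x, t) := by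
      intro x hx
      rcases hcov _ _ _ x (hne _ _ n1 n4) (hne _ _ n2 n5) (hne _ _ n3 n6) (hdist _ _ _ _ n1 n2 d1) (hdist _ _ _ _ n1 n3 d2)
        (hdist _ _ _ _ n2 n3 d3) hx with h | h | h
      · rw [← h]
        exact hrat c n1
      · rw [← h]
        exact hrat e n2
      · rw [← h]
        exact hrat f n3
    obtain ⟨r, hr⟩ := hall F4.i (by decide)
    obtain ⟨s, hs⟩ := hall F4.w (by decide)
    obtain ⟨t, ht⟩ := hall F4.u (by decide)
    exact geo_core hF hno hPz hPa hPb hr hs ht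
  · exfalso
    obtain ⟨z, haz, hbz, rfl⟩ := geo_third hS3 ha hb hab
    have hcz : c = z := by
      rcases Finset.mem_insert.1 hc with h | h
      · exact absurd h.symm hac
      · rcases Finset.mem_insert.1 h with h | h
        · exact absurd h.symm hbc
        · exact Finset.mem_singleton.1 h
    subst hcz
    have hB3 : B3 L a b c := ⟨hab, haz, hbz, hSB⟩
    obtain ⟨F, hF, va, vb, vc⟩ := exists_full hB3
    have hvv := geo_fv hB3 va vb vc
    have hs : ∀ x y : F4, x ≠ y → x + y ≠ 0 := by decide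
    refine hno ⟨a, b, c, e, f, hB3, ?_⟩
    rw [Fr.b3_iff hF, Fr.b3_iff hF, Fr.b3_iff hF, Fr.b3_iff hF, Fr.b3_iff hF, Fr.b3_iff hF, Fr.b3_iff hF, Fr.b3_iff hF,
      Fr.b3_iff hF, va, vb, vc, hvv e, hvv f]
    simp only [dt, dot, crs, one_mul, zero_mul, mul_zero, add_zero, zero_add]
    refine ⟨n3, n2, n1, n6, n5, n4, ?_, ?_, ?_⟩
    · exact hs _ _ fun h => d3 (by rw [h]; ring)
    · exact hs _ _ fun h => d2 (by rw [← h]; ring)
    · exact hs _ _ fun h => d1 (by rw [h]; ring)

end Pool.Agent.QUD
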