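import Pool.Agent.QUD.RC
import Pool.Agent.QUD.Four
import Pool.Agent.QUL.LSumS
import Pool.Agent.QUL.LTh
import Pool.Agent.QUY.Exc

/-!
# QUD/H8: the boxes of small rank or corank and the boxes with at most eight elements

`d1r`: the boxes of rank at most three, `d1c`: the boxes of corank at most three, `red0`: the boxes with a separation of order at most
two, `d44`: the 3-connected boxes with eight elements and rank four without triangles and triads, `h8`: the boxes with at most eight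
elements.
-/

set_option autoImplicit false

noncomputable section

open scoped Classical

namespace Pool.Agent.QUD

open Pool.Agent.FRM Pool.Agent.QUS Pool.Agent.QUE Pool.Agent.QUY
open Pool.Agent.QU (Fm van spt dg EqOn EqD InV InVs TP Itv Rich Sub Th3)

variable {E : Type} [Fintype E]

theorem d1f {L : Submodule F4 (E → F4)} (hL : Cls L) (h : rk L Finset.univ ≤ 3) : ∃ T, InVs (tp L) (∅, Finset.univ) T := by
  obtain ⟨Φ, hB, hU⟩ := hL
  obtain ⟨S, hS⟩ := exists_isB L
  have h1 := isB_iff.1 hS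
  refine r3 hB hU hS ?_
  have h2 := h1.2
  omega

/-- rank at most three -/
theorem d1r {L : Submodule F4 (E → F4)} (hL : Cls L) {p : Itv E} (hp : p.1 ⊆ p.2) (h : rk L p.2 ≤ rk L p.1 + 3) :
    ∃ T, InVs (tp L) p T := by
  obtain ⟨L', hL', hr, h1⟩ := minor hL hp
  refine h1 (d1f hL' ?_)
  rw [hr, Finset.univ_inter, Finset.union_eq_left.2 hp]
  omega

section Dual

variable {r : Finset E → ℤ} {p : Itv E}

theorem rd_cup {A : Finset E} (hA : A ⊆ QUB.gs p) :
    QUB.rd r ((QUB.dp p).1 ∪ A) = QUB.rd r (QUB.dp p).1 + A.card + r (p.2 \ A) - r p.2 := by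
  unfold QUB.rd QUB.dp
  simp only
  have h1 : Disjoint p.2ᶜ A := by
    rw [Finset.disjoint_left]
    intro x hx hxA
    exact (Finset.mem_compl.1 hx) (Finset.mem_sdiff.1 (hA hxA)).1
  have h2 : (p.2ᶜ ∪ A)ᶜ = p.2 \ A := by
    ext x
    simp only [Finset.mem_compl, Finset.mem_union, Finset.mem_sdiff]
    tauto
  rw [Finset.card_union_of_disjoint h1, h2, compl_compl]
  push_cast
  ring

theorem rd_sdiff {A : Finset E} (hA : A ⊆ QUB.gs p) :
    QUB.rd r ((QUB.dp p).2 \ A) = QUB.rd r (QUB.dp p).2 - A.card + r (p.1 ∪ A) - r p.1 := by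
  unfold QUB.rd QUB.dp
  simp only
  have h1 : A ⊆ p.1ᶜ := fun x hx => Finset.mem_compl.2 (Finset.mem_sdiff.1 (hA hx)).2
  have h2 : (p.1ᶜ \ A)ᶜ = p.1 ∪ A := by
    ext x
    simp only [Finset.mem_compl, Finset.mem_union, Finset.mem_sdiff]
    tauto
  have h3 := Finset.card_sdiff_add_card_eq_card h1
  have h4 : ((p.1ᶜ \ A).card : ℤ) + A.card = (p.1ᶜ).card := by exact_mod_cast h3
  rw [h2, compl_compl]
  linarith

theorem rd_top (hp : p.1 ⊆ p.2) :
    QUB.rd r (QUB.dp p).2 - QUB.rd r (QUB.dp p).1 = (QUB.gs p).card - (r p.2 - r p.1) := by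
  unfold QUB.rd QUB.dp
  simp only [compl_compl]
  have h1 : (p.1.card : ℤ) + (p.1ᶜ).card = Fintype.card E := by exact_mod_cast Finset.card_add_card_compl p.1
  have h2 : (p.2.card : ℤ) + (p.2ᶜ).card = Fintype.card E := by exact_mod_cast Finset.card_add_card_compl p.2
  have h3 : ((QUB.gs p).card : ℤ) + p.1.card = p.2.card := by
    exact_mod_cast Finset.card_sdiff_add_card_eq_card hp
  linarith

end Dual

/-- corank at most three -/
theorem d1c {L : Submodule F4 (E → F4)} (hL : Cls L) {p : Itv E} (hp : p.1 ⊆ p.2)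
    (h : ((QUB.gs p).card : ℤ) + rk L p.1 ≤ rk L p.2 + 3) : ∃ T, InVs (tp L) p T := by
  refine invs_of_ww (d1r (cls_ww hL) (QUB.wf_dp hp) ?_)
  rw [rk_ww]
  have := rd_top (r := rk L) hp
  linarith

/-- a box with a separation of order at most two -/
theorem red0 {L : Submodule F4 (E → F4)} {p : Itv E} (hp : p.1 ⊆ p.2)
    (ih : ∀ q : Itv E, q.1 ⊆ q.2 → (QUB.gs q).card < (QUB.gs p).card → ∃ T, InVs (tp L) q T)
    (hn : ¬ (QUB.Cn (rk L) p ∧ Th3 (rk L) p)) : ∃ T, InVs (tp L) p T := by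
  have one : ∀ A ⊆ QUB.gs p, A.Nonempty → (QUB.gs p \ A).Nonempty → QUB.lam (rk L) p A ≤ 0 → ∃ T, InVs (tp L) p T := by
    intro A hA h1 h2 h3
    have g1 : QUB.gs (p.1, p.1 ∪ A) = A := by
      ext x
      have := fun hx : x ∈ A => (Finset.mem_sdiff.1 (hA hx)).2
      simp only [QUB.gs, Finset.mem_sdiff, Finset.mem_union]
      tauto
    have g2 : QUB.gs (p.1, p.2 \ A) = QUB.gs p \ A := by
      ext x
      simp only [QUB.gs, Finset.mem_sdiff]
      tauto
    have g3 := Finset.card_sdiff_add_card_eq_card hA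
    have g4 := h1.card_pos
    have g5 := h2.card_pos
    obtain ⟨TA, hTA⟩ := ih (p.1, p.1 ∪ A) Finset.subset_union_left (by rw [g1]; omega)
    obtain ⟨TB, hTB⟩ := ih (p.1, p.2 \ A) (fun x hx => Finset.mem_sdiff.2 ⟨hp hx, fun h => (Finset.mem_sdiff.1 (hA h)).2 hx⟩)
      (by rw [g2]; omega)
    obtain ⟨T, hT, -, -⟩ := Pool.Agent.QU.one_sum_star (tp L) hp hA h3 hTA hTB
    exact ⟨T, hT⟩
  by_cases hc : QUB.Cn (rk L) p
  · have hn' : ¬ Th3 (rk L) p := fun h => hn ⟨hc, h⟩
    unfold Pool.Agent.QU.Th3 at hn'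
    push_neg at hn'
    obtain ⟨A, hA, h1, h2, h3⟩ := hn'
    rcases le_or_gt (QUB.lam (rk L) p A) 0 with h4 | h4
    · exact one A hA (Finset.card_pos.1 (by omega)) (Finset.card_pos.1 (by omega)) h4
    · have h5 : QUB.lam (rk L) p A = 1 := by
        have h6 : QUB.lam (rk L) p A < 2 := h3
        omega
      have hB : QUB.gs p \ A ⊆ QUB.gs p := Finset.sdiff_subset
      have h6 : QUB.lam (rk L) p (QUB.gs p \ A) = 1 := by
        rw [QUB.lam_compl (rk L) hp hA, h5]
      obtain ⟨X, b, hX⟩ := Pool.Agent.QU.half_exists (tp L).rk hp hA h5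
      obtain ⟨X', a, hX'⟩ := Pool.Agent.QU.half_exists (tp L).rk hp hB h6
      obtain ⟨-, -, k1, k2⟩ := Pool.Agent.QU.half_sub hp hA hX
      obtain ⟨-, -, k3, k4⟩ := Pool.Agent.QU.half_sub hp hB hX'
      have g3 := Finset.card_sdiff_add_card_eq_card hA
      have g1 : (QUB.gs (Pool.Agent.QU.hb p A X b)).card < (QUB.gs p).card := by
        have g0 : (QUB.gs (Pool.Agent.QU.hb p A X b)).card ≤ A.card + 1 :=
          (congrArg Finset.card k2).le.trans (Finset.card_insert_le _ _)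
        have h2' : 2 ≤ (QUB.gs p \ A).card := h2
        omega
      have g2 : (QUB.gs (Pool.Agent.QU.hb p (QUB.gs p \ A) X' a)).card < (QUB.gs p).card := by
        have g0 : (QUB.gs (Pool.Agent.QU.hb p (QUB.gs p \ A) X' a)).card ≤ (QUB.gs p \ A).card + 1 :=
          (congrArg Finset.card k4).le.trans (Finset.card_insert_le _ _)
        omega
      obtain ⟨TA, hTA⟩ := ih _ k1 g1
      obtain ⟨TB, hTB⟩ := ih _ k3 g2
      obtain ⟨T, hT, -, -⟩ := Pool.Agent.QU.two_sum_star (tp L) hp hA h5 hX hX' hTA hTB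
      exact ⟨T, hT⟩
  · unfold QUB.Cn at hc
    push_neg at hc
    obtain ⟨A, hA, h1, h2, h3⟩ := hc
    exact one A hA h1 h2 (by omega)

section Small

variable {r : Finset E → ℤ} {p : Itv E}

theorem th_one (hr : QUB.Rk r) (hc : QUB.Cn r p) (h : 2 ≤ (QUB.gs p).card) {x : E} (hx : x ∈ QUB.gs p) :
    r (p.1 ∪ {x}) = r p.1 + 1 ∧ r (p.2 \ {x}) = r p.2 := by
  have h1 : ({x} : Finset E) ⊆ QUB.gs p := Finset.singleton_subset_iff.2 hx
  have h2 := hc {x} h1 (Finset.singleton_nonempty x) (by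
    rw [← Finset.card_pos]
    have := Finset.card_sdiff_add_card_eq_card h1
    rw [Finset.card_singleton] at this
    omega)
  unfold QUB.lam at h2
  have h3 := hr.unit p.1 x
  have h4 := hr.mono (p.2 \ {x}) p.2 Finset.sdiff_subset
  have e1 : p.1 ∪ {x} = insert x p.1 := by
    ext y
    simp only [Finset.mem_union, Finset.mem_singleton, Finset.mem_insert]
    tauto
  rw [e1] at h2 ⊢
  omega

theorem th_two (hr : QUB.Rk r) (hc : Th3 r p) (h : 4 ≤ (QUB.gs p).card) {x y : E} (hx : x ∈ QUB.gs p) (hy : y ∈ QUB.gs p)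
    (hxy : x ≠ y) : r (p.1 ∪ {x, y}) = r p.1 + 2 ∧ r (p.2 \ {x, y}) = r p.2 := by
  have h1 : ({x, y} : Finset E) ⊆ QUB.gs p := by
    intro z hz
    rcases Finset.mem_insert.1 hz with rfl | hz
    · exact hx
    · rw [Finset.mem_singleton.1 hz]
      exact hy
  have hcd : ({x, y} : Finset E).card = 2 := Finset.card_pair hxy
  have h2 := hc {x, y} h1 hcd.ge (by
    have := Finset.card_sdiff_add_card_eq_card h1
    have e : (Pool.Agent.QU.gs p \ {x, y}).card = (QUB.gs p \ {x, y}).card := rfl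
    omega)
  have h2' : 2 ≤ r (p.1 ∪ {x, y}) + r (p.2 \ {x, y}) - r p.2 - r p.1 := h2
  have h3 := hr.unit p.1 y
  have h3' := hr.unit (insert y p.1) x
  have h4 := hr.mono (p.2 \ {x, y}) p.2 Finset.sdiff_subset
  have e1 : p.1 ∪ {x, y} = insert x (insert y p.1) := by
    ext z
    simp only [Finset.mem_union, Finset.mem_singleton, Finset.mem_insert]
    tauto
  rw [e1] at h2' ⊢
  omega

/-- three elements whose deletion lowers the rank -/
theorem triad_of (hr : QUB.Rk r) (hc : Th3 r p) (h : 4 ≤ (QUB.gs p).card) {x y w : E} (hx : x ∈ QUB.gs p) (hy : y ∈ QUB.gs p)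
    (hw : w ∈ QUB.gs p) (hxy : x ≠ y) (hxw : x ≠ w) (hyw : y ≠ w) (hn : r (p.2 \ {x, y, w}) ≠ r p.2) : Triad r p x y w := by
  have e1 : insert x (p.2 \ {x, y, w}) = p.2 \ {y, w} := by
    have := (Finset.mem_sdiff.1 hx).1
    ext z
    simp only [Finset.mem_insert, Finset.mem_sdiff, Finset.mem_singleton]
    by_cases hz : z = x
    · subst hz
      simp [this, hxy, hxw]
    · simp [hz]
  have e2 : insert y (p.2 \ {x, y, w}) = p.2 \ {x, w} := by
    have := (Finset.mem_sdiff.1 hy).1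
    ext z
    simp only [Finset.mem_insert, Finset.mem_sdiff, Finset.mem_singleton]
    by_cases hz : z = y
    · subst hz
      simp [this, hxy.symm, hyw]
    · simp [hz]
  have e3 : insert w (p.2 \ {x, y, w}) = p.2 \ {x, y} := by
    have := (Finset.mem_sdiff.1 hw).1
    ext z
    simp only [Finset.mem_insert, Finset.mem_sdiff, Finset.mem_singleton]
    by_cases hz : z = w
    · subst hz
      simp [this, hxw.symm, hyw.symm]
    · simp [hz]
  have h1 := (th_two hr hc h hy hw hyw).2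
  have h2 := (th_two hr hc h hx hw hxw).2
  have h3 := (th_two hr hc h hx hy hxy).2
  have h4 := hr.unit (p.2 \ {x, y, w}) x
  have h5 := hr.mono (p.2 \ {x, y, w}) p.2 Finset.sdiff_subset
  rw [e1] at h4
  exact ⟨hxy, hyw, hxw.symm, hx, hy, hw, by omega, by rw [e1]; exact h1, by rw [e2]; exact h2, by rw [e3]; exact h3⟩

theorem th3_dp (hp : p.1 ⊆ p.2) (h : Th3 r p) : Th3 (QUB.rd r) (QUB.dp p) := by
  intro A hA h1 h2
  have hg : QUB.gs (QUB.dp p) = QUB.gs p := QUB.gs_dp p
  have hA' : A ⊆ QUB.gs p := by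
    rw [← hg]
    exact hA
  have h3 : 2 ≤ (QUB.gs p \ A).card := by
    rw [← hg]
    exact h2
  have h4 : QUB.lam (QUB.rd r) (QUB.dp p) A = QUB.lam r p A := QUB.lam_dp hp hA'
  have h5 : 2 ≤ QUB.lam r p A := h A hA' h1 h3
  have h6 : 2 ≤ QUB.lam (QUB.rd r) (QUB.dp p) A := by
    rw [h4]
    exact h5
  exact h6

end Small

/-- a `U_{3,5}` minor of a box of rank four with eight elements, no triangle, no triad -/
theorem d44a {L : Submodule F4 (E → F4)} (hL : Cls L) {p : Itv E} (hp : p.1 ⊆ p.2) (h8 : (QUB.gs p).card = 8)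
    (hr : rk L p.2 = rk L p.1 + 4) (h2 : ∀ x ∈ QUB.gs p, ∀ y ∈ QUB.gs p, x ≠ y → rk L (p.1 ∪ {x, y}) = rk L p.1 + 2)
    (h3 : ∀ x ∈ QUB.gs p, ∀ y ∈ QUB.gs p, ∀ w ∈ QUB.gs p, x ≠ y → x ≠ w → y ≠ w → rk L (p.1 ∪ {x, y, w}) = rk L p.1 + 3)
    (h5 : ∀ x ∈ QUB.gs p, ∀ y ∈ QUB.gs p, ∀ w ∈ QUB.gs p, x ≠ y → x ≠ w → y ≠ w → rk L (p.2 \ {x, y, w}) = rk L p.2)
    {q : Itv E} (hq : Sub q p) (hq0 : q.1 ⊆ q.2) (hq5 : (QUB.gs q).card = 5) (hq3 : rk L q.2 = rk L q.1 + 3)
    (hq' : ∀ i ∈ QUB.gs q, ∀ j ∈ QUB.gs q, ∀ k ∈ QUB.gs q, i ≠ j → i ≠ k → j ≠ k → rk L (q.1 ∪ {i, j, k}) = rk L q.1 + 3) :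
    False := by
  have hR := isRk L
  have hgq : QUB.gs q ⊆ QUB.gs p := fun x hx => Finset.mem_sdiff.2
    ⟨hq.2 (Finset.mem_sdiff.1 hx).1, fun h => (Finset.mem_sdiff.1 hx).2 (hq.1 h)⟩
  have htop := hR.mono q.2 p.2 hq.2
  -- the contracted element
  obtain ⟨z, hz1, hz2⟩ : ∃ z ∈ q.1, z ∉ p.1 := by
    by_contra hcon
    push_neg at hcon
    have e1 : q.1 = p.1 := Finset.Subset.antisymm hcon hq.1
    have c1 := Finset.card_sdiff_add_card_eq_card hgq
    obtain ⟨x, y, w, hxy, hxw, hyw, he⟩ := Finset.card_eq_three.1 (show (QUB.gs p \ QUB.gs q).card = 3 by omega)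
    have hm : ∀ v ∈ ({x, y, w} : Finset E), v ∈ QUB.gs p ∧ v ∉ QUB.gs q := by
      intro v hv
      rw [← he] at hv
      exact Finset.mem_sdiff.1 hv
    have hx := hm x (by simp)
    have hy := hm y (by simp)
    have hw := hm w (by simp)
    have e2 : p.2 \ {x, y, w} = q.2 := by
      rw [← he]
      ext v
      have a1 := fun h : v ∈ q.2 => hq.2 h
      have a2 := fun h : v ∈ p.1 => hp h
      have a3 := fun h : v ∈ q.1 => hq0 h
      rw [e1] at a3
      simp only [QUB.gs, Finset.mem_sdiff, e1]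
      tauto
    have e3 := h5 x hx.1 y hy.1 w hw.1 hxy hxw hyw
    rw [e2, hr] at e3
    rw [e1] at hq3
    omega
  have hz : z ∈ QUB.gs p := Finset.mem_sdiff.2 ⟨hq.2 (hq0 hz1), hz2⟩
  have e1 : q.1 = insert z p.1 := by
    apply Finset.Subset.antisymm
    · intro w hw
      by_contra hcon
      rw [Finset.mem_insert, not_or] at hcon
      have hw' : w ∈ QUB.gs p := Finset.mem_sdiff.2 ⟨hq.2 (hq0 hw), hcon.2⟩
      have a1 := h2 w hw' z hz hcon.1
      have a2 := hR.mono (p.1 ∪ {w, z}) q.1 (by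
        intro v hv
        rcases Finset.mem_union.1 hv with hv | hv
        · exact hq.1 hv
        · rcases Finset.mem_insert.1 hv with rfl | hv
          · exact hw
          · rw [Finset.mem_singleton.1 hv]
            exact hz1)
      omega
    · exact Finset.insert_subset hz1 hq.1
  -- five elements
  obtain ⟨a, t, hat, rfl', ht⟩ := Finset.card_eq_succ.1 hq5
  obtain ⟨b, t', hbt, rfl'', ht'⟩ := Finset.card_eq_succ.1 ht
  obtain ⟨c, d, e, hcd, hce, hde, rfl⟩ := Finset.card_eq_three.1 ht'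
  subst rfl''
  have hG : QUB.gs q = {a, b, c, d, e} := rfl'.symm
  have hab : a ≠ b := fun h => hat (by rw [h]; simp)
  have hac : a ≠ c := fun h => hat (by rw [h]; simp)
  have had : a ≠ d := fun h => hat (by rw [h]; simp)
  have hae : a ≠ e := fun h => hat (by rw [h]; simp)
  have hbc : b ≠ c := fun h => hbt (by rw [h]; simp)
  have hbd : b ≠ d := fun h => hbt (by rw [h]; simp)
  have hbe : b ≠ e := fun h => hbt (by rw [h]; simp)
  have hm : ∀ v ∈ ({a, b, c, d, e} : Finset E), v ≠ z ∧ v ∈ QUB.gs p := by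
    intro v hv
    rw [← hG] at hv
    refine ⟨?_, hgq hv⟩
    rintro rfl
    exact (Finset.mem_sdiff.1 hv).2 hz1
  obtain ⟨L', hL', hr', -⟩ := minor hL hp
  have hA : ∀ A ⊆ QUB.gs p, rk L' A = rk L (p.1 ∪ A) - rk L p.1 := by
    intro A hA
    rw [hr', Finset.inter_eq_left.2 (fun x hx => (Finset.mem_sdiff.1 (hA hx)).1), Finset.union_comm]
  have hu : rk L' Finset.univ = 4 := by
    rw [hr', Finset.univ_inter, Finset.union_eq_left.2 hp, hr]
    ring
  have sub2 : ∀ {x y : E}, x ∈ QUB.gs p → y ∈ QUB.gs p → ({x, y} : Finset E) ⊆ QUB.gs p := by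
    intro x y hx hy v hv
    rcases Finset.mem_insert.1 hv with rfl | hv
    · exact hx
    · rw [Finset.mem_singleton.1 hv]
      exact hy
  have sub3 : ∀ {x y w : E}, x ∈ QUB.gs p → y ∈ QUB.gs p → w ∈ QUB.gs p → ({x, y, w} : Finset E) ⊆ QUB.gs p := by
    intro x y w hx hy hw v hv
    rcases Finset.mem_insert.1 hv with rfl | hv
    · exact hx
    · exact sub2 hy hw hv
  refine four hL' (z := z) (G := QUB.gs p) h8 hz hu ?_ ?_ ?_ ?_ (hm a (by simp)).1 (hm b (by simp)).1 (hm c (by simp)).1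
    (hm d (by simp)).1 (hm e (by simp)).1 hab hac had hae hbc hbd hbe hcd hce hde ?_
  · intro v hv
    have e2 : ({v} : Finset E) ∩ p.2 ∪ p.1 = p.1 := by
      apply Finset.union_eq_right.2
      intro w hw
      obtain ⟨h6, h7⟩ := Finset.mem_inter.1 hw
      rw [Finset.mem_singleton] at h6
      subst h6
      by_contra h8
      exact hv (Finset.mem_sdiff.2 ⟨h7, h8⟩)
    rw [hr', e2]
    ring
  · intro x hx y hy hxy
    rw [hA _ (sub2 hx hy), h2 x hx y hy hxy]
    ring
  · intro x hx y hy w hw hxy hxw hyw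
    rw [hA _ (sub3 hx hy hw), h3 x hx y hy w hw hxy hxw hyw]
    ring
  · intro x hx y hy w hw hxy hxw hyw
    have e2 : p.1 ∪ (QUB.gs p \ {x, y, w}) = p.2 \ {x, y, w} := by
      ext v
      have a1 : v ∈ p.1 → v ∉ ({x, y, w} : Finset E) := fun h h' => (Finset.mem_sdiff.1 (sub3 hx hy hw h')).2 h
      have a2 := fun h : v ∈ p.1 => hp h
      simp only [QUB.gs, Finset.mem_sdiff, Finset.mem_union]
      tauto
    rw [hA _ Finset.sdiff_subset, e2, h5 x hx y hy w hw hxy hxw hyw, hr]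
    ring
  · intro i hi j hj k hk hij hik hjk
    obtain ⟨i1, i2⟩ := hm i hi
    obtain ⟨j1, j2⟩ := hm j hj
    obtain ⟨k1, k2⟩ := hm k hk
    have e2 : p.1 ∪ insert z {i, j, k} = q.1 ∪ {i, j, k} := by
      rw [e1]
      ext v
      simp only [Finset.mem_union, Finset.mem_insert]
      tauto
    have e3 : rk L q.1 = rk L p.1 + 1 := by
      have a1 := h2 z hz i i2 i1.symm
      have a2 := hR.unit (insert z p.1) i
      have a3 : p.1 ∪ {z, i} = insert i (insert z p.1) := by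
        ext v
        simp only [Finset.mem_union, Finset.mem_insert, Finset.mem_singleton]
        tauto
      rw [a3] at a1
      rw [← e1] at a1 a2
      omega
    have e4 : (insert z {i, j, k} : Finset E).card = 4 := by
      rw [Finset.card_insert_of_notMem, Finset.card_eq_three.2 ⟨i, j, k, hij, hik, hjk, rfl⟩]
      simp only [Finset.mem_insert, Finset.mem_singleton, not_or]
      exact ⟨i1.symm, j1.symm, k1.symm⟩
    rw [isB_iff, e4, hu, hA _ (Finset.insert_subset hz (sub3 i2 j2 k2)), e2,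
      hq' i (hG ▸ hi) j (hG ▸ hj) k (hG ▸ hk) hij hik hjk, e3]
    constructor
    · push_cast
      ring
    · norm_num

/-- eight elements, rank four, no separations of order at most two, no triangles and no triads: there is no rich minor -/
theorem d44 {L : Submodule F4 (E → F4)} (hL : Cls L) {p : Itv E} (hp : p.1 ⊆ p.2) (h8 : (QUB.gs p).card = 8)
    (hr : rk L p.2 = rk L p.1 + 4) (ht : Th3 (rk L) p)
    (h3 : ∀ x ∈ QUB.gs p, ∀ y ∈ QUB.gs p, ∀ w ∈ QUB.gs p, x ≠ y → x ≠ w → y ≠ w → rk L (p.1 ∪ {x, y, w}) = rk L p.1 + 3)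
    (h5 : ∀ x ∈ QUB.gs p, ∀ y ∈ QUB.gs p, ∀ w ∈ QUB.gs p, x ≠ y → x ≠ w → y ≠ w → rk L (p.2 \ {x, y, w}) = rk L p.2)
    {q : Itv E} (hq : Sub q p) (hR : Rich (rk L) q) : False := by
  have hRk := isRk L
  have sub2 : ∀ {x y : E}, x ∈ QUB.gs p → y ∈ QUB.gs p → ({x, y} : Finset E) ⊆ QUB.gs p := by
    intro x y hx hy v hv
    rcases Finset.mem_insert.1 hv with rfl | hv
    · exact hx
    · rw [Finset.mem_singleton.1 hv]
      exact hy
  have sub3 : ∀ {x y w : E}, x ∈ QUB.gs p → y ∈ QUB.gs p → w ∈ QUB.gs p → ({x, y, w} : Finset E) ⊆ QUB.gs p := by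
    intro x y w hx hy hw v hv
    rcases Finset.mem_insert.1 hv with rfl | hv
    · exact hx
    · exact sub2 hy hw hv
  obtain ⟨hq0, hq5, hc⟩ := hR
  rcases hc with ⟨hq2, hq'⟩ | ⟨hq3, hq'⟩
  · -- the dual
    have hgd : QUB.gs (QUB.dp p) = QUB.gs p := QUB.gs_dp p
    have hgq : QUB.gs (QUB.dp q) = QUB.gs q := QUB.gs_dp q
    have htop := rd_top (r := rk L) hp
    have htopq := rd_top (r := rk L) hq0
    have hq5' : (QUB.gs q).card = 5 := hq5
    refine d44a (cls_ww hL) (QUB.wf_dp hp) (by rw [hgd]; exact h8) ?_ ?_ ?_ ?_ (q := QUB.dp q) ?_ (QUB.wf_dp hq0)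
      (by rw [hgq]; exact hq5) ?_ ?_
    · rw [rk_ww]
      have h8' : ((QUB.gs p).card : ℤ) = 8 := by exact_mod_cast h8
      linarith
    · intro x hx y hy hxy
      rw [hgd] at hx hy
      have hcd : ((({x, y} : Finset E)).card : ℤ) = 2 := by exact_mod_cast Finset.card_pair hxy
      rw [rk_ww, rd_cup (sub2 hx hy), hcd, (th_two hRk ht (by omega) hx hy hxy).2]
      ring
    · intro x hx y hy w hw hxy hxw hyw
      rw [hgd] at hx hy hw
      have hcd : ((({x, y, w} : Finset E)).card : ℤ) = 3 := by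
        exact_mod_cast Finset.card_eq_three.2 ⟨x, y, w, hxy, hxw, hyw, rfl⟩
      rw [rk_ww, rd_cup (sub3 hx hy hw), hcd, h5 x hx y hy w hw hxy hxw hyw]
      ring
    · intro x hx y hy w hw hxy hxw hyw
      rw [hgd] at hx hy hw
      have hcd : ((({x, y, w} : Finset E)).card : ℤ) = 3 := by
        exact_mod_cast Finset.card_eq_three.2 ⟨x, y, w, hxy, hxw, hyw, rfl⟩
      rw [rk_ww, rd_sdiff (sub3 hx hy hw), hcd, h3 x hx y hy w hw hxy hxw hyw]
      ring
    · exact ⟨Finset.compl_subset_compl.2 hq.2, Finset.compl_subset_compl.2 hq.1⟩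
    · rw [rk_ww]
      have h5' : ((QUB.gs q).card : ℤ) = 5 := by exact_mod_cast hq5'
      linarith
    · intro i hi j hj k hk hij hik hjk
      rw [hgq] at hi hj hk
      have hs3 : ({i, j, k} : Finset E) ⊆ QUB.gs q := by
        intro v hv
        rcases Finset.mem_insert.1 hv with rfl | hv
        · exact hi
        · rcases Finset.mem_insert.1 hv with rfl | hv
          · exact hj
          · rw [Finset.mem_singleton.1 hv]
            exact hk
      have hcd : (({i, j, k} : Finset E)).card = 3 := Finset.card_eq_three.2 ⟨i, j, k, hij, hik, hjk, rfl⟩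
      have c1 := Finset.card_sdiff_add_card_eq_card hs3
      obtain ⟨l, m, hlm, he⟩ := Finset.card_eq_two.1 (show (QUB.gs q \ {i, j, k}).card = 2 by omega)
      have hl : l ∈ QUB.gs q := (Finset.mem_sdiff.1 (he.symm ▸ (by simp) : l ∈ QUB.gs q \ {i, j, k})).1
      have hm : m ∈ QUB.gs q := (Finset.mem_sdiff.1 (he.symm ▸ (by simp) : m ∈ QUB.gs q \ {i, j, k})).1
      have e2 : q.2 \ {i, j, k} = q.1 ∪ {l, m} := by
        rw [← he]
        ext v
        have a1 : v ∈ q.1 → v ∉ ({i, j, k} : Finset E) := fun h h' => (Finset.mem_sdiff.1 (hs3 h')).2 h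
        have a2 := fun h : v ∈ q.1 => hq0 h
        simp only [QUB.gs, Finset.mem_sdiff, Finset.mem_union]
        tauto
      have hcd' : ((({i, j, k} : Finset E)).card : ℤ) = 3 := by exact_mod_cast hcd
      rw [rk_ww, rd_cup hs3, hcd', e2, hq' l hl m hm hlm, hq2]
      ring
  · exact d44a hL hp h8 hr (fun x hx y hy hxy => (th_two hRk ht (by omega) hx hy hxy).1) h3 h5 hq hq0 hq5 hq3 hq'

/-- the boxes with at most eight elements -/
theorem h8 {L : Submodule F4 (E → F4)} (hL : Cls L) {p : Itv E} (hp : p.1 ⊆ p.2) (h : (QUB.gs p).card ≤ 8) :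
    ∃ T, InVs (tp L) p T := by
  have hRk := isRk L
  by_cases h1 : rk L p.2 ≤ rk L p.1 + 3
  · exact d1r hL hp h1
  by_cases h2 : ((QUB.gs p).card : ℤ) + rk L p.1 ≤ rk L p.2 + 3
  · exact d1c hL hp h2
  have h8 : (QUB.gs p).card = 8 := by omega
  have hr : rk L p.2 = rk L p.1 + 4 := by omega
  by_cases hn : QUB.Cn (rk L) p ∧ Th3 (rk L) p
  · obtain ⟨hc, ht⟩ := hn
    by_cases h5 : ∀ x ∈ QUB.gs p, ∀ y ∈ QUB.gs p, ∀ w ∈ QUB.gs p, x ≠ y → x ≠ w → y ≠ w → rk L (p.2 \ {x, y, w}) = rk L p.2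
    · by_cases h3 : ∀ x ∈ QUB.gs p, ∀ y ∈ QUB.gs p, ∀ w ∈ QUB.gs p, x ≠ y → x ≠ w → y ≠ w →
          rk L (p.1 ∪ {x, y, w}) = rk L p.1 + 3
      · exact ⟨0, Pool.Agent.QU.InV.zero, fun q hq hR => (d44 hL hp h8 hr ht h3 h5 hq hR).elim⟩
      · -- a triangle
        push_neg at h3
        obtain ⟨x, hx, y, hy, w, hw, hxy, hxw, hyw, h4⟩ := h3
        have hgd : QUB.gs (QUB.dp p) = QUB.gs p := QUB.gs_dp p
        have hs3 : ({x, y, w} : Finset E) ⊆ QUB.gs p := by
          intro v hv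
          rcases Finset.mem_insert.1 hv with rfl | hv
          · exact hx
          · rcases Finset.mem_insert.1 hv with rfl | hv
            · exact hy
            · rw [Finset.mem_singleton.1 hv]
              exact hw
        have hcd : ((({x, y, w} : Finset E)).card : ℤ) = 3 := by
          exact_mod_cast Finset.card_eq_three.2 ⟨x, y, w, hxy, hxw, hyw, rfl⟩
        have htri : Triad (rk (WW L)) (QUB.dp p) x y w := by
          refine triad_of (isRk _) ?_ (by rw [hgd]; omega) (by rw [hgd]; exact hx) (by rw [hgd]; exact hy)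
            (by rw [hgd]; exact hw) hxy hxw hyw ?_
          · rw [rk_ww]
            exact th3_dp hp ht
          · rw [rk_ww, rd_sdiff hs3, hcd]
            intro h6
            exact h4 (by linarith)
        obtain ⟨L', hL', hd, hi⟩ := delta_y (cls_ww hL) (QUB.wf_dp hp) htri
        refine invs_of_ww (hi (d1r hL' (QUB.wf_dp hp) ?_))
        have htop := rd_top (r := rk L) hp
        have h8' : ((QUB.gs p).card : ℤ) = 8 := by exact_mod_cast h8
        rw [rk_ww] at hd
        linarith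
    · push_neg at h5
      obtain ⟨x, hx, y, hy, w, hw, hxy, hxw, hyw, h4⟩ := h5
      obtain ⟨L', hL', hd, hi⟩ := delta_y hL hp (triad_of hRk ht (by omega) hx hy hw hxy hxw hyw h4)
      refine hi (d1r hL' hp ?_)
      linarith
  · refine red0 hp (fun q hq hcard => ?_) hn
    by_cases h3 : rk L q.2 ≤ rk L q.1 + 3
    · exact d1r hL hq h3
    · exact d1c hL hq (by omega)

end Pool.Agent.QUD
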