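import Pool.Agent.QUD.Cod

/-!
# QUD/K44: there is no 2-uniform matroid with the configuration of type (4,4)

Elements of the group are replaced by a homomorphism `kn` to the integers mod 1024 which is injective on the fundamental elements; differences (`subk`) are computed with the table of `u ↦ 1 - u`.
`1024` is the code of zero, `2000` means that the difference is not in the group.
-/

set_option autoImplicit false

namespace Pool.Agent.QUD

open Pool.Agent.FRM

/-- the code of an element of the group -/
def kn (u : XG) : ℕ :=
  ((70 * u.1 + 983 * u.2.1 + 497 * u.2.2.1 + 827 * u.2.2.2.1 + 848 * u.2.2.2.2.1 + 512 * (u.2.2.2.2.2.val : ℤ)) % 1024).toNat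

/-- the codes of the fundamental elements -/
def KL : List ℕ := [975, 954, 778, 939, 913, 583, 904, 41, 377, 356, 527, 863, 330, 197, 21, 1003, 827, 694, 161, 497, 668, 647, 983, 120, 441, 111, 85, 246, 70, 49]

def mask : ℕ := 85720770643855066018731015268204671697542684461112256129555299983524058765853053441187572904482051497908918832944691154501717044666058863773816358963780310363448067934002582858903031787860859054283675057333185675612441367927062664768318775462131948731236288665882244664050320330822614312966500057612288

def tab : ℕ := 3448914163284619824888264973705979586249773355547599651489423345807024641960222344849305260710095320389221970372098898233871631578033195411037190486917123931158910541707117695732501423055970443878524522059874681765630010370427894015970595006063259622998194774751193290416050377548414527589036507718138599470490290438213682019863768641637267804660331102417162157157431311042878748589896521457299706801424308802839764409591675085968685140264478471901800393931245752981493078162933803008778627311653890484325765715533181276457151682898985162501175987337575022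3562076650509424903863290335036778116186950161713646103318157093069697473636586684476635123073697321708307746898745837512472690341660517506172147009947923908951216544662463698501655789280809252325211826542254528791347496421967436239190888612953579690879124964674964165813691736862366597533815009081527981582474426668485993580243055471563544483029762949417658570692055044095304315946441880112471360100378631285676547043953289476098664635267361552604156082520977042869760872857919050024235296595018845035393142534454327201548198474076670804641841553112833611065453711790163519755552372879064569491060585232198684894496929761837621260004013130665136668682629710941637022984923998586502835926195646008612077656550276111018588169077145174628958874378595751475223968325222426242274347818464060049612054753103954276178085518704078301172734398793927242869925096080512656527519327496335791577493079888396490845047209402946232335897490097944413875037145657015517140878167643322980366167580067318639375048218334375551492294853013197852379150174483109597584394804447103449074878867237781020641301880555354076924898232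11870778820878043499125463146749138437919657868653252466999818577055746461415632572331255453065039085167128597153577083318107076428776989969077034981121768632056495939816566826083496740201986099032577610723429044198473389751678174492002446481873942567910584369197803199047120445536096773776735199938461565174934195463993865618603330603409592990876451645239448695117274405337380068078463017315168486102453148148706647703530712569659286795993734368898932445996139780415716058591684707569621020075965803056657844893531265474494840720757304091160927826163844337941058597244324394011853516545835758900656857155202947878472000144228907028097551804653230967159690895304422732876875604839445250187145606089212790261034064265311129232393506330914747836660879682639858986375963817354590485068904997774375160452367450783342883933601313120353667225287867840079226604052845244572560141212749622217982574453539749880908840026747301985931647764918434651458129759800279719554304743152271280984954629301280320225175042059292474456691814754558954085308582648423689325537492547156906362517653532086869041053773832499711351387140920257393905193408136585467459375710750011852551577734084468378593025106491167686708836128438434263285086031773601057028051373417666523329318687839209868857640937036685232094556276544831429950242364294974484508065239058591589578794318652197297408966656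

def subk (x y : ℕ) : ℕ :=
  bif Nat.beq y 1024 then x else bif Nat.beq x 1024 then (y + 512) % 1024 else
    bif Nat.beq x y then 1024 else
      bif Nat.beq ((mask >>> ((y + 1024 - x) % 1024)) % 2) 1 then (x + (tab >>> (10 * ((y + 1024 - x) % 1024))) % 1024) % 1024 else 2000

def mulk (x y : ℕ) : ℕ := bif Nat.beq x 1024 then 1024 else bif Nat.beq y 1024 then 1024 else (x + y) % 1024

private theorem kn_add (u v : XG) : kn (u + v) = (kn u + kn v) % 1024 := by
  have h : ∀ x y : ZMod 2, (x + y).val = (x.val + y.val) % 2 := fun x y => ZMod.val_add x y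
  simp only [kn, Prod.fst_add, Prod.snd_add, h]
  push_cast
  omega

private theorem kn_lt (u : XG) : kn u < 1024 := by
  simp only [kn]
  omega

private theorem tabs : (OM.all fun p => Nat.beq ((mask >>> (kn p.1)) % 2) 1 && (Nat.beq ((tab >>> (10 * kn p.1)) % 1024) (kn p.2) &&
    (KL.contains (kn p.1) && (!(Nat.beq (kn p.1) 0))))) = true := by
  decide +kernel

/-- `c` is the code of `x` -/
def Rep (x : KU) (c : ℕ) : Prop := (x = 0 ∧ c = 1024) ∨ ∃ u, x = ev u ∧ c = kn u

private theorem beq_t {a b : ℕ} (h : a = b) : Nat.beq a b = true := by
  rw [h]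
  exact Nat.beq_refl b

private theorem beq_f {a b : ℕ} (h : a ≠ b) : Nat.beq a b = false := by
  rw [← Bool.not_eq_true]
  exact fun h' => h (Nat.eq_of_beq_eq_true h')

theorem rep_le {x : KU} {c : ℕ} (h : Rep x c) : Nat.ble c 1024 = true := by
  rw [Nat.ble_eq]
  rcases h with ⟨-, h⟩ | ⟨u, -, h⟩
  · omega
  · have := kn_lt u
    omega

theorem rep_mul {x y : KU} {c d : ℕ} (hx : Rep x c) (hy : Rep y d) : Rep (x * y) (mulk c d) := by
  rcases hx with ⟨hx, hc⟩ | ⟨u, hx, hc⟩
  · left
    refine ⟨by rw [hx, zero_mul], ?_⟩
    rw [mulk, beq_t hc]
    rfl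
  · have hc' : c ≠ 1024 := by
      have := kn_lt u
      omega
    rcases hy with ⟨hy, hd⟩ | ⟨v, hy, hd⟩
    · left
      refine ⟨by rw [hy, mul_zero], ?_⟩
      rw [mulk, beq_f hc', beq_t hd]
      rfl
    · right
      have hd' : d ≠ 1024 := by
        have := kn_lt v
        omega
      refine ⟨u + v, by rw [hx, hy, ev_add], ?_⟩
      rw [mulk, beq_f hc', beq_f hd', kn_add, hc, hd]
      rfl

private theorem ev_inj' {u v : XG} (h : ev u = ev v) : u = v := by
  have h1 : ev (u - v) = 1 := by
    rw [sub_eq_add_neg, ev_add, ev_neg, h, mul_inv_cancel₀ (ev_ne_zero v)]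
  exact sub_eq_zero.1 (ev_inj h1)

theorem rep_sub {x y : KU} {c d : ℕ} (hx : Rep x c) (hy : Rep y d) (h : x - y = 0 ∨ InG (x - y)) : Rep (x - y) (subk c d) := by
  rcases hy with ⟨hy, hd⟩ | ⟨v, hy, hd⟩
  · rw [subk, beq_t hd, hy, sub_zero]
    exact hx
  · have hd' : d ≠ 1024 := by
      have := kn_lt v
      omega
    rcases hx with ⟨hx, hc⟩ | ⟨u, hx, hc⟩
    · right
      refine ⟨(0, 0, 0, 0, 0, 1) + v, ?_, ?_⟩
      · rw [hx, hy, ev_add, ev_neg_one]
        ring
      · rw [subk, beq_f hd', beq_t hc, kn_add, hd]
        have h1 : kn (0, 0, 0, 0, 0, 1) = 512 := by decide +kernel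
        rw [h1, add_comm]
        rfl
    · have hc' : c ≠ 1024 := by
        have := kn_lt u
        omega
      by_cases huv : u = v
      · left
        refine ⟨by rw [hx, hy, huv, sub_self], ?_⟩
        rw [subk, beq_f hd', beq_f hc', hc, hd, huv, beq_t rfl]
        rfl
      · right
        have h1 : v - u ∈ FU := by
          refine fu_of_sub ?_
          rw [← hx, ← hy]
          refine h.resolve_left fun h0 => huv (ev_inj' ?_)
          rw [← hx, ← hy]
          exact sub_eq_zero.1 h0
        obtain ⟨g, hg⟩ := fu_om h1
        have h2 := om_ev _ hg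
        have h3 := List.all_eq_true.1 tabs _ hg
        simp only [Bool.and_eq_true, Bool.not_eq_true'] at h3
        obtain ⟨m1, m2, -, m3⟩ := h3
        have h4 : kn v = (kn (v - u) + kn u) % 1024 := by
          rw [← kn_add, sub_add_cancel]
        have l1 := kn_lt u
        have l2 := kn_lt v
        have l3 := kn_lt (v - u)
        have h5 : kn (v - u) ≠ 0 := by
          intro h0
          rw [beq_t h0] at m3
          exact Bool.noConfusion m3
        have h6 : kn u ≠ kn v := by omega
        have h7 : (kn v + 1024 - kn u) % 1024 = kn (v - u) := by omega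
        have h8 : (tab >>> (10 * kn (v - u))) % 1024 = kn g := Nat.eq_of_beq_eq_true m2
        refine ⟨u + g, ?_, ?_⟩
        · have h9 : ev (v - u) * ev u = ev v := by
            rw [← ev_add, sub_add_cancel]
          rw [hx, hy, ev_add, ← h9]
          simp only at h2
          linear_combination (-ev u) * h2
        · rw [subk, beq_f hd', beq_f hc', hc, hd, beq_f h6, h7, m1, h8, kn_add]
          rfl

def okk (c : ℕ) : Bool := Nat.ble c 1024

/-- the search for `s, t, B, C` -/
def chF (s t B C c U tb : ℕ) (F : ℕ) : Bool :=
  !(okk (subk F 0)) || (!(okk (subk (mulk s (subk F B)) (mulk t U))) || (!(okk (subk F t)) || (!(okk (subk F C)) ||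
    (!(okk (subk (mulk s F) C)) || (!(okk (subk F (mulk t C))) || (!(okk (subk (subk F B) (mulk tb 512))) ||
      !(okk (subk c (mulk s (subk F t))))))))))

def ch44 : Bool :=
  KL.all fun s => KL.all fun t => !(Nat.beq ((mask >>> ((s + t) % 1024)) % 2) 1) ||
    ((0 :: KL).all fun B => (1024 :: KL).all fun C =>
      !(okk (subk (subk C 0) (mulk s (subk B 0)))) || (!(okk (subk C (mulk s B))) || (!(okk (subk C B)) ||
        ((1024 :: KL.map fun f => (B + f) % 1024).all fun F =>
          chF s t B C (subk C 0) (subk (subk C 0) (mulk s (subk B 0))) (mulk t (subk B 0)) F))))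

theorem ch44_true : ch44 = true := by
  decide +kernel

private theorem kn_zero : kn 0 = 0 := by
  decide +kernel

private theorem mem_KL {x : XG} (h : x ∈ FU) : kn x ∈ KL := by
  obtain ⟨g, hg⟩ := fu_om h
  have h3 := List.all_eq_true.1 tabs _ hg
  simp only [Bool.and_eq_true] at h3
  have h4 := h3.2.2.1
  rwa [List.contains_eq_mem, decide_eq_true_eq] at h4

private theorem rep_one : Rep 1 0 := Or.inr ⟨0, ev_zero.symm, kn_zero.symm⟩

private theorem rep_neg_one : Rep (-1) 512 := by
  refine Or.inr ⟨(0, 0, 0, 0, 0, 1), ev_neg_one.symm, ?_⟩
  decide +kernel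

private theorem rep_fu {x : KU} (h : InG x) (h1 : InG (1 - x)) : ∃ c ∈ KL, Rep x c := by
  obtain ⟨u, rfl⟩ := h
  exact ⟨kn u, mem_KL (fu_of_one h1), Or.inr ⟨u, rfl, rfl⟩⟩

theorem no44 {s t B C F : KU} (hs : InG s) (hs1 : InG (1 - s)) (ht : InG t) (ht1 : InG (1 - t)) (hst : InG (1 - s * t))
    (hB : InG B) (hB1 : B - 1 = 0 ∨ InG (B - 1)) (hC : C = 0 ∨ InG C) (hC1 : InG (C - 1)) (hF : F = 0 ∨ InG F) (hFB : InG (F - B))
    (h1 : (C - 1) - s * (B - 1) = 0 ∨ InG ((C - 1) - s * (B - 1))) (h2 : C - s * B = 0 ∨ InG (C - s * B))
    (h3 : C - B = 0 ∨ InG (C - B)) (h4 : F - 1 = 0 ∨ InG (F - 1))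
    (h5 : s * (F - B) - t * ((C - 1) - s * (B - 1)) = 0 ∨ InG (s * (F - B) - t * ((C - 1) - s * (B - 1))))
    (h6 : F - t = 0 ∨ InG (F - t)) (h7 : F - C = 0 ∨ InG (F - C)) (h8 : s * F - C = 0 ∨ InG (s * F - C))
    (h9 : F - t * C = 0 ∨ InG (F - t * C)) (h10 : (F - B) - t * (B - 1) * (-1) = 0 ∨ InG ((F - B) - t * (B - 1) * (-1)))
    (h11 : (C - 1) - s * (F - t) = 0 ∨ InG ((C - 1) - s * (F - t))) : False := by
  obtain ⟨s', hs', rs⟩ := rep_fu hs hs1
  obtain ⟨t', ht', rt⟩ := rep_fu ht ht1
  have hm : Nat.beq ((mask >>> ((s' + t') % 1024)) % 2) 1 = true := by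
    have hst0 := rep_mul rs rt
    rcases rs with ⟨rs, -⟩ | ⟨u, rs, rs'⟩
    · exact absurd rs (inG_ne hs)
    rcases rt with ⟨rt, -⟩ | ⟨v, rt, rt'⟩
    · exact absurd rt (inG_ne ht)
    have k1 : u + v ∈ FU := by
      refine fu_of_one ?_
      rwa [ev_add, ← rs, ← rt]
    obtain ⟨g, hg⟩ := fu_om k1
    have k3 := List.all_eq_true.1 tabs _ hg
    simp only [Bool.and_eq_true] at k3
    have k4 := k3.1
    rwa [kn_add, ← rs', ← rt'] at k4
  obtain ⟨B', hB', rB⟩ : ∃ B' ∈ (0 :: KL), Rep B B' := by
    obtain ⟨u, rfl⟩ := hB
    have k1 : 1 - ev u = 0 ∨ InG (1 - ev u) := by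
      rcases hB1 with h | h
      · left
        linear_combination (-1 : KU) * h
      · right
        have h' := inG_neg h
        rwa [neg_sub] at h'
    rcases unit_eq' k1 with k2 | k2
    · exact ⟨0, List.mem_cons_self, Or.inr ⟨u, rfl, by rw [k2, kn_zero]⟩⟩
    · exact ⟨kn u, List.mem_cons_of_mem _ (mem_KL k2), Or.inr ⟨u, rfl, rfl⟩⟩
  have hC1' : InG (1 - C) := by
    have h' := inG_neg hC1
    rwa [neg_sub] at h'
  obtain ⟨C', hC', rC⟩ : ∃ C' ∈ (1024 :: KL), Rep C C' := by
    rcases hC with h | h
    · exact ⟨1024, List.mem_cons_self, Or.inl ⟨h, rfl⟩⟩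
    · obtain ⟨c, hc, hc'⟩ := rep_fu h hC1'
      exact ⟨c, List.mem_cons_of_mem _ hc, hc'⟩
  obtain ⟨F', hF', rF⟩ : ∃ F' ∈ (1024 :: KL.map fun f => (B' + f) % 1024), Rep F F' := by
    rcases hF with h | ⟨w, rfl⟩
    · exact ⟨1024, List.mem_cons_self, Or.inl ⟨h, rfl⟩⟩
    · rcases rB with ⟨rB, -⟩ | ⟨u, rB, rB'⟩
      · exact absurd rB (inG_ne hB)
      · have k1 : w - u ∈ FU := by
          refine fu_of_sub ?_
          have h' := inG_neg hFB
          rwa [neg_sub, rB] at h'
        refine ⟨kn w, List.mem_cons_of_mem _ (List.mem_map.2 ⟨kn (w - u), mem_KL k1, ?_⟩), Or.inr ⟨w, rfl, rfl⟩⟩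
        rw [rB', ← kn_add, add_sub_cancel]
  have rb := rep_sub rB rep_one hB1
  have rc := rep_sub rC rep_one (Or.inr hC1)
  have rU := rep_sub rc (rep_mul rs rb) h1
  have rV := rep_sub rF rB (Or.inr hFB)
  have k1 := rep_le rU
  have k2 := rep_le (rep_sub rC (rep_mul rs rB) h2)
  have k3 := rep_le (rep_sub rC rB h3)
  have k4 := rep_le (rep_sub rF rep_one h4)
  have k5 := rep_le (rep_sub (rep_mul rs rV) (rep_mul rt rU) h5)
  have k6 := rep_le (rep_sub rF rt h6)
  have k7 := rep_le (rep_sub rF rC h7)
  have k8 := rep_le (rep_sub (rep_mul rs rF) rC h8)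
  have k9 := rep_le (rep_sub rF (rep_mul rt rC) h9)
  have k10 := rep_le (rep_sub rV (rep_mul (rep_mul rt rb) rep_neg_one) h10)
  have k11 := rep_le (rep_sub rc (rep_mul rs (rep_sub rF rt h6)) h11)
  have K := List.all_eq_true.1 (List.all_eq_true.1 ch44_true s' hs') t' ht'
  rw [hm, Bool.not_true, Bool.false_or] at K
  have K := List.all_eq_true.1 (List.all_eq_true.1 K B' hB') C' hC'
  unfold okk at K
  rw [k1, k2, k3, Bool.not_true, Bool.false_or, Bool.false_or, Bool.false_or] at K
  have K := List.all_eq_true.1 K F' hF'
  unfold chF okk at K
  rw [k4, k5, k6, k7, k8, k9, k10, k11] at K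
  exact Bool.noConfusion K

end Pool.Agent.QUD
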