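import Pool.Agent.QUD.Cod
import Pool.Agent.QUE.Dt

/-!
# QUD/Mn: subdeterminants of a space with entries in the group
-/

set_option autoImplicit false

noncomputable section

open scoped Classical

namespace Pool.Agent.QUD

open Pool.Agent.FRM Pool.Agent.QUS Pool.Agent.QUE

variable {E : Type} [Fintype E] {Φ : Submodule KU (E → KU)}

/-- Schur complement of the upper left entry -/
theorem det_schur {K : Type} [Field K] {m : ℕ} (A : Matrix (Fin (m + 1)) (Fin (m + 1)) K) (h : A 0 0 ≠ 0) :
    A.det = A 0 0 * (Matrix.of fun k l : Fin m => A k.succ l.succ - A k.succ 0 * (A 0 0)⁻¹ * A 0 l.succ).det := by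
  set c : Fin (m + 1) → K := fun i => if i = 0 then 0 else A i 0 * (A 0 0)⁻¹ with hc
  set B : Matrix (Fin (m + 1)) (Fin (m + 1)) K := Matrix.of fun i j => A i j - c i * A 0 j with hB
  have hc0 : c 0 = 0 := by simp [hc]
  have hB0 : ∀ j, B 0 j = A 0 j := fun j => by simp [hB, hc0]
  have h1 : A.det = B.det := by
    refine Matrix.det_eq_of_forall_row_eq_smul_add_const c 0 hc0 fun i j => ?_
    rw [hB0]
    simp [hB]
  rw [h1, Matrix.det_succ_column_zero, Fin.sum_univ_succ]
  have h2 : ∀ i : Fin m, B i.succ 0 = 0 := by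
    intro i
    have h3 : c i.succ = A i.succ 0 * (A 0 0)⁻¹ := by simp [hc]
    simp only [hB, Matrix.of_apply, h3]
    field_simp
    ring
  have h4 : ∑ i : Fin m, (-1) ^ ((i.succ : Fin (m + 1)) : ℕ) * B i.succ 0 * (B.submatrix (Fin.succAbove i.succ) Fin.succ).det = 0 :=
    Finset.sum_eq_zero fun i _ => by rw [h2, mul_zero, zero_mul]
  rw [h4, add_zero]
  have h5 : B.submatrix (Fin.succAbove 0) Fin.succ = Matrix.of fun k l : Fin m => A k.succ l.succ - A k.succ 0 * (A 0 0)⁻¹ * A 0 l.succ := by
    ext k l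
    have h3 : c k.succ = A k.succ 0 * (A 0 0)⁻¹ := by simp [hc]
    simp only [Matrix.submatrix_apply, Fin.zero_succAbove, hB, Matrix.of_apply, h3]
  rw [h5, hB0]
  simp

theorem minors (hU : ∀ S, IsB Φ S → ∀ b ∈ S, ∀ e, e ∉ S → fv Φ S b e = 0 ∨ InG (fv Φ S b e)) (m : ℕ) :
    ∀ (S : Finset E), IsB Φ S → ∀ (f g : Fin m → E), (∀ k, f k ∈ S) → (∀ k, g k ∉ S) →
      (Matrix.of fun k l => fv Φ S (f k) (g l)).det = 0 ∨ InG (Matrix.of fun k l => fv Φ S (f k) (g l)).det := by
  induction m with
  | zero =>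
    intro S _ f g _ _
    right
    rw [Matrix.det_fin_zero]
    exact inG_one
  | succ m ih =>
    -- the case of a nonzero upper left entry
    have key : ∀ (S : Finset E), IsB Φ S → ∀ (f g : Fin (m + 1) → E), (∀ k, f k ∈ S) → (∀ k, g k ∉ S) → fv Φ S (f 0) (g 0) ≠ 0 →
        (Matrix.of fun k l => fv Φ S (f k) (g l)).det = 0 ∨ InG (Matrix.of fun k l => fv Φ S (f k) (g l)).det := by
      intro S hS f g hf hg h0
      by_cases hd : (Matrix.of fun k l => fv Φ S (f k) (g l)).det = 0
      · exact Or.inl hd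
      right
      have fi : ∀ k : Fin m, f k.succ ≠ f 0 := by
        intro k h
        refine hd (Matrix.det_zero_of_row_eq (i := k.succ) (j := 0) (Fin.succ_ne_zero k) ?_)
        funext l
        simp only [Matrix.of_apply, h]
      have gi : ∀ k : Fin m, g k.succ ≠ g 0 := by
        intro k h
        refine hd (Matrix.det_zero_of_column_eq (i := k.succ) (j := 0) (Fin.succ_ne_zero k) ?_)
        intro l
        simp only [Matrix.of_apply, h]
      have hu : IsUnit (fv Φ S (f 0) (g 0)) := isUnit_iff_ne_zero.2 h0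
      have hS' := piv hS (hf 0) (hg 0) hu
      have h1 := det_schur (Matrix.of fun k l => fv Φ S (f k) (g l)) h0
      have h2 : (Matrix.of fun k l : Fin m => (Matrix.of fun k l => fv Φ S (f k) (g l)) k.succ l.succ -
          (Matrix.of fun k l => fv Φ S (f k) (g l)) k.succ 0 * ((Matrix.of fun k l => fv Φ S (f k) (g l)) 0 0)⁻¹ *
            (Matrix.of fun k l => fv Φ S (f k) (g l)) 0 l.succ) =
          Matrix.of fun k l : Fin m => fv Φ (pv S (f 0) (g 0)) (f k.succ) (g l.succ) := by
        ext k l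
        simp only [Matrix.of_apply]
        rw [piv_old_apply hS (hf 0) (hg 0) hu (hf k.succ) (fi k), sc, Ring.inverse_eq_inv']
      rw [h2] at h1
      have h3 := ih (pv S (f 0) (g 0)) hS' (fun k => f k.succ) (fun k => g k.succ)
        (fun k => mem_pv.2 (Or.inr ⟨fi k, hf _⟩))
        (fun k h => by
          rcases mem_pv.1 h with h | h
          · exact gi k h
          · exact hg _ h.2)
      have h4 : InG (fv Φ S (f 0) (g 0)) := (hU S hS (f 0) (hf 0) (g 0) (hg 0)).resolve_left h0
      rw [h1] at hd ⊢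
      exact inG_mul h4 (h3.resolve_left (mul_ne_zero_iff.1 hd).2)
    intro S hS f g hf hg
    by_cases hd : (Matrix.of fun k l => fv Φ S (f k) (g l)).det = 0
    · exact Or.inl hd
    have h1 : ∃ k, fv Φ S (f k) (g 0) ≠ 0 := by
      by_contra hno
      push Not at hno
      refine hd (Matrix.det_eq_zero_of_column_eq_zero 0 fun k => ?_)
      simp only [Matrix.of_apply, hno k]
    obtain ⟨k, hk⟩ := h1
    have h2 := key S hS (f ∘ Equiv.swap 0 k) g (fun j => hf _) hg (by simpa using hk)
    have h3 : (Matrix.of fun j l => fv Φ S ((f ∘ Equiv.swap 0 k) j) (g l)) =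
        (Matrix.of fun j l => fv Φ S (f j) (g l)).submatrix (Equiv.swap 0 k) id := by
      ext j l
      rfl
    rw [h3, Matrix.det_permute] at h2
    rcases Int.units_eq_one_or (Equiv.Perm.sign (Equiv.swap 0 k)) with h4 | h4
    · rw [h4] at h2
      simpa using h2
    · rw [h4] at h2
      simp only [Units.val_neg, Units.val_one, Int.cast_neg, Int.cast_one, neg_mul, one_mul, neg_eq_zero] at h2
      rcases h2 with h2 | h2
      · exact Or.inl h2
      · right
        have h5 := inG_neg h2
        rwa [neg_neg] at h5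

end Pool.Agent.QUD
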