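import Pool.Agent.QUD.Fr

/-!
# QUD/Mod: models

A model is a list of pairs (point `P`, vector `τ P`).  `lfR z t l`: the form of the model is not diagonal on the five points of `l` after the contraction of the point `z` (with the vector `t`);
the certificate is `∑ (z × P) ⊗ P² = φ ⊗ z²`.  `lfV z l`: the same on the five points of `l` with the auxiliary point `z` (not in the matroid), `∑ (z × P) ⊗ P² = 0`.
-/

set_option autoImplicit false

namespace Pool.Agent.QUD

open Pool.Agent.FRM Pool.Agent.QUE
open Pool.Agent.QU (Fm van spt dg EqOn EqD InV Itv)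

abbrev PT := V3 × V3

def cpS (i j : Fin 3) (z : V3) (l : List PT) : F4 := (l.map fun p => cp i (crs z p.1) * cp j (sqv p.1)).sum

def val (z : V3) (l : List PT) : F4 := (l.map fun p => dot (crs z p.1) p.2).sum

def phz (z : V3) (l : List PT) : V3 :=
  if z.1 = 0 then (if z.2.1 = 0 then (cpS 0 2 z l * z.2.2, cpS 1 2 z l * z.2.2, cpS 2 2 z l * z.2.2)
    else (cpS 0 1 z l * z.2.1, cpS 1 1 z l * z.2.1, cpS 2 1 z l * z.2.1))
  else (cpS 0 0 z l * z.1, cpS 1 0 z l * z.1, cpS 2 0 z l * z.1)

def fin3 : List (Fin 3) := [0, 1, 2]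

def lfV (z : V3) (l : List PT) : Bool :=
  (fin3.all fun i => fin3.all fun j => decide (cpS i j z l = 0)) && decide (val z l ≠ 0)

def lfR0 (z t ph : V3) (l : List PT) : Bool :=
  (fin3.all fun i => fin3.all fun j => decide (cpS i j z l = cp i ph * cp j (sqv z))) &&
    (decide (dot ph z = 0) && decide (val z l + dot ph t ≠ 0))

def lfR (z t : V3) (l : List PT) : Bool := lfR0 z t (phz z l) l

private theorem mem3 (i : Fin 3) : i ∈ fin3 := by
  fin_cases i <;> decide

theorem lfV_iff {z : V3} {l : List PT} (h : lfV z l = true) : (∀ i j, cpS i j z l = 0) ∧ val z l ≠ 0 := by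
  unfold lfV at h
  rw [Bool.and_eq_true, List.all_eq_true] at h
  refine ⟨fun i j => ?_, of_decide_eq_true h.2⟩
  have h1 := h.1 i (mem3 i)
  rw [List.all_eq_true] at h1
  exact of_decide_eq_true (h1 j (mem3 j))

theorem lfR_iff {z t : V3} {l : List PT} (h : lfR z t l = true) : ∃ ph : V3, (∀ i j, cpS i j z l = cp i ph * cp j (sqv z)) ∧
    dot ph z = 0 ∧ val z l + dot ph t ≠ 0 := by
  unfold lfR lfR0 at h
  rw [Bool.and_eq_true, Bool.and_eq_true, List.all_eq_true] at h
  refine ⟨_, fun i j => ?_, of_decide_eq_true h.2.1, of_decide_eq_true h.2.2⟩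
  have h1 := h.1 i (mem3 i)
  rw [List.all_eq_true] at h1
  exact of_decide_eq_true (h1 j (mem3 j))

/-! ### search -/

def sub5 (P2 : PT → PT → Bool) (P3 : PT → PT → PT → Bool) (leaf : List PT → Bool) : ℕ → List PT → List PT → Bool
  | 0, acc, _ => leaf acc
  | _ + 1, _, [] => true
  | n + 1, acc, x :: xs =>
      (!(acc.all fun u => P2 u x && (acc.all fun v => decide (u = v) || P3 u v x)) || sub5 P2 P3 leaf n (x :: acc) xs) &&
        sub5 P2 P3 leaf (n + 1) acc xs

theorem sub5_sound {P2 : PT → PT → Bool} {P3 : PT → PT → PT → Bool} {leaf : List PT → Bool} (n : ℕ) (acc xs : List PT)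
    (h : sub5 P2 P3 leaf n acc xs = true) (l : List PT) (hl : l.Sublist xs) (hn : l.length = n) (hd : (l ++ acc).Nodup)
    (h2 : ∀ u ∈ l ++ acc, ∀ v ∈ l ++ acc, u ≠ v → P2 u v = true)
    (h3 : ∀ u ∈ l ++ acc, ∀ v ∈ l ++ acc, ∀ w ∈ l ++ acc, u ≠ v → u ≠ w → v ≠ w → P3 u v w = true) :
    leaf (l.reverse ++ acc) = true := by
  induction xs generalizing n acc l with
  | nil =>
    have hl0 : l = [] := List.sublist_nil.1 hl
    subst hl0
    simp only [List.length_nil] at hn
    subst hn
    simpa [sub5] using h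
  | cons x xs ih =>
    cases n with
    | zero =>
      have hl0 : l = [] := List.length_eq_zero_iff.1 hn
      subst hl0
      simpa [sub5] using h
    | succ n =>
      rw [sub5, Bool.and_eq_true] at h
      cases hl with
      | cons _ hl => exact ih (n + 1) acc h.2 l hl hn hd h2 h3
      | cons_cons _ hl =>
        rename_i l
        have h4 : (acc.all fun u => P2 u x && (acc.all fun v => decide (u = v) || P3 u v x)) = true := by
          rw [List.all_eq_true]
          intro u hu
          have hx : x ∉ l ++ acc := by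
            rw [List.cons_append] at hd
            exact (List.nodup_cons.1 hd).1
          have hxu : u ≠ x := by
            rintro rfl
            exact hx (List.mem_append_right _ hu)
          rw [Bool.and_eq_true, List.all_eq_true]
          refine ⟨h2 u (List.mem_append_right _ hu) x (List.mem_append_left _ List.mem_cons_self) hxu, ?_⟩
          intro v hv
          by_cases huv : u = v
          · rw [decide_eq_true huv]
            rfl
          · have hxv : v ≠ x := by
              rintro rfl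
              exact hx (List.mem_append_right _ hv)
            rw [h3 u (List.mem_append_right _ hu) v (List.mem_append_right _ hv) x
              (List.mem_append_left _ List.mem_cons_self) huv hxu hxv, Bool.or_true]
        have h5 : sub5 P2 P3 leaf n (x :: acc) xs = true := by
          have h6 := h.1
          rw [h4] at h6
          simpa using h6
        have hp : ∀ y, y ∈ l ++ x :: acc ↔ y ∈ x :: l ++ acc := by
          intro y
          simp only [List.mem_append, List.mem_cons]
          tauto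
        have hd' : (l ++ x :: acc).Nodup := List.nodup_middle.2 hd
        have h7 := ih n (x :: acc) h5 l hl (by simpa using hn) hd'
          (fun u hu v hv => h2 u ((hp u).1 hu) v ((hp v).1 hv))
          (fun u hu v hv w hw => h3 u ((hp u).1 hu) v ((hp v).1 hv) w ((hp w).1 hw))
        rwa [List.reverse_cons, List.append_assoc, List.singleton_append]

/-! ### lists of the points of a set of elements -/

open scoped Classical in
theorem list_of {E : Type} {pts : List PT} (hnd : pts.Nodup) {N : Finset E} {pt : E → PT} (h : ∀ e ∈ N, pt e ∈ pts)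
    (hinj : ∀ e ∈ N, ∀ f ∈ N, pt e = pt f → e = f) : ∃ l : List PT, l.Sublist pts ∧ l.length = N.card ∧ l.Nodup ∧
      (∀ p ∈ l, ∃ e ∈ N, pt e = p) ∧ ∀ f : PT → F4, ∑ e ∈ N, f (pt e) = (l.map f).sum := by
  refine ⟨pts.filter (fun p => decide (p ∈ N.image pt)), List.filter_sublist, ?_, hnd.filter _, ?_, ?_⟩
  · have h1 : (pts.filter (fun p => decide (p ∈ N.image pt))).toFinset = N.image pt := by
      ext p
      rw [List.mem_toFinset, List.mem_filter, decide_eq_true_eq]
      refine ⟨fun h => h.2, fun hp => ⟨?_, hp⟩⟩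
      obtain ⟨e, he, rfl⟩ := Finset.mem_image.1 hp
      exact h e he
    rw [← List.toFinset_card_of_nodup (hnd.filter _), h1, Finset.card_image_of_injOn]
    exact fun e he f hf hef => hinj e he f hf hef
  · intro p hp
    rw [List.mem_filter, decide_eq_true_eq] at hp
    obtain ⟨e, he, hep⟩ := Finset.mem_image.1 hp.2
    exact ⟨e, he, hep⟩
  · intro f
    have h1 : (pts.filter (fun p => decide (p ∈ N.image pt))).toFinset = N.image pt := by
      ext p
      rw [List.mem_toFinset, List.mem_filter, decide_eq_true_eq]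
      refine ⟨fun h => h.2, fun hp => ⟨?_, hp⟩⟩
      obtain ⟨e, he, rfl⟩ := Finset.mem_image.1 hp
      exact h e he
    rw [← List.sum_toFinset f (hnd.filter _), h1, Finset.sum_image]
    exact fun e he f hf hef => hinj e he f hf hef

/-! ### forms which are not diagonal on a box -/

variable {E : Type} [Fintype E] {L : Submodule F4 (E → F4)}

private theorem p3 : ∀ x : F4, x ≠ 0 → x * (x * x) = 1 := by decide

private theorem crs_z : ∀ z v : V3, dot (crs z v) z = 0 := by
  rintro ⟨a, b, c⟩ ⟨x, y, t⟩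
  simp only [dot, crs]
  have h : ∀ x : F4, x + x = 0 := by decide
  have e : (b * t + c * y) * a + (c * x + a * t) * b + (a * y + b * x) * c =
    (a * b * t + a * b * t) + (a * c * y + a * c * y) + (b * c * x + b * c * x) := by ring
  rw [e]
  simp only [h, add_zero]

private theorem crs_v : ∀ z v : V3, dot (crs z v) v = 0 := by
  rintro ⟨a, b, c⟩ ⟨x, y, t⟩
  simp only [dot, crs]
  have h : ∀ x : F4, x + x = 0 := by decide
  have e : (b * t + c * y) * x + (c * x + a * t) * y + (a * y + b * x) * t =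
    (b * t * x + b * t * x) + (c * y * x + c * y * x) + (a * t * y + a * t * y) := by ring
  rw [e]
  simp only [h, add_zero]

private theorem dot_sm2 (x v : V3) (a b : F4) : dot (sm a x) (sm b v) = a * b * dot x v := by
  simp only [dot, sm]
  ring

private theorem cp_sm (i : Fin 3) (a : F4) (v : V3) : cp i (sm a v) = a * cp i v := by
  fin_cases i <;> rfl

private theorem sqv_sm (a : F4) (v : V3) : sqv (sm a v) = sm (a * a) (sqv v) := by
  simp only [sqv, sm, Prod.mk.injEq]
  refine ⟨?_, ?_, ?_⟩ <;> ring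

theorem nd_real (F : Fr L) {τ : E → V3} (hτ : ∀ x e, dot (F.xi (F.cx x)) (τ e) = dot x (τ e)) {pt : E → PT} {mu : E → F4}
    (hv : ∀ e, F.vv e = sm (mu e) (pt e).1) (ht : ∀ e, τ e = sm (mu e * mu e) (pt e).2) {q : Itv E} {z : E} (hzq : z ∈ q.2)
    (hzm : mu z ≠ 0) (hq : ∀ e ∈ q.1, ∃ μ, F.vv e = sm μ (F.vv z)) {N : Finset E} (hN : N ⊆ q.2) (hzN : z ∉ N)
    (hm : ∀ e ∈ N, mu e ≠ 0) {l : List PT} (hl : ∀ f : PT → F4, ∑ e ∈ N, f (pt e) = (l.map f).sum)
    (h : lfR (pt z).1 (pt z).2 l = true) : ¬ EqD L (WW L) q (F.T τ) 0 := by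
  classical
  obtain ⟨ph, h1, h2, h3⟩ := lfR_iff h
  set φ : E → V3 := fun e => if e = z then sm (mu z) ph else if e ∈ N then sm (mu e) (crs (pt z).1 (pt e).1) else 0 with hφ
  have hφz : φ z = sm (mu z) ph := if_pos rfl
  have hφN : ∀ e ∈ N, φ e = sm (mu e) (crs (pt z).1 (pt e).1) := by
    intro e he
    have hez : e ≠ z := by
      rintro rfl
      exact hzN he
    rw [hφ]
    simp only
    rw [if_neg hez, if_pos he]
  have hφo : ∀ e, e ≠ z → e ∉ N → φ e = 0 := by
    intro e h1 h2
    rw [hφ]
    simp only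
    rw [if_neg h1, if_neg h2]
  have hcp0 : ∀ i, cp i (0 : V3) = 0 := fun i => by fin_cases i <;> rfl
  have hsum : ∀ g : E → F4, (∀ e, φ e = 0 → g e = 0) → ∑ e, g e = g z + ∑ e ∈ N, g e := by
    intro g hg
    rw [← Finset.sum_insert hzN]
    symm
    apply Finset.sum_subset (Finset.subset_univ _)
    intro e _ he
    rw [Finset.mem_insert, not_or] at he
    exact hg e (hφo e he.1 he.2)
  refine F.T_nd hτ (z := F.vv z) hq (φ := φ) ?_ ?_ ?_ ?_ ?_
  · intro e he
    refine hφo e ?_ fun h => he (hN h)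
    rintro rfl
    exact he hzq
  · intro e
    rw [hv z]
    by_cases hez : e = z
    · rw [hez, hφz, dot_sm2, h2, mul_zero]
    · by_cases heN : e ∈ N
      · rw [hφN e heN, dot_sm2, crs_z, mul_zero]
      · rw [hφo e hez heN]
        simp [dot]
  · intro e
    rw [hv e]
    by_cases hez : e = z
    · rw [hez, hφz, dot_sm2, h2, mul_zero]
    · by_cases heN : e ∈ N
      · rw [hφN e heN, dot_sm2, crs_v, mul_zero]
      · rw [hφo e hez heN]
        simp [dot]
  · intro i j
    rw [hsum _ fun e he => by rw [he, hcp0, zero_mul]]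
    have e1 : cp i (φ z) * cp j (sqv (F.vv z)) = cp i ph * cp j (sqv (pt z).1) := by
      rw [hφz, hv z, sqv_sm, cp_sm, cp_sm]
      linear_combination (cp i ph * cp j (sqv (pt z).1)) * p3 _ hzm
    have e2 : ∀ e ∈ N, cp i (φ e) * cp j (sqv (F.vv e)) = cp i (crs (pt z).1 (pt e).1) * cp j (sqv (pt e).1) := by
      intro e he
      rw [hφN e he, hv e, sqv_sm, cp_sm, cp_sm]
      linear_combination (cp i (crs (pt z).1 (pt e).1) * cp j (sqv (pt e).1)) * p3 _ (hm e he)
    rw [e1, Finset.sum_congr rfl e2, hl fun p => cp i (crs (pt z).1 p.1) * cp j (sqv p.1), ← h1 i j]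
    exact F4.add_self _
  · rw [hsum _ fun e he => by rw [he]; simp [dot]]
    have e1 : dot (φ z) (τ z) = dot ph (pt z).2 := by
      rw [hφz, ht z, dot_sm2]
      linear_combination (dot ph (pt z).2) * p3 _ hzm
    have e2 : ∀ e ∈ N, dot (φ e) (τ e) = dot (crs (pt z).1 (pt e).1) (pt e).2 := by
      intro e he
      rw [hφN e he, ht e, dot_sm2]
      linear_combination (dot (crs (pt z).1 (pt e).1) (pt e).2) * p3 _ (hm e he)
    rw [e1, Finset.sum_congr rfl e2, hl fun p => dot (crs (pt z).1 p.1) p.2, add_comm]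
    exact h3

theorem nd_virt (F : Fr L) {τ : E → V3} (hτ : ∀ x e, dot (F.xi (F.cx x)) (τ e) = dot x (τ e)) {pt : E → PT} {mu : E → F4}
    (hv : ∀ e, F.vv e = sm (mu e) (pt e).1) (ht : ∀ e, τ e = sm (mu e * mu e) (pt e).2) {q : Itv E}
    (hq : ∀ e ∈ q.1, F.vv e = 0) {N : Finset E} (hN : N ⊆ q.2)
    (hm : ∀ e ∈ N, mu e ≠ 0) {l : List PT} (hl : ∀ f : PT → F4, ∑ e ∈ N, f (pt e) = (l.map f).sum) (z : V3)
    (h : lfV z l = true) : ¬ EqD L (WW L) q (F.T τ) 0 := by
  classical
  obtain ⟨h1, h3⟩ := lfV_iff h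
  set φ : E → V3 := fun e => if e ∈ N then sm (mu e) (crs z (pt e).1) else 0 with hφ
  have hφN : ∀ e ∈ N, φ e = sm (mu e) (crs z (pt e).1) := by
    intro e he
    rw [hφ]
    simp only
    rw [if_pos he]
  have hφo : ∀ e, e ∉ N → φ e = 0 := by
    intro e h2
    rw [hφ]
    simp only
    rw [if_neg h2]
  have hcp0 : ∀ i, cp i (0 : V3) = 0 := fun i => by fin_cases i <;> rfl
  have hsum : ∀ g : E → F4, (∀ e, φ e = 0 → g e = 0) → ∑ e, g e = ∑ e ∈ N, g e := by
    intro g hg
    symm
    apply Finset.sum_subset (Finset.subset_univ _)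
    intro e _ he
    exact hg e (hφo e he)
  refine F.T_nd hτ (z := 0) (fun e he => ⟨1, by rw [hq e he]; rfl⟩) (φ := φ) ?_ ?_ ?_ ?_ ?_
  · exact fun e he => hφo e fun h => he (hN h)
  · intro e
    simp [dot]
  · intro e
    rw [hv e]
    by_cases heN : e ∈ N
    · rw [hφN e heN, dot_sm2, crs_v, mul_zero]
    · rw [hφo e heN]
      simp [dot]
  · intro i j
    rw [hsum _ fun e he => by rw [he, hcp0, zero_mul]]
    have e2 : ∀ e ∈ N, cp i (φ e) * cp j (sqv (F.vv e)) = cp i (crs z (pt e).1) * cp j (sqv (pt e).1) := by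
      intro e he
      rw [hφN e he, hv e, sqv_sm, cp_sm, cp_sm]
      linear_combination (cp i (crs z (pt e).1) * cp j (sqv (pt e).1)) * p3 _ (hm e he)
    rw [Finset.sum_congr rfl e2, hl fun p => cp i (crs z p.1) * cp j (sqv p.1)]
    exact h1 i j
  · rw [hsum _ fun e he => by rw [he]; simp [dot]]
    have e2 : ∀ e ∈ N, dot (φ e) (τ e) = dot (crs z (pt e).1) (pt e).2 := by
      intro e he
      rw [hφN e he, ht e, dot_sm2]
      linear_combination (dot (crs z (pt e).1) (pt e).2) * p3 _ (hm e he)
    rw [Finset.sum_congr rfl e2, hl fun p => dot (crs z p.1) p.2]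
    exact h3

end Pool.Agent.QUD
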