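import Pool.Agent.QUD.Mod
import Pool.Agent.QUD.Fb
import Pool.Agent.QUE.Rb
import Pool.Agent.QUE.Rc

/-!
# QUD/Mod2: a space of rank three whose points are in a model has a form in `V_*`
-/

set_option autoImplicit false

noncomputable section

open scoped Classical

namespace Pool.Agent.QUD

open Pool.Agent.FRM Pool.Agent.QUS Pool.Agent.QUE
open Pool.Agent.QU (Fm van spt dg EqOn EqD InV InVs Itv Rich Sub)

variable {E : Type} [Fintype E] {L : Submodule F4 (E → F4)}

theorem dt_sm (a b c : F4) (u v w : V3) : dt (sm a u) (sm b v) (sm c w) = a * b * c * dt u v w := by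
  simp only [dt, dot, crs, sm]
  ring

omit [Fintype E] in
theorem Fr.eq_zero {F : Fr L} {x : V3} (hF : F.Full) (h : F.cx x = 0) : x = 0 := by
  rw [← hF x, h]
  refine V3_ext fun i => ?_
  rw [Fr.cp_xi, map_zero]
  fin_cases i <;> rfl

omit [Fintype E] in
theorem dt_of_van {F : Fr L} (hF : F.Full) {e f g : E} (h : ∀ v ∈ L, v e = 0 → v f = 0 → v g = 0 → v = 0) :
    dt (F.vv e) (F.vv f) (F.vv g) ≠ 0 := by
  intro h0
  obtain ⟨x, hx, h1, h2, h3⟩ := dt_zero h0
  exact hx (Fr.eq_zero hF (h _ (F.cx_mem x) h1 h2 h3))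

theorem card_three {F : Fr L} (hF : F.Full) {S : Finset E} (hS : IsB L S) : S.card = 3 := by
  have h1 := finrank_eq hS
  rw [← h1]
  let f : L ≃ₗ[F4] (Fin 3 → F4) :=
    { toFun := fun v i => F.x i v.1
      invFun := fun y => ⟨F.cx (y 0, y 1, y 2), F.cx_mem _⟩
      map_add' := fun v w => by
        funext i
        exact map_add _ _ _
      map_smul' := fun a v => by
        funext i
        exact map_smul _ _ _
      left_inv := fun v => by
        apply Subtype.ext
        funext e
        show dot _ _ = _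
        rw [F.ev v.2 e]
        rfl
      right_inv := fun y => by
        funext i
        have h2 := hF (y 0, y 1, y 2)
        have h3 := congrArg (cp i) h2
        rw [Fr.cp_xi] at h3
        show F.x i (F.cx (y 0, y 1, y 2)) = y i
        rw [h3]
        fin_cases i <;> rfl }
  rw [f.finrank_eq, Module.finrank_fin_fun]

/-- the list of auxiliary points -/
def lfVV (hs : List V3) (l : List PT) : Bool := hs.any fun h => lfV h l

def P2z (Q2 : PT → PT → Bool) (z u v : PT) : Bool := decide (dt z.1 u.1 v.1 ≠ 0) && (Q2 u v && (Q2 z u && Q2 z v))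

def P3a (u v w : PT) : Bool := decide (dt u.1 v.1 w.1 ≠ 0)

private theorem rev_sum (l : List PT) (f : PT → F4) : (l.reverse.map f).sum = (l.map f).sum := by
  rw [List.map_reverse, List.sum_reverse]

theorem invs_model {F : Fr L} (hF : F.Full) {pts : List PT} (hnd : pts.Nodup) {hs : List V3} {Q2 : PT → PT → Bool}
    {Q3 : PT → PT → PT → Bool} (ckZ : ∀ z ∈ pts, sub5 (P2z Q2 z) Q3 (lfR z.1 z.2) 5 [] pts = true)
    (ckA : sub5 Q2 P3a (lfVV hs) 5 [] pts = true)
    {pt : E → PT} {mu : E → F4} (hpt : ∀ e, pt e ∈ pts) (hv : ∀ e, F.vv e = sm (mu e) (pt e).1)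
    (h2 : ∀ e f, mu e ≠ 0 → mu f ≠ 0 → pt e ≠ pt f → Q2 (pt e) (pt f) = true)
    (h3 : ∀ e f g, mu e ≠ 0 → mu f ≠ 0 → mu g ≠ 0 → pt e ≠ pt f → pt e ≠ pt g → pt f ≠ pt g → Q3 (pt e) (pt f) (pt g) = true)
    (hI : ∀ x : V3, ∃ w : V3, ∀ e, mu e ≠ 0 → dot x (pt e).1 = 0 → dot x (pt e).2 = dot w (sqv (pt e).1)) :
    ∃ T, InVs (tp L) (∅, Finset.univ) T := by
  set τ : E → V3 := fun e => sm (mu e * mu e) (pt e).2 with hτd
  have hτ : ∀ x e, dot (F.xi (F.cx x)) (τ e) = dot x (τ e) := fun x e => by rw [hF x]
  refine ⟨F.T τ, F.T_inV ?_ _, ?_⟩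
  · intro x
    obtain ⟨w, hw⟩ := hI x
    refine ⟨w, fun e he => ?_⟩
    rw [hv e] at he ⊢
    have e1 : ∀ (x v : V3) (a : F4), dot x (sm a v) = a * dot x v := by
      intro x v a
      simp only [dot, sm]
      ring
    have e2 : sqv (sm (mu e) (pt e).1) = sm (mu e * mu e) (sqv (pt e).1) := by
      simp only [sqv, sm, Prod.mk.injEq]
      refine ⟨?_, ?_, ?_⟩ <;> ring
    rw [hτd]
    simp only
    rw [e1, e2, e1]
    by_cases h0 : mu e = 0
    · rw [h0, zero_mul, zero_mul, zero_mul]
    · rw [e1] at he
      rw [hw e h0 ((mul_eq_zero.1 he).resolve_left h0)]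
  · intro q _ hq hd
    have hmu : ∀ e, F.vv e ≠ 0 → mu e ≠ 0 := by
      intro e he h0
      apply he
      rw [hv e, h0]
      simp [sm]
    have hvv : ∀ {e f g : E}, dt (F.vv e) (F.vv f) (F.vv g) ≠ 0 → mu e ≠ 0 ∧ mu f ≠ 0 ∧ mu g ≠ 0 ∧
        dt (pt e).1 (pt f).1 (pt g).1 ≠ 0 := by
      intro e f g h
      rw [hv e, hv f, hv g, dt_sm] at h
      have h1 := mul_ne_zero_iff.1 h
      have h2 := mul_ne_zero_iff.1 h1.1
      have h3 := mul_ne_zero_iff.1 h2.1
      exact ⟨h3.1, h3.2, h2.2, h1.2⟩
    have dt_uu : ∀ u v : V3, dt u v v = 0 := by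
      intro u v
      simp only [dt, dot, crs]
      linear_combination (u.1) * (F4.add_self (v.2.1 * v.2.2)) + u.2.1 * (F4.add_self (v.1 * v.2.2)) + u.2.2 * (F4.add_self (v.1 * v.2.1))
    have dt_u : ∀ u v : V3, dt u u v = 0 := by
      intro u v
      simp only [dt, dot, crs]
      linear_combination (F4.add_self (u.1 * (u.2.1 * v.2.2))) + (F4.add_self (u.1 * (u.2.2 * v.2.1))) + (F4.add_self (u.2.1 * (u.2.2 * v.1)))
    obtain ⟨S, hS, hc | hc⟩ := block_of_rich hq
    · obtain ⟨a, ha, b, hb, hab, c, hc, e, he, f, hf, k1, k2, k3, k4, k5, k6, w1, w2, w3, hall⟩ := hc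
      have hd' := hall _ hd
      have hr := rich_col hS ha hb hab hc he hf k1 k2 k3 k4 k5 k6 w1 w2 w3
      have hcard := card_three hF hS
      have h4 : (S \ {a, b}).card = 1 := by
        rw [Finset.card_sdiff_of_subset (by
          intro x hx
          rcases Finset.mem_insert.1 hx with rfl | hx
          · exact ha
          · rw [Finset.mem_singleton.1 hx]
            exact hb), Finset.card_pair hab, hcard]
      obtain ⟨z, hz⟩ := Finset.card_eq_one.1 h4
      have hzS : z ∈ S \ {a, b} := by
        rw [hz]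
        exact Finset.mem_singleton_self z
      set q' : Itv E := (S \ {a, b}, S ∪ {c, e, f}) with hq'
      have hSe : S ⊆ q'.2 := Finset.subset_union_left
      obtain ⟨hr1, hr2, hr3⟩ := hr
      have hr4 : rk L q'.2 = rk L q'.1 + 2 ∧ ∀ i ∈ QUB.gs q', ∀ j ∈ QUB.gs q', i ≠ j → rk L (q'.1 ∪ {i, j}) = rk L q'.1 + 2 := by
        rcases hr3 with h | h
        · exact h
        · exfalso
          have e1 : rk L q'.1 = ((S \ {a, b}).card : ℤ) := rk_sub_basis hS Finset.sdiff_subset
          have e2 : rk L q'.2 ≤ (S.card : ℤ) := by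
            unfold rk
            rw [finrank_eq hS]
            omega
          rw [h4] at e1
          have e3 := h.1
          rw [hcard] at e2
          push_cast at e1 e2
          omega
      have hgs : ∀ i ∈ QUB.gs q', ∀ j ∈ QUB.gs q', i ≠ j → dt (F.vv z) (F.vv i) (F.vv j) ≠ 0 := by
        intro i hi j hj hij
        refine dt_of_van hF fun v hv hz0 hi0 hj0 => ?_
        refine hS.1 v hv fun s hs => ?_
        refine van_of_rk (A := q'.1 ∪ {i, j}) (B := q'.2) ?_ ?_ hv ?_ s (hSe hs)
        · intro x hx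
          rcases Finset.mem_union.1 hx with hx | hx
          · exact hSe (Finset.mem_sdiff.1 hx).1
          · rcases Finset.mem_insert.1 hx with rfl | hx
            · exact (Finset.mem_sdiff.1 hi).1
            · rw [Finset.mem_singleton.1 hx]
              exact (Finset.mem_sdiff.1 hj).1
        · rw [hr4.2 i hi j hj hij, hr4.1]
        · intro x hx
          rcases Finset.mem_union.1 hx with hx | hx
          · have hx' : x ∈ ({z} : Finset E) := by
              rw [← hz]
              exact hx
            rw [Finset.mem_singleton.1 hx']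
            exact hz0
          · rcases Finset.mem_insert.1 hx with rfl | hx
            · exact hi0
            · rw [Finset.mem_singleton.1 hx]
              exact hj0
      have hex : ∀ i ∈ QUB.gs q', ∃ j ∈ QUB.gs q', i ≠ j := by
        intro i hi
        have h5 : 1 < (QUB.gs q').card := by
          have h6 : (QUB.gs q').card = 5 := hr2
          omega
        obtain ⟨j, hj, hji⟩ := Finset.exists_mem_ne h5 i
        exact ⟨j, hj, hji.symm⟩
      obtain ⟨i0, hi0⟩ : (QUB.gs q').Nonempty := by
        rw [← Finset.card_pos]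
        have h6 : (QUB.gs q').card = 5 := hr2
        omega
      have hzm : mu z ≠ 0 := by
        obtain ⟨j, hj, hij⟩ := hex i0 hi0
        exact (hvv (hgs i0 hi0 j hj hij)).1
      have hm : ∀ i ∈ QUB.gs q', mu i ≠ 0 := by
        intro i hi
        obtain ⟨j, hj, hij⟩ := hex i hi
        exact (hvv (hgs i hi j hj hij)).2.1
      have hzpt : ∀ i ∈ QUB.gs q', pt z ≠ pt i := by
        intro i hi h
        obtain ⟨j, hj, hij⟩ := hex i hi
        apply (hvv (hgs i hi j hj hij)).2.2.2
        rw [h]
        exact dt_u _ _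
      obtain ⟨l, l1, l2, l3, l4, l5⟩ := list_of hnd (N := QUB.gs q') (pt := pt) (fun i _ => hpt i) fun i hi j hj hij => by
        by_contra hne
        apply (hvv (hgs i hi j hj hne)).2.2.2
        rw [hij]
        exact dt_uu _ _
      have h6 := sub5_sound 5 [] pts (ckZ (pt z) (hpt z)) l l1 (l2.trans hr2) (by simpa using l3)
        (fun u hu v hv huv => by
          rw [List.append_nil] at hu hv
          obtain ⟨i, hi, rfl⟩ := l4 u hu
          obtain ⟨j, hj, rfl⟩ := l4 v hv
          have hij : i ≠ j := fun h => huv (by rw [h])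
          rw [P2z, decide_eq_true (hvv (hgs i hi j hj hij)).2.2.2, h2 i j (hm i hi) (hm j hj) huv,
            h2 z i hzm (hm i hi) (hzpt i hi), h2 z j hzm (hm j hj) (hzpt j hj)]
          rfl)
        (fun u hu v hv w hw huv huw hvw => by
          rw [List.append_nil] at hu hv hw
          obtain ⟨i, hi, rfl⟩ := l4 u hu
          obtain ⟨j, hj, rfl⟩ := l4 v hv
          obtain ⟨k, hk, rfl⟩ := l4 w hw
          exact h3 i j k (hm i hi) (hm j hj) (hm k hk) huv huw hvw)
      rw [List.append_nil] at h6
      have hzq : z ∈ q'.1 := hzS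
      refine nd_real F hτ hv (fun e => rfl) (q := q') (z := z) (hSe (Finset.mem_sdiff.1 hzS).1) hzm ?_
        (N := QUB.gs q') (fun x hx => (Finset.mem_sdiff.1 hx).1) (fun h => (Finset.mem_sdiff.1 h).2 hzq) hm
        (l := l.reverse) (fun g => by rw [l5, rev_sum]) h6 hd'
      intro x hx
      have hx' : x ∈ ({z} : Finset E) := by
        rw [← hz]
        exact hx
      refine ⟨1, ?_⟩
      rw [Finset.mem_singleton.1 hx']
      simp [sm]
    · obtain ⟨a, ha, b, hb, c, hc, hab, hac, hbc, e, he, f, hf, k1, k2, k3, k4, k5, k6, w1, w2, w3, hall⟩ := hc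
      have hd' := hall _ hd
      have hr := rich_row hS ha hb hc hab hac hbc he hf k1 k2 k3 k4 k5 k6 w1 w2 w3
      have hcard := card_three hF hS
      have h4 : (S \ {a, b, c}).card = 0 := by
        rw [Finset.card_sdiff_of_subset (by
          intro x hx
          rcases Finset.mem_insert.1 hx with rfl | hx
          · exact ha
          · rcases Finset.mem_insert.1 hx with rfl | hx
            · exact hb
            · rw [Finset.mem_singleton.1 hx]
              exact hc), hcard, Finset.card_eq_three.2 ⟨a, b, c, hab, hac, hbc, rfl⟩]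
      have h4' := Finset.card_eq_zero.1 h4
      set q' : Itv E := (S \ {a, b, c}, S ∪ {e, f}) with hq'
      have hq1 : q'.1 = ∅ := h4'
      have hSe : S ⊆ q'.2 := Finset.subset_union_left
      obtain ⟨hr1, hr2, hr3⟩ := hr
      have e1 : rk L q'.1 = 0 := by
        have h5 : rk L q'.1 = ((S \ {a, b, c}).card : ℤ) := rk_sub_basis hS Finset.sdiff_subset
        rw [h5, h4]
        rfl
      have e2 : rk L q'.2 = 3 := by
        have h5 : rk L q'.2 = ((S ∩ q'.2).card : ℤ) := rk_eq hS fun x hx hxG => absurd (hSe hx) hxG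
        rw [h5, Finset.inter_eq_left.2 hSe, hcard]
        rfl
      have hr4 : ∀ i ∈ QUB.gs q', ∀ j ∈ QUB.gs q', ∀ k ∈ QUB.gs q', i ≠ j → i ≠ k → j ≠ k →
          rk L (q'.1 ∪ {i, j, k}) = rk L q'.2 := by
        rcases hr3 with h | h
        · exfalso
          have := h.1
          omega
        · intro i hi j hj k hk h1 h2 h3
          rw [h.1]
          exact h.2 i hi j hj k hk h1 h2 h3
      have hgs : ∀ i ∈ QUB.gs q', ∀ j ∈ QUB.gs q', ∀ k ∈ QUB.gs q', i ≠ j → i ≠ k → j ≠ k →
          dt (F.vv i) (F.vv j) (F.vv k) ≠ 0 := by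
        intro i hi j hj k hk hij hik hjk
        refine dt_of_van hF fun v hv hi0 hj0 hk0 => ?_
        refine hS.1 v hv fun s hs => ?_
        refine van_of_rk (A := q'.1 ∪ {i, j, k}) (B := q'.2) ?_ (hr4 i hi j hj k hk hij hik hjk) hv ?_ s (hSe hs)
        · intro x hx
          rcases Finset.mem_union.1 hx with hx | hx
          · exact hSe (Finset.mem_sdiff.1 hx).1
          · rcases Finset.mem_insert.1 hx with rfl | hx
            · exact (Finset.mem_sdiff.1 hi).1
            · rcases Finset.mem_insert.1 hx with rfl | hx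
              · exact (Finset.mem_sdiff.1 hj).1
              · rw [Finset.mem_singleton.1 hx]
                exact (Finset.mem_sdiff.1 hk).1
        · intro x hx
          rcases Finset.mem_union.1 hx with hx | hx
          · rw [hq1] at hx
            exact absurd hx (Finset.notMem_empty x)
          · rcases Finset.mem_insert.1 hx with rfl | hx
            · exact hi0
            · rcases Finset.mem_insert.1 hx with rfl | hx
              · exact hj0
              · rw [Finset.mem_singleton.1 hx]
                exact hk0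
      have h5c : (QUB.gs q').card = 5 := hr2
      have hex : ∀ i ∈ QUB.gs q', ∀ j ∈ QUB.gs q', i ≠ j → ∃ k ∈ QUB.gs q', i ≠ k ∧ j ≠ k := by
        intro i hi j hj hij
        by_contra hno
        push Not at hno
        have h6 : QUB.gs q' ⊆ {i, j} := by
          intro k hk
          rw [Finset.mem_insert, Finset.mem_singleton]
          by_cases hik : i = k
          · exact Or.inl hik.symm
          · exact Or.inr (hno k hk hik).symm
        have h7 := Finset.card_le_card h6
        rw [Finset.card_pair hij] at h7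
        omega
      have hex1 : ∀ i ∈ QUB.gs q', ∃ j ∈ QUB.gs q', i ≠ j := by
        intro i hi
        have h5 : 1 < (QUB.gs q').card := by omega
        obtain ⟨j, hj, hji⟩ := Finset.exists_mem_ne h5 i
        exact ⟨j, hj, hji.symm⟩
      have hm : ∀ i ∈ QUB.gs q', mu i ≠ 0 := by
        intro i hi
        obtain ⟨j, hj, hij⟩ := hex1 i hi
        obtain ⟨k, hk, hik, hjk⟩ := hex i hi j hj hij
        exact (hvv (hgs i hi j hj k hk hij hik hjk)).1
      obtain ⟨l, l1, l2, l3, l4, l5⟩ := list_of hnd (N := QUB.gs q') (pt := pt) (fun i _ => hpt i) fun i hi j hj hij => by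
        by_contra hne
        obtain ⟨k, hk, hik, hjk⟩ := hex i hi j hj hne
        apply (hvv (hgs i hi j hj k hk hne hik hjk)).2.2.2
        rw [hij]
        exact dt_u _ _
      have h6 := sub5_sound 5 [] pts ckA l l1 (l2.trans hr2) (by simpa using l3)
        (fun u hu v hv huv => by
          rw [List.append_nil] at hu hv
          obtain ⟨i, hi, rfl⟩ := l4 u hu
          obtain ⟨j, hj, rfl⟩ := l4 v hv
          exact h2 i j (hm i hi) (hm j hj) huv)
        (fun u hu v hv w hw huv huw hvw => by
          rw [List.append_nil] at hu hv hw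
          obtain ⟨i, hi, rfl⟩ := l4 u hu
          obtain ⟨j, hj, rfl⟩ := l4 v hv
          obtain ⟨k, hk, rfl⟩ := l4 w hw
          exact decide_eq_true (hvv (hgs i hi j hj k hk (fun h => huv (by rw [h])) (fun h => huw (by rw [h]))
            (fun h => hvw (by rw [h])))).2.2.2)
      rw [List.append_nil, lfVV, List.any_eq_true] at h6
      obtain ⟨h, _, h7⟩ := h6
      refine nd_virt F hτ hv (fun e => rfl) (q := q') ?_
        (N := QUB.gs q') (fun x hx => (Finset.mem_sdiff.1 hx).1) hm
        (l := l.reverse) (fun g => by rw [l5, rev_sum]) h h7 hd'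
      intro x hx
      rw [hq1] at hx
      exact absurd hx (Finset.notMem_empty x)

end Pool.Agent.QUD
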