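import Pool.Agent.QUD.Mod

/-!
# QUD/ModA: the model with five points in general position; finite checks

Points: five points `P₁, …, P₅` of a hyperoval of `PG(2, 4)` and the fifteen intersections of two of their joins, computed over `F₄ + F₄ ε` with `P₅ = (1, ω, ω² + ε)`.
-/

set_option autoImplicit false

namespace Pool.Agent.QUD

open Pool.Agent.FRM

def ptsA : List PT :=
  [((.i, .o, .o), (.o, .o, .o)),
   ((.o, .i, .o), (.o, .o, .o)),
   ((.o, .o, .i), (.o, .o, .o)),
   ((.i, .i, .i), (.o, .o, .o)),
   ((.i, .w, .u), (.o, .o, .i)),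
   ((.i, .i, .o), (.o, .o, .o)),
   ((.i, .w, .o), (.o, .o, .o)),
   ((.i, .u, .o), (.o, .u, .o)),
   ((.i, .o, .i), (.o, .o, .o)),
   ((.i, .o, .u), (.o, .o, .i)),
   ((.i, .o, .w), (.o, .o, .u)),
   ((.o, .i, .i), (.o, .o, .o)),
   ((.i, .u, .u), (.w, .o, .o)),
   ((.i, .w, .w), (.o, .o, .o)),
   ((.o, .i, .w), (.o, .o, .w)),
   ((.i, .u, .i), (.o, .w, .o)),
   ((.i, .i, .w), (.o, .o, .w)),
   ((.o, .i, .u), (.o, .o, .u)),
   ((.i, .w, .i), (.o, .o, .o)),
   ((.i, .i, .u), (.o, .o, .i))]

/-- the five points in general position -/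
def arA : List V3 := [(.i, .o, .o), (.o, .i, .o), (.o, .o, .i), (.i, .i, .i), (.i, .w, .u)]

/-- the sixth point of the hyperoval -/
def hA : V3 := (.i, .u, .w)

/-- the lines through the sixth point -/
def lnE : List V3 := [(.o, .i, .w), (.i, .o, .u), (.i, .w, .o), (.i, .u, .w), (.i, .i, .i)]

/-- the lines which miss the hyperoval -/
def lnX : List V3 := [(.i, .i, .w), (.i, .i, .u), (.i, .w, .i), (.i, .w, .w), (.i, .u, .i), (.i, .u, .u)]

def f4L : List F4 := [.o, .i, .w, .u]

def allV : List V3 := f4L.flatMap fun a => f4L.flatMap fun b => f4L.map fun c => (a, b, c)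

theorem mem_allV : ∀ x : V3, x ∈ allV := by
  rintro ⟨a, b, c⟩
  cases a <;> cases b <;> cases c <;> decide

/-- two points which are not on a common line through the sixth point, except for the five points -/
def Q2A (u v : PT) : Bool :=
  arA.contains u.1 || (arA.contains v.1 || !(lnE.any fun y => decide (dot y u.1 = 0) && decide (dot y v.1 = 0)))

/-- three points which are not on a line which misses the hyperoval -/
def Q3A (u v w : PT) : Bool :=
  !(lnX.any fun y => decide (dot y u.1 = 0) && (decide (dot y v.1 = 0) && decide (dot y w.1 = 0)))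

def P2zA (z u v : PT) : Bool := decide (dt z.1 u.1 v.1 ≠ 0) && (Q2A u v && (Q2A z u && Q2A z v))

def P3aA (u v w : PT) : Bool := decide (dt u.1 v.1 w.1 ≠ 0)

def lfA (l : List PT) : Bool := allV.any fun h => lfV h l

theorem ckZA : (ptsA.all fun z => sub5 (P2zA z) Q3A (lfR z.1 z.2) 5 [] ptsA) = true := by
  decide +kernel

theorem ckAA : sub5 Q2A P3aA lfA 5 [] ptsA = true := by
  decide +kernel

/-- `w` works for the line `x` and the point `p` -/
def okw (x w : V3) (p : PT) : Bool := !(decide (dot x p.1 = 0)) || decide (dot x p.2 = dot w (sqv p.1))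

theorem lineA : (allV.all fun x => (allV.any fun w => ptsA.all fun p => okw x w p) ||
    ((lnE ++ lnX).any fun y => f4L.any fun m => decide (x = sm m y))) = true := by
  decide +kernel

theorem pairA : ((lnE ++ lnX).all fun y => ptsA.all fun p => ptsA.all fun q => allV.any fun w => okw y w p && okw y w q) = true := by
  decide +kernel

theorem tripE : (lnE.all fun y => ptsA.all fun p => !(decide (dot y p.1 = 0)) || (ptsA.all fun q => !(decide (dot y q.1 = 0)) ||
    (ptsA.all fun r => !(decide (dot y r.1 = 0)) || (decide (p = q) || (decide (p = r) || (decide (q = r) ||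
      (!(Q2A p q) || (!(Q2A p r) || !(Q2A q r))))))))) = true := by
  decide +kernel

theorem normA : (allV.all fun v => decide (v = 0) || ((f4L.any fun m => decide (m ≠ 0) && decide (v = sm m hA)) ||
    ptsA.any fun p => f4L.any fun m => decide (m ≠ 0) && decide (v = sm m p.1))) = true := by
  decide +kernel

end Pool.Agent.QUD
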