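import Pool.Agent.QUD.ModA
import Pool.Agent.QUD.Mod2

/-!
# QUD/ModB: spaces of rank three which are covered by two lines
-/

set_option autoImplicit false

namespace Pool.Agent.QUD

open Pool.Agent.FRM

def ptsB : List PT :=
  [((.i, .o, .o), (.o, .o, .o)),
   ((.i, .i, .o), (.o, .i, .o)),
   ((.i, .w, .o), (.o, .i, .o)),
   ((.i, .u, .o), (.o, .i, .o)),
   ((.o, .i, .o), (.o, .o, .o)),
   ((.i, .o, .i), (.o, .o, .i)),
   ((.i, .o, .w), (.o, .o, .i)),
   ((.i, .o, .u), (.o, .o, .i)),
   ((.o, .o, .i), (.o, .o, .o))]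

def yes2 (_ _ : PT) : Bool := true

def yes3 (_ _ _ : PT) : Bool := true

theorem ckZB : (ptsB.all fun z => sub5 (P2z yes2 z) yes3 (lfR z.1 z.2) 5 [] ptsB) = true := by
  decide +kernel

theorem ckAB : sub5 yes2 P3a (lfVV []) 5 [] ptsB = true := by
  decide +kernel

theorem lineB : (allV.all fun x => allV.any fun w => ptsB.all fun p => okw x w p) = true := by
  decide +kernel

theorem normB : (allV.all fun v => !(decide (v.2.1 = 0) || decide (v.2.2 = 0)) || (decide (v = 0) ||
    ptsB.any fun p => f4L.any fun m => decide (m ≠ 0) && decide (v = sm m p.1))) = true := by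
  decide +kernel

end Pool.Agent.QUD
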