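import Pool.Agent.QUD.ModA

/-!
# QUD/ModP: the excluded configurations in the model of ModA
-/

set_option autoImplicit false

namespace Pool.Agent.QUD

open Pool.Agent.FRM

def Z (u v w : V3) : Bool := decide (dt u v w = 0)

/-- no three of the five points are collinear -/
def arc5 (a b c d e : V3) : Bool :=
  !(Z a b c) && (!(Z a b d) && (!(Z a c d) && (!(Z b c d) && (!(Z a b e) && (!(Z a c e) && (!(Z b c e) &&
    (!(Z a d e) && (!(Z b d e) && !(Z c d e)))))))))

def patH (q x : V3) : Bool :=
  arA.any fun a => arA.any fun b => Z a b q && (arA.any fun c => Z a c x && (arA.any fun d => (Z c d q && Z b d x) &&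
    (arA.any fun e => (arc5 a b c d e && Z e q x) && (!(Z a c q) && (!(Z b c q) && (!(Z a b x) && !(Z b c x)))))))

def patX (x y z : V3) : Bool :=
  arA.any fun a => arA.any fun b => Z a b x && (arA.any fun c => Z a c y && (arA.any fun d => (Z c d x && Z a d z) &&
    (arA.any fun e => (Z b e y && (Z c e z && arc5 a b c d e)) && ((!(Z a c x) && (!(Z b c x) && (!(Z a b y) && !(Z b c y)))) &&
      (!(Z a b z) && (!(Z a c z) && !(Z b c z)))))))

def patXX (u v w : V3) : Bool :=
  patX u v w || (patX u w v || (patX v u w || (patX v w u || (patX w u v || patX w v u))))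

theorem ckH : (ptsA.all fun u => ptsA.all fun v => decide (u = v) || (Q2A u v || patH u.1 v.1)) = true := by
  decide +kernel

theorem ckX : (ptsA.all fun u => ptsA.all fun v => ptsA.all fun w => (decide (u = v) || (decide (u = w) || decide (v = w))) || (Q3A u v w ||
    patXX u.1 v.1 w.1)) = true := by
  decide +kernel

/-- the six points of the hyperoval -/
theorem ck6 : (arA.all fun a => arA.all fun b => decide (a = b) || !(Z a b hA)) = true := by
  decide +kernel

theorem ck5 : arc5 (.i, .o, .o) (.o, .i, .o) (.o, .o, .i) (.i, .i, .i) (.i, .w, .u) = true := by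
  decide +kernel

end Pool.Agent.QUD
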