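import Pool.Agent.QUD.ModP
import Pool.Agent.QUD.Mod2
import Pool.Agent.QUD.Geo

/-!
# QUD/RA: spaces of rank three with five points in general position have a form in `V_*`
-/

set_option autoImplicit false

noncomputable section

open scoped Classical

namespace Pool.Agent.QUD

open Pool.Agent.FRM Pool.Agent.QUS Pool.Agent.QUE
open Pool.Agent.QU (Fm van spt dg EqOn EqD InV InVs Itv Rich Sub)

variable {E : Type} [Fintype E] {L : Submodule F4 (E → F4)} {Φ : Submodule KU (E → KU)}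

theorem Z_of (u v w : V3) : Z u v w = false ↔ dt u v w ≠ 0 := by
  unfold Z
  rw [decide_eq_false_iff_not]

theorem Z_of' (u v w : V3) : Z u v w = true ↔ dt u v w = 0 := by
  unfold Z
  rw [decide_eq_true_eq]

/-- the element `x` is at the point `P` -/
def At (F : Fr L) (x : E) (P : V3) : Prop := ∃ m, m ≠ 0 ∧ F.vv x = sm m P

theorem b3_at {F : Fr L} (hF : F.Full) {x y z : E} {P Q R : V3} (hx : At F x P) (hy : At F y Q) (hz : At F z R) :
    B3 L x y z ↔ dt P Q R ≠ 0 := by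
  obtain ⟨a, ha, h1⟩ := hx
  obtain ⟨b, hb, h2⟩ := hy
  obtain ⟨c, hc, h3⟩ := hz
  rw [Fr.b3_iff hF, h1, h2, h3, dt_sm]
  constructor
  · intro h h0
    rw [h0, mul_zero] at h
    exact h rfl
  · intro h
    exact mul_ne_zero (mul_ne_zero (mul_ne_zero ha hb) hc) h

theorem arc5_iff {a b c d e : V3} (h : arc5 a b c d e = true) : dt a b c ≠ 0 ∧ dt a b d ≠ 0 ∧ dt a c d ≠ 0 ∧ dt b c d ≠ 0 ∧
    dt a b e ≠ 0 ∧ dt a c e ≠ 0 ∧ dt b c e ≠ 0 ∧ dt a d e ≠ 0 ∧ dt b d e ≠ 0 ∧ dt c d e ≠ 0 := by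
  simpa only [arc5, Bool.and_eq_true, Bool.not_eq_true', Z_of] using h

theorem no_patH (hB : ∀ S, IsB Φ S ↔ IsB L S)
    (hU : ∀ S, IsB Φ S → ∀ b ∈ S, ∀ e, e ∉ S → fv Φ S b e = 0 ∨ InG (fv Φ S b e)) {F : Fr L} (hF : F.Full)
    (har : ∀ P ∈ arA, ∃ x, At F x P) {q x : E} {Q X : V3} (hq : At F q Q) (hx : At F x X) (h : patH Q X = true) : False := by
  simp only [patH, List.any_eq_true, Bool.and_eq_true, Bool.not_eq_true', Z_of, Z_of'] at h
  obtain ⟨a, ha, b, hb, z1, c, hc, z2, d, hd, ⟨z3, z4⟩, e, he, ⟨h5, z5⟩, n1, n2, n3, n4⟩ := h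
  obtain ⟨a', ha'⟩ := har a ha
  obtain ⟨b', hb'⟩ := har b hb
  obtain ⟨c', hc'⟩ := har c hc
  obtain ⟨d', hd'⟩ := har d hd
  obtain ⟨e', he'⟩ := har e he
  obtain ⟨k1, k2, k3, k4, k5, k6, k7, k8, k9, k10⟩ := arc5_iff h5
  have no : ∀ {x y z : E} {P Q R : V3}, At F x P → At F y Q → At F z R → dt P Q R = 0 → ¬ B3 L x y z := by
    intro x y z P Q R hx hy hz h0 h
    exact (b3_at hF hx hy hz).1 h h0
  exact ex_half hB hU ((b3_at hF ha' hb' hc').2 k1) ((b3_at hF ha' hb' hd').2 k2) ((b3_at hF ha' hc' hd').2 k3)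
    ((b3_at hF hb' hc' hd').2 k4) ((b3_at hF ha' hb' he').2 k5) ((b3_at hF ha' hc' he').2 k6)
    ((b3_at hF hb' hc' he').2 k7) ((b3_at hF ha' hd' he').2 k8) ((b3_at hF hb' hd' he').2 k9)
    ((b3_at hF hc' hd' he').2 k10) (no ha' hb' hq z1) (no hc' hd' hq z3) ((b3_at hF ha' hc' hq).2 n1)
    ((b3_at hF hb' hc' hq).2 n2) (no ha' hc' hx z2) (no hb' hd' hx z4) ((b3_at hF ha' hb' hx).2 n3)
    ((b3_at hF hb' hc' hx).2 n4) (no he' hq hx z5)

private theorem no_patX (hB : ∀ S, IsB Φ S ↔ IsB L S)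
    (hU : ∀ S, IsB Φ S → ∀ b ∈ S, ∀ e, e ∉ S → fv Φ S b e = 0 ∨ InG (fv Φ S b e)) {F : Fr L} (hF : F.Full)
    (har : ∀ P ∈ arA, ∃ x, At F x P) {x y z : E} {X Y W : V3} (hx : At F x X) (hy : At F y Y) (hz : At F z W)
    (h0 : dt X Y W = 0) (h : patX X Y W = true) : False := by
  simp only [patX, List.any_eq_true, Bool.and_eq_true, Bool.not_eq_true', Z_of, Z_of'] at h
  obtain ⟨a, ha, b, hb, z1, c, hc, z2, d, hd, ⟨z3, z4⟩, e, he, ⟨z5, z6, h5⟩, ⟨n1, n2, n3, n4⟩, n5, n6, n7⟩ := h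
  obtain ⟨a', ha'⟩ := har a ha
  obtain ⟨b', hb'⟩ := har b hb
  obtain ⟨c', hc'⟩ := har c hc
  obtain ⟨d', hd'⟩ := har d hd
  obtain ⟨e', he'⟩ := har e he
  obtain ⟨k1, k2, k3, k4, k5, k6, k7, k8, k9, k10⟩ := arc5_iff h5
  have no : ∀ {x y z : E} {P Q R : V3}, At F x P → At F y Q → At F z R → dt P Q R = 0 → ¬ B3 L x y z := by
    intro x y z P Q R hx hy hz h0 h
    exact (b3_at hF hx hy hz).1 h h0
  exact ex_ext hB hU ((b3_at hF ha' hb' hc').2 k1) ((b3_at hF ha' hb' hd').2 k2) ((b3_at hF ha' hc' hd').2 k3)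
    ((b3_at hF hb' hc' hd').2 k4) ((b3_at hF ha' hb' he').2 k5) ((b3_at hF ha' hc' he').2 k6)
    ((b3_at hF hb' hc' he').2 k7) ((b3_at hF ha' hd' he').2 k8) ((b3_at hF hb' hd' he').2 k9)
    ((b3_at hF hc' hd' he').2 k10) (no ha' hb' hx z1) (no hc' hd' hx z3) ((b3_at hF ha' hc' hx).2 n1)
    ((b3_at hF hb' hc' hx).2 n2) (no ha' hc' hy z2) (no hb' he' hy z5) ((b3_at hF ha' hb' hy).2 n3)
    ((b3_at hF hb' hc' hy).2 n4) (no ha' hd' hz z4) (no hc' he' hz z6) ((b3_at hF ha' hb' hz).2 n5)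
    ((b3_at hF ha' hc' hz).2 n6) ((b3_at hF hb' hc' hz).2 n7) (no hx hy hz h0)

theorem no_hA (hB : ∀ S, IsB Φ S ↔ IsB L S)
    (hU : ∀ S, IsB Φ S → ∀ b ∈ S, ∀ e, e ∉ S → fv Φ S b e = 0 ∨ InG (fv Φ S b e)) {F : Fr L} (hF : F.Full)
    (har : ∀ P ∈ arA, ∃ x, At F x P) {x : E} (hx : At F x hA) : False := by
  obtain ⟨a, ha⟩ := har (.i, .o, .o) (by decide)
  obtain ⟨b, hb⟩ := har (.o, .i, .o) (by decide)
  obtain ⟨c, hc⟩ := har (.o, .o, .i) (by decide)
  obtain ⟨d, hd⟩ := har (.i, .i, .i) (by decide)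
  obtain ⟨e, he⟩ := har (.i, .w, .u) (by decide)
  obtain ⟨k1, k2, k3, k4, k5, k6, k7, k8, k9, k10⟩ := arc5_iff ck5
  have k : ∀ {x y z : E} {P Q R : V3}, At F x P → At F y Q → At F z R → dt P Q R ≠ 0 → B3 L x y z := by
    intro x y z P Q R hx hy hz h0
    exact (b3_at hF hx hy hz).2 h0
  refine ex_36 hB hU (k ha hb hc k1) (k ha hb hd k2) (k ha hc hd k3) (k hb hc hd k4) (k ha hb he k5) (k ha hc he k6)
    (k hb hc he k7) (k ha hb hx ?_) (k ha hc hx ?_) (k hb hc hx ?_) (k ha hd he k8) (k hb hd he k9) (k hc hd he k10)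
    (k ha hd hx ?_) (k hb hd hx ?_) (k hc hd hx ?_) (k ha he hx ?_) (k hb he hx ?_) (k hc he hx ?_) (k hd he hx ?_) <;>
  decide

private theorem dot_smr (x v : V3) (a : F4) : dot x (sm a v) = a * dot x v := by
  simp only [dot, sm]
  ring

private theorem dot_sml (x v : V3) (a : F4) : dot (sm a x) v = a * dot x v := by
  simp only [dot, sm]
  ring

private theorem ln_dt {y : V3} (hy : y ∈ lnX) {u v w : V3} (h1 : dot y u = 0) (h2 : dot y v = 0) (h3 : dot y w = 0) : dt u v w = 0 := by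
  by_contra h
  have h0 := dt_ne h h1 h2 h3
  rw [h0] at hy
  revert hy
  decide

theorem rA {F : Fr L} (hF : F.Full) (hB : ∀ S, IsB Φ S ↔ IsB L S)
    (hU : ∀ S, IsB Φ S → ∀ b ∈ S, ∀ e, e ∉ S → fv Φ S b e = 0 ∨ InG (fv Φ S b e))
    (har : ∀ P ∈ arA, ∃ x, ∃ m, m ≠ 0 ∧ F.vv x = sm m P) : ∃ T, InVs (tp L) (∅, Finset.univ) T := by
  have h1 : ∀ e, ∃ p, ∃ m, p ∈ ptsA ∧ F.vv e = sm m p.1 := by
    intro e
    have h := List.all_eq_true.1 normA (F.vv e) (mem_allV _)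
    simp only [Bool.or_eq_true, decide_eq_true_eq, List.any_eq_true, Bool.and_eq_true] at h
    rcases h with h | ⟨m, -, hm, h⟩ | ⟨p, hp, m, -, hm, h⟩
    · exact ⟨((.i, .o, .o), (.o, .o, .o)), 0, by decide, by rw [h]; decide⟩
    · exact (no_hA hB hU hF har ⟨m, hm, h⟩).elim
    · exact ⟨p, m, hp, h⟩
  choose pt mu hpt hv using h1
  have hat : ∀ e, mu e ≠ 0 → At F e (pt e).1 := fun e he => ⟨mu e, he, hv e⟩
  have h2 : ∀ e f, mu e ≠ 0 → mu f ≠ 0 → pt e ≠ pt f → Q2A (pt e) (pt f) = true := by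
    intro e f he hf hne
    by_contra hno
    rw [Bool.not_eq_true] at hno
    have h := List.all_eq_true.1 (List.all_eq_true.1 ckH (pt e) (hpt e)) (pt f) (hpt f)
    rw [hno, decide_eq_false hne, Bool.false_or, Bool.false_or] at h
    exact no_patH hB hU hF har (hat e he) (hat f hf) h
  have h3 : ∀ e f g, mu e ≠ 0 → mu f ≠ 0 → mu g ≠ 0 → pt e ≠ pt f → pt e ≠ pt g → pt f ≠ pt g →
      Q3A (pt e) (pt f) (pt g) = true := by
    intro e f g he hf hg n1 n2 n3
    by_contra hno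
    rw [Bool.not_eq_true] at hno
    have h := List.all_eq_true.1 (List.all_eq_true.1 (List.all_eq_true.1 ckX (pt e) (hpt e)) (pt f) (hpt f)) (pt g) (hpt g)
    rw [hno, decide_eq_false n1, decide_eq_false n2, decide_eq_false n3] at h
    simp only [Bool.false_or, patXX, Bool.or_eq_true] at h
    have hno' := hno
    unfold Q3A at hno'
    rw [Bool.not_eq_false', List.any_eq_true] at hno'
    obtain ⟨y, hy, hy'⟩ := hno'
    rw [Bool.and_eq_true, Bool.and_eq_true, decide_eq_true_eq, decide_eq_true_eq, decide_eq_true_eq] at hy'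
    obtain ⟨y1, y2, y3⟩ := hy'
    have ae := hat e he
    have af := hat f hf
    have ag := hat g hg
    rcases h with h | h | h | h | h | h
    · exact no_patX hB hU hF har ae af ag (ln_dt hy y1 y2 y3) h
    · exact no_patX hB hU hF har ae ag af (ln_dt hy y1 y3 y2) h
    · exact no_patX hB hU hF har af ae ag (ln_dt hy y2 y1 y3) h
    · exact no_patX hB hU hF har af ag ae (ln_dt hy y2 y3 y1) h
    · exact no_patX hB hU hF har ag ae af (ln_dt hy y3 y1 y2) h
    · exact no_patX hB hU hF har ag af ae (ln_dt hy y3 y2 y1) h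
  have hnd : ptsA.Nodup := by decide +kernel
  refine invs_model hF hnd (hs := allV) (Q2 := Q2A) (Q3 := Q3A) (fun z hz => List.all_eq_true.1 ckZA z hz) ckAA hpt hv h2 h3 ?_
  intro x
  have hx := List.all_eq_true.1 lineA x (mem_allV x)
  rw [Bool.or_eq_true, List.any_eq_true, List.any_eq_true] at hx
  rcases hx with ⟨w, -, hw⟩ | ⟨y, hy, hxy⟩
  · refine ⟨w, fun e he h0 => ?_⟩
    have h := List.all_eq_true.1 hw (pt e) (hpt e)
    rw [okw, h0, decide_eq_true rfl, Bool.not_true, Bool.false_or, decide_eq_true_eq] at h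
    exact h
  · rw [List.any_eq_true] at hxy
    obtain ⟨m, -, hm⟩ := hxy
    rw [decide_eq_true_eq] at hm
    have h4 : ∀ e f g, mu e ≠ 0 → mu f ≠ 0 → mu g ≠ 0 → pt e ≠ pt f → pt e ≠ pt g → pt f ≠ pt g →
        dot y (pt e).1 = 0 → dot y (pt f).1 = 0 → dot y (pt g).1 = 0 → False := by
      intro e f g he hf hg n1 n2 n3 y1 y2 y3
      rcases List.mem_append.1 hy with hy | hy
      · have h := List.all_eq_true.1 tripE y hy
        have h := List.all_eq_true.1 h (pt e) (hpt e)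
        rw [decide_eq_true y1, Bool.not_true, Bool.false_or] at h
        have h := List.all_eq_true.1 h (pt f) (hpt f)
        rw [decide_eq_true y2, Bool.not_true, Bool.false_or] at h
        have h := List.all_eq_true.1 h (pt g) (hpt g)
        rw [decide_eq_true y3, Bool.not_true, Bool.false_or, decide_eq_false n1, decide_eq_false n2, decide_eq_false n3,
          h2 e f he hf n1, h2 e g he hg n2, h2 f g hf hg n3] at h
        simp at h
      · have h := h3 e f g he hf hg n1 n2 n3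
        unfold Q3A at h
        rw [Bool.not_eq_true', List.any_eq_false] at h
        exact h y hy (by rw [decide_eq_true y1, decide_eq_true y2, decide_eq_true y3]; rfl)
    have h5 : ∃ p ∈ ptsA, ∃ q ∈ ptsA, ∀ e, mu e ≠ 0 → dot y (pt e).1 = 0 → pt e = p ∨ pt e = q := by
      by_cases c1 : ∃ e, mu e ≠ 0 ∧ dot y (pt e).1 = 0
      · obtain ⟨e, he, hye⟩ := c1
        by_cases c2 : ∃ f, mu f ≠ 0 ∧ dot y (pt f).1 = 0 ∧ pt e ≠ pt f
        · obtain ⟨f, hf, hyf, hef⟩ := c2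
          refine ⟨pt e, hpt e, pt f, hpt f, fun g hg hyg => ?_⟩
          by_contra hno
          rw [not_or] at hno
          exact h4 e f g he hf hg hef (Ne.symm hno.1) (Ne.symm hno.2) hye hyf hyg
        · refine ⟨pt e, hpt e, pt e, hpt e, fun g hg hyg => Or.inl ?_⟩
          by_contra hno
          exact c2 ⟨g, hg, hyg, fun h => hno h.symm⟩
      · refine ⟨((.i, .o, .o), (.o, .o, .o)), by decide, ((.i, .o, .o), (.o, .o, .o)), by decide, fun g hg hyg => ?_⟩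
        exact (c1 ⟨g, hg, hyg⟩).elim
    obtain ⟨p, hp, q, hq, hpq⟩ := h5
    have h6 := List.all_eq_true.1 (List.all_eq_true.1 (List.all_eq_true.1 pairA y hy) p hp) q hq
    rw [List.any_eq_true] at h6
    obtain ⟨w, -, hw⟩ := h6
    rw [Bool.and_eq_true] at hw
    refine ⟨sm m w, fun e he h0 => ?_⟩
    rw [hm, dot_sml] at h0 ⊢
    rw [dot_sml]
    by_cases hm0 : m = 0
    · rw [hm0, zero_mul, zero_mul]
    · have h7 : dot y (pt e).1 = 0 := (mul_eq_zero.1 h0).resolve_left hm0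
      rcases hpq e he h7 with h8 | h8
      · have h9 := hw.1
        rw [okw, ← h8, h7, decide_eq_true rfl, Bool.not_true, Bool.false_or, decide_eq_true_eq] at h9
        rw [h9]
      · have h9 := hw.2
        rw [okw, ← h8, h7, decide_eq_true rfl, Bool.not_true, Bool.false_or, decide_eq_true_eq] at h9
        rw [h9]

end Pool.Agent.QUD
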