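import Pool.Agent.QUD.RA

/-!
# QUD/RB: the frame of five points in general position
-/

set_option autoImplicit false

noncomputable section

open scoped Classical

namespace Pool.Agent.QUD

open Pool.Agent.FRM Pool.Agent.QUS Pool.Agent.QUE
open Pool.Agent.QU (InVs)

variable {E : Type} [Fintype E] {L : Submodule F4 (E → F4)} {Φ : Submodule KU (E → KU)}

private theorem inv_mul {x : F4} (h : x ≠ 0) : x⁻¹ * x = 1 := inv_mul_cancel₀ h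

theorem frame_of_ac {a b c d e : E} (h : Ac L a b c d e) : ∃ F : Fr L, F.Full ∧ ∀ P ∈ arA, ∃ x, ∃ m, m ≠ 0 ∧ F.vv x = sm m P := by
  obtain ⟨abc, abd, acd, bcd, abe, ace, bce, ade, bde, cde⟩ := h
  obtain ⟨F0, hF0, ha, hb, hc⟩ := exists_full abc
  have q1 := (Fr.b3_iff hF0).1 bcd
  have q2 := (Fr.b3_iff hF0).1 acd
  have q3 := (Fr.b3_iff hF0).1 abd
  obtain ⟨⟨p, q, r⟩, hd⟩ : ∃ v, F0.vv d = v := ⟨_, rfl⟩
  rw [hb, hc, hd] at q1
  rw [ha, hc, hd] at q2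
  rw [ha, hb, hd] at q3
  have p0 : p ≠ 0 := by
    intro h
    apply q1
    simp [dt, dot, crs, h]
  have q0 : q ≠ 0 := by
    intro h
    apply q2
    simp [dt, dot, crs, h]
  have r0 : r ≠ 0 := by
    intro h
    apply q3
    simp [dt, dot, crs, h]
  obtain ⟨F1, hF1, hv1⟩ := Fr.scale hF0 (k := (p⁻¹, q⁻¹, r⁻¹)) (inv_ne_zero p0) (inv_ne_zero q0) (inv_ne_zero r0)
  have ha1 : F1.vv a = (p⁻¹, 0, 0) := by
    rw [hv1, ha]
    simp
  have hb1 : F1.vv b = (0, q⁻¹, 0) := by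
    rw [hv1, hb]
    simp
  have hc1 : F1.vv c = (0, 0, r⁻¹) := by
    rw [hv1, hc]
    simp
  have hd1 : F1.vv d = (1, 1, 1) := by
    rw [hv1, hd]
    simp [p0, q0, r0]
  obtain ⟨⟨s, t, u⟩, he⟩ : ∃ v, F1.vv e = v := ⟨_, rfl⟩
  have s1 := (Fr.b3_iff hF1).1 bce
  have s2 := (Fr.b3_iff hF1).1 ace
  have s3 := (Fr.b3_iff hF1).1 abe
  have s4 := (Fr.b3_iff hF1).1 ade
  have s5 := (Fr.b3_iff hF1).1 bde
  have s6 := (Fr.b3_iff hF1).1 cde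
  rw [hb1, hc1, he] at s1
  rw [ha1, hc1, he] at s2
  rw [ha1, hb1, he] at s3
  rw [ha1, hd1, he] at s4
  rw [hb1, hd1, he] at s5
  rw [hc1, hd1, he] at s6
  have s0 : s ≠ 0 := by
    intro h
    apply s1
    simp [dt, dot, crs, h]
  have t0 : t ≠ 0 := by
    intro h
    apply s2
    simp [dt, dot, crs, h]
  have u0 : u ≠ 0 := by
    intro h
    apply s3
    simp [dt, dot, crs, h]
  have e1 : t ≠ u := by
    intro h
    apply s4
    simp [dt, dot, crs, h, F4.add_self]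
  have e2 : s ≠ u := by
    intro h
    apply s5
    simp [dt, dot, crs, h, F4.add_self]
  have e3 : s ≠ t := by
    intro h
    apply s6
    simp [dt, dot, crs, h, F4.add_self]
  have key : ∀ s t u : F4, s ≠ 0 → t ≠ 0 → u ≠ 0 → t ≠ u → s ≠ u → s ≠ t → ((s, t, u) : V3) = sm s (F4.i, F4.w, F4.u) ∨
      ((s, u, t) : V3) = sm s (F4.i, F4.w, F4.u) := by
    decide
  rcases key s t u s0 t0 u0 e1 e2 e3 with hk | hk
  · refine ⟨F1, hF1, ?_⟩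
    simp only [arA, List.forall_mem_cons, List.not_mem_nil, false_imp_iff, implies_true, and_true]
    refine ⟨⟨a, p⁻¹, inv_ne_zero p0, ?_⟩, ⟨b, q⁻¹, inv_ne_zero q0, ?_⟩, ⟨c, r⁻¹, inv_ne_zero r0, ?_⟩, ⟨d, 1, one_ne_zero, ?_⟩,
      ⟨e, s, s0, ?_⟩⟩
    · rw [ha1]
      show _ = (p⁻¹ * 1, p⁻¹ * 0, p⁻¹ * 0)
      rw [mul_one, mul_zero]
    · rw [hb1]
      show _ = (q⁻¹ * 0, q⁻¹ * 1, q⁻¹ * 0)
      rw [mul_one, mul_zero]
    · rw [hc1]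
      show _ = (r⁻¹ * 0, r⁻¹ * 0, r⁻¹ * 1)
      rw [mul_one, mul_zero]
    · rw [hd1]
      rfl
    · rw [he]
      exact hk
  · have h0 : dt ((1, 0, 0) : V3) (0, 0, 1) (0, 1, 0) ≠ 0 := by decide
    obtain ⟨F2, hF2, hv2⟩ := Fr.change hF1 h0
    have d1 : ∀ v : V3, dot (1, 0, 0) v = v.1 := by decide
    have d2 : ∀ v : V3, dot (0, 1, 0) v = v.2.1 := by decide
    have d3 : ∀ v : V3, dot (0, 0, 1) v = v.2.2 := by decide
    refine ⟨F2, hF2, ?_⟩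
    simp only [arA, List.forall_mem_cons, List.not_mem_nil, false_imp_iff, implies_true, and_true]
    refine ⟨⟨a, p⁻¹, inv_ne_zero p0, ?_⟩, ⟨c, r⁻¹, inv_ne_zero r0, ?_⟩, ⟨b, q⁻¹, inv_ne_zero q0, ?_⟩, ⟨d, 1, one_ne_zero, ?_⟩,
      ⟨e, s, s0, ?_⟩⟩
    · rw [hv2, ha1, d1, d2, d3]
      show _ = (p⁻¹ * 1, p⁻¹ * 0, p⁻¹ * 0)
      rw [mul_one, mul_zero]
    · rw [hv2, hc1, d1, d2, d3]
      show _ = (r⁻¹ * 0, r⁻¹ * 1, r⁻¹ * 0)
      rw [mul_one, mul_zero]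
    · rw [hv2, hb1, d1, d2, d3]
      show _ = (q⁻¹ * 0, q⁻¹ * 0, q⁻¹ * 1)
      rw [mul_one, mul_zero]
    · rw [hv2, hd1, d1, d2, d3]
      rfl
    · rw [hv2, he, d1, d2, d3]
      exact hk

end Pool.Agent.QUD
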