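import Pool.Agent.QUD.RB
import Pool.Agent.QUD.ModB
import Pool.Agent.QUL.LBase

/-!
# QUD/RC: rank at most three

`r3`: if `L` has rank at most three and the bases of a space over `KU` with entries in the group then there is a form in `V_*`.
-/

set_option autoImplicit false

noncomputable section

open scoped Classical

namespace Pool.Agent.QUD

open Pool.Agent.FRM Pool.Agent.QUS Pool.Agent.QUE
open Pool.Agent.QU (Fm van spt dg EqOn EqD InV InVs Itv Rich Sub)

variable {E : Type} [Fintype E] {L : Submodule F4 (E → F4)} {Φ : Submodule KU (E → KU)}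

theorem rB {F : Fr L} (hF : F.Full) (h : ∀ e, F.c 1 e = 0 ∨ F.c 2 e = 0) : ∃ T, InVs (tp L) (∅, Finset.univ) T := by
  have h1 : ∀ e, ∃ p, ∃ m, p ∈ ptsB ∧ F.vv e = sm m p.1 := by
    intro e
    have h2 := List.all_eq_true.1 normB (F.vv e) (mem_allV _)
    have h3 : (decide ((F.vv e).2.1 = 0) || decide ((F.vv e).2.2 = 0)) = true := by
      rw [Bool.or_eq_true, decide_eq_true_eq, decide_eq_true_eq]
      exact h e
    rw [h3] at h2
    simp only [Bool.not_true, Bool.false_or, Bool.or_eq_true, decide_eq_true_eq, List.any_eq_true, Bool.and_eq_true] at h2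
    rcases h2 with h2 | ⟨p, hp, m, -, hm, h2⟩
    · exact ⟨((.i, .o, .o), (.o, .o, .o)), 0, by decide, by rw [h2]; decide⟩
    · exact ⟨p, m, hp, h2⟩
  choose pt mu hpt hv using h1
  have hnd : ptsB.Nodup := by decide +kernel
  refine invs_model hF hnd (hs := []) (Q2 := yes2) (Q3 := yes3) (fun z hz => List.all_eq_true.1 ckZB z hz) ckAB hpt hv
    (fun _ _ _ _ _ => rfl) (fun _ _ _ _ _ _ _ _ _ => rfl) ?_
  intro x
  have hx := List.all_eq_true.1 lineB x (mem_allV x)
  rw [List.any_eq_true] at hx
  obtain ⟨w, -, hw⟩ := hx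
  refine ⟨w, fun e he h0 => ?_⟩
  have h := List.all_eq_true.1 hw (pt e) (hpt e)
  rw [okw, h0, decide_eq_true rfl, Bool.not_true, Bool.false_or, decide_eq_true_eq] at h
  exact h

/-- no rich boxes -/
theorem r0 (h : ¬ ∃ q, Rich (rk L) q) : ∃ T, InVs (tp L) (∅, Finset.univ) T :=
  ⟨0, Pool.Agent.QU.InV.zero, fun q _ hq => (h ⟨q, hq⟩).elim⟩

theorem r1 {S : Finset E} (hS : IsB L S) (h : S.card ≤ 1) : ∃ T, InVs (tp L) (∅, Finset.univ) T := by
  refine r0 ?_
  rintro ⟨q, hq⟩
  have h1 : rk L q.2 ≤ 1 := by
    unfold rk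
    have := finrank_eq hS
    omega
  have h2 : 0 ≤ rk L q.1 := by
    have h3 := rk_le hS (A := q.1)
    have h4 : (0 : ℤ) ≤ ((S ∩ q.1).card : ℤ) := Int.natCast_nonneg _
    omega
  obtain ⟨-, -, h3 | h3⟩ := hq
  · have := h3.1
    omega
  · have := h3.1
    omega

/-- the points of a line -/
private def pts5 : List PT :=
  [((.i, .o, .o), (.o, .o, .o)),
   ((.i, .i, .o), (.o, .i, .o)),
   ((.i, .w, .o), (.o, .i, .o)),
   ((.i, .u, .o), (.o, .i, .o)),
   ((.o, .i, .o), (.o, .o, .o))]

private theorem ck5V : lfV (.o, .o, .i) pts5 = true := by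
  decide +kernel

private theorem norm5 : (allV.all fun v => !(decide (v.2.2 = 0)) || (decide (v = 0) ||
    pts5.any fun p => f4L.any fun m => decide (m ≠ 0) && decide (v = sm m p.1))) = true := by
  decide +kernel

private theorem line5 : (allV.all fun x => allV.any fun w => pts5.all fun p => okw x w p) = true := by
  decide +kernel

private theorem perp5 : (pts5.all fun p => allV.any fun x => decide (x ≠ 0) && (decide (x.2.2 = 0) && decide (dot x p.1 = 0))) = true := by
  decide +kernel

private theorem third5 : (pts5.all fun p => decide (p.2.2.2 = 0)) = true := by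
  decide +kernel

theorem r2 {S : Finset E} (hS : IsB L S) (h : S.card = 2) : ∃ T, InVs (tp L) (∅, Finset.univ) T := by
  obtain ⟨a, b, hab, hSe⟩ := Finset.card_eq_two.1 h
  have ha : a ∈ S := by
    rw [hSe]
    exact Finset.mem_insert_self _ _
  have hb : b ∈ S := by
    rw [hSe]
    exact Finset.mem_insert_of_mem (Finset.mem_singleton_self _)
  let F : Fr L :=
    { c := fun i => if i = 0 then fv L S a else if i = 1 then fv L S b else 0
      hc := fun i => by
        split_ifs
        · exact fv_mem hS ha
        · exact fv_mem hS hb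
        · exact L.zero_mem
      x := fun i => if i = 0 then LinearMap.proj a else if i = 1 then LinearMap.proj b else 0
      hx := fun v hv e => by
        rw [Fin.sum_univ_three]
        have h1 := congrFun (expand hS hv) e
        rw [h1]
        rw [hSe, Finset.sum_pair hab]
        simp }
  have hc2 : ∀ e, (F.vv e).2.2 = 0 := fun e => rfl
  have h1 : ∀ e, ∃ p, ∃ m, p ∈ pts5 ∧ F.vv e = sm m p.1 := by
    intro e
    have h2 := List.all_eq_true.1 norm5 (F.vv e) (mem_allV _)
    rw [hc2 e] at h2
    simp only [decide_true, Bool.not_true, Bool.false_or, Bool.or_eq_true, decide_eq_true_eq, List.any_eq_true, Bool.and_eq_true] at h2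
    rcases h2 with h2 | ⟨p, hp, m, -, hm, h2⟩
    · exact ⟨((.i, .o, .o), (.o, .o, .o)), 0, by decide, by rw [h2]; decide⟩
    · exact ⟨p, m, hp, h2⟩
  choose pt mu hpt hv using h1
  set τ : E → V3 := fun e => sm (mu e * mu e) (pt e).2 with hτd
  have hτ2 : ∀ e, (τ e).2.2 = 0 := by
    intro e
    have h3 := List.all_eq_true.1 third5 (pt e) (hpt e)
    rw [decide_eq_true_eq] at h3
    show (mu e * mu e) * (pt e).2.2.2 = 0
    rw [h3, mul_zero]
  have hxi : ∀ x : V3, (F.xi (F.cx x)).1 = x.1 ∧ (F.xi (F.cx x)).2.1 = x.2.1 := by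
    intro x
    constructor
    · show x.1 * fv L S a a + x.2.1 * fv L S b a + x.2.2 * 0 = x.1
      rw [fv_self hS ha, fv_oth hS hb ha hab]
      ring
    · show x.1 * fv L S a b + x.2.1 * fv L S b b + x.2.2 * 0 = x.2.1
      rw [fv_self hS hb, fv_oth hS ha hb hab.symm]
      ring
  have hτ : ∀ x e, dot (F.xi (F.cx x)) (τ e) = dot x (τ e) := by
    intro x e
    unfold dot
    rw [(hxi x).1, (hxi x).2, hτ2 e, mul_zero, mul_zero]
  refine ⟨F.T τ, F.T_inV ?_ _, ?_⟩
  · intro x
    have hx := List.all_eq_true.1 line5 x (mem_allV x)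
    rw [List.any_eq_true] at hx
    obtain ⟨w, -, hw⟩ := hx
    refine ⟨w, fun e he => ?_⟩
    have h := List.all_eq_true.1 hw (pt e) (hpt e)
    rw [hv e] at he ⊢
    have e1 : ∀ (x v : V3) (a : F4), dot x (sm a v) = a * dot x v := by
      intro x v a
      simp only [dot, sm]
      ring
    have e2 : sqv (sm (mu e) (pt e).1) = sm (mu e * mu e) (sqv (pt e).1) := by
      simp only [sqv, sm, Prod.mk.injEq]
      refine ⟨?_, ?_, ?_⟩ <;> ring
    rw [hτd]
    simp only
    rw [e1, e2, e1]
    by_cases h0 : mu e = 0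
    · rw [h0, zero_mul, zero_mul, zero_mul]
    · rw [e1] at he
      rw [okw, (mul_eq_zero.1 he).resolve_left h0, decide_eq_true rfl, Bool.not_true, Bool.false_or, decide_eq_true_eq] at h
      rw [h]
  · intro q _ hq hd
    obtain ⟨S', hS', hc | hc⟩ := block_of_rich hq
    · obtain ⟨a', ha', b', hb', hab', c, hc, e, he, f, hf, k1, k2, k3, k4, k5, k6, w1, w2, w3, hall⟩ := hc
      have hd' := hall _ hd
      have hr := rich_col hS' ha' hb' hab' hc he hf k1 k2 k3 k4 k5 k6 w1 w2 w3
      have hcard : S'.card = 2 := by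
        have h1 := finrank_eq hS
        have h2 := finrank_eq hS'
        omega
      have h4 : (S' \ {a', b'}).card = 0 := by
        rw [Finset.card_sdiff_of_subset (by
          intro x hx
          rcases Finset.mem_insert.1 hx with rfl | hx
          · exact ha'
          · rw [Finset.mem_singleton.1 hx]
            exact hb'), Finset.card_pair hab', hcard]
      have h4' := Finset.card_eq_zero.1 h4
      set q' : Itv E := (S' \ {a', b'}, S' ∪ {c, e, f}) with hq'
      have hq1 : q'.1 = ∅ := h4'
      have hSe' : S' ⊆ q'.2 := Finset.subset_union_left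
      obtain ⟨hr1, hr2, hr3⟩ := hr
      have e1 : rk L q'.1 = 0 := by
        have h5 : rk L q'.1 = ((S' \ {a', b'}).card : ℤ) := rk_sub_basis hS' Finset.sdiff_subset
        rw [h5, h4]
        rfl
      have e2 : rk L q'.2 = 2 := by
        have h5 : rk L q'.2 = ((S' ∩ q'.2).card : ℤ) := rk_eq hS' fun x hx hxG => absurd (hSe' hx) hxG
        rw [h5, Finset.inter_eq_left.2 hSe', hcard]
        rfl
      have hr4 : ∀ i ∈ QUB.gs q', ∀ j ∈ QUB.gs q', i ≠ j → rk L (q'.1 ∪ {i, j}) = rk L q'.2 := by
        rcases hr3 with h | h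
        · intro i hi j hj h1
          rw [h.1]
          exact h.2 i hi j hj h1
        · exfalso
          have := h.1
          omega
      have hz : ∀ i ∈ QUB.gs q', ∀ j ∈ QUB.gs q', i ≠ j → ∀ v ∈ L, v i = 0 → v j = 0 → v = 0 := by
        intro i hi j hj hij v hv hi0 hj0
        refine hS'.1 v hv fun s hs => ?_
        refine van_of_rk (A := q'.1 ∪ {i, j}) (B := q'.2) ?_ (hr4 i hi j hj hij) hv ?_ s (hSe' hs)
        · intro x hx
          rcases Finset.mem_union.1 hx with hx | hx
          · exact hSe' (Finset.mem_sdiff.1 hx).1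
          · rcases Finset.mem_insert.1 hx with rfl | hx
            · exact (Finset.mem_sdiff.1 hi).1
            · rw [Finset.mem_singleton.1 hx]
              exact (Finset.mem_sdiff.1 hj).1
        · intro x hx
          rcases Finset.mem_union.1 hx with hx | hx
          · rw [hq1] at hx
            exact absurd hx (Finset.notMem_empty x)
          · rcases Finset.mem_insert.1 hx with rfl | hx
            · exact hi0
            · rw [Finset.mem_singleton.1 hx]
              exact hj0
      have hcx : ∀ x : V3, x.2.2 = 0 → F.cx x = 0 → x = 0 := by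
        intro x hx0 h0
        obtain ⟨g1, g2⟩ := hxi x
        rw [h0] at g1 g2
        refine Prod.ext ?_ (Prod.ext ?_ hx0)
        · rw [← g1]
          exact map_zero _
        · rw [← g2]
          exact map_zero _
      have hsm : ∀ (x v : V3) (m : F4), dot x v = 0 → dot x (sm m v) = 0 := by
        intro x v m h0
        have e1 : dot x (sm m v) = m * dot x v := by
          simp only [dot, sm]
          ring
        rw [e1, h0, mul_zero]
      have hne : ∀ i ∈ QUB.gs q', ∀ j ∈ QUB.gs q', i ≠ j → pt i ≠ pt j := by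
        intro i hi j hj hij h0
        have h5 := List.all_eq_true.1 perp5 (pt i) (hpt i)
        rw [List.any_eq_true] at h5
        obtain ⟨x, -, hx⟩ := h5
        rw [Bool.and_eq_true, Bool.and_eq_true, decide_eq_true_eq, decide_eq_true_eq, decide_eq_true_eq] at hx
        refine hx.1 (hcx x hx.2.1 (hz i hi j hj hij _ (F.cx_mem x) ?_ ?_))
        · show dot x (F.vv i) = 0
          rw [hv i]
          exact hsm _ _ _ hx.2.2
        · show dot x (F.vv j) = 0
          rw [hv j, ← h0]
          exact hsm _ _ _ hx.2.2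
      have h5c : (QUB.gs q').card = 5 := hr2
      have hm : ∀ i ∈ QUB.gs q', mu i ≠ 0 := by
        intro i hi h0
        have h5 : 1 < (QUB.gs q').card := by omega
        obtain ⟨j, hj, hji⟩ := Finset.exists_mem_ne h5 i
        have h5 := List.all_eq_true.1 perp5 (pt j) (hpt j)
        rw [List.any_eq_true] at h5
        obtain ⟨x, -, hx⟩ := h5
        rw [Bool.and_eq_true, Bool.and_eq_true, decide_eq_true_eq, decide_eq_true_eq, decide_eq_true_eq] at hx
        refine hx.1 (hcx x hx.2.1 (hz i hi j hj hji.symm _ (F.cx_mem x) ?_ ?_))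
        · show dot x (F.vv i) = 0
          rw [hv i, h0]
          simp [dot, sm]
        · show dot x (F.vv j) = 0
          rw [hv j]
          exact hsm _ _ _ hx.2.2
      have hnd : pts5.Nodup := by decide +kernel
      obtain ⟨l, l1, l2, l3, l4, l5⟩ := list_of hnd (N := QUB.gs q') (pt := pt) (fun i _ => hpt i) fun i hi j hj hij => by
        by_contra hn
        exact hne i hi j hj hn hij
      have h6 : l = pts5 := l1.eq_of_length (by rw [l2, h5c]; rfl)
      subst h6
      refine nd_virt F hτ hv (fun e => rfl) (q := q') ?_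
        (N := QUB.gs q') (fun x hx => (Finset.mem_sdiff.1 hx).1) hm
        (l := pts5) l5 _ ck5V hd'
      intro x hx
      rw [hq1] at hx
      exact absurd hx (Finset.notMem_empty x)
    · obtain ⟨a', ha', b', hb', c, hc, hab', hac, hbc, -⟩ := hc
      exfalso
      have hcard : S'.card = 2 := by
        have h1 := finrank_eq hS
        have h2 := finrank_eq hS'
        omega
      have h5 : ({a', b', c} : Finset E) ⊆ S' := by
        intro x hx
        rcases Finset.mem_insert.1 hx with rfl | hx
        · exact ha'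
        · rcases Finset.mem_insert.1 hx with rfl | hx
          · exact hb'
          · rw [Finset.mem_singleton.1 hx]
            exact hc
      have h6 := Finset.card_le_card h5
      rw [Finset.card_eq_three.2 ⟨a', b', c, hab', hac, hbc, rfl⟩] at h6
      omega

theorem r3 (hB : ∀ S, IsB Φ S ↔ IsB L S)
    (hU : ∀ S, IsB Φ S → ∀ b ∈ S, ∀ e, e ∉ S → fv Φ S b e = 0 ∨ InG (fv Φ S b e)) {S : Finset E} (hS : IsB L S)
    (h : S.card ≤ 3) : ∃ T, InVs (tp L) (∅, Finset.univ) T := by
  rcases Nat.lt_or_ge S.card 2 with h1 | h1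
  · exact r1 hS (by omega)
  rcases Nat.lt_or_ge S.card 3 with h2 | h2
  · exact r2 hS (by omega)
  have h3 : S.card = 3 := by omega
  have h4 : ∀ S', IsB L S' → S'.card = 3 := by
    intro S' hS'
    have h1 := finrank_eq hS
    have h2 := finrank_eq hS'
    omega
  by_cases hA : ∃ a b c d e, Ac L a b c d e
  · obtain ⟨a, b, c, d, e, hA⟩ := hA
    obtain ⟨F, hF, har⟩ := frame_of_ac hA
    exact rA hF hB hU har
  · by_cases hr : ∃ q, Rich (rk L) q
    · obtain ⟨F, hF, hl⟩ := geo hr h4 hA
      exact rB hF hl
    · exact r0 hr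

end Pool.Agent.QUD
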